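import Pool.Agent.Lib.MP_eb7570_an.ND.Alg

set_option autoImplicit false

/-!
# Near disk family: expansion of `W - E` in powers of `e` and `χ`

`W = al Q₁² + be Q₂² - |∇Q₁|² - |∇Q₂|²` and `E` for the pair and the certificate of the near disk family, written
in the variables `s = x² + y²`, `c = χ = x² - y²` (half coordinates), with the values of the radial functions as
independent variables.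
-/

noncomputable section

namespace Pool.Agent.Lib.MPeb.ND


/-- `ψ`, `ψ_s`, `ψ_χ` -/
def psiv (e c s F0 F2 F4 : ℝ) : ℝ := F0 + e*c*F2 - e^2*(2*c^2 - s^2)*F4

def psis (e c s F1 F3 F4 F5 : ℝ) : ℝ := -F1 - e*c*F3 + e^2*((2*c^2 - s^2)*F5 + 2*s*F4)

def psic (e c F2 F4 : ℝ) : ℝ := e*F2 - 4*e^2*c*F4

/-- `h` and its derivatives in `s` and `χ` -/
def hv (e c s g k : ℝ) : ℝ := g + e*c*k + e^2*(- (8/125)*c^2*s^2 - (7/1000)*c^2*s - (19/500)*c^2 - (1/500)*s^3 - (3/250)*s^2 - (51/1000)*s + (43/1000)) + e^3*((153/1000)*c^3*s + (51/1000)*c^3 - (7/125)*c*s^2 + (7/1000)*c*s - (41/1000)*c)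

def hs (e c s g1 k1 : ℝ) : ℝ := g1 + e*c*k1 + e^2*(- (16/125)*c^2*s - (7/1000)*c^2 - (3/500)*s^2 - (3/125)*s - (51/1000)) + e^3*((153/1000)*c^3 - (14/125)*c*s + (7/1000)*c)

def hc (e c s k : ℝ) : ℝ := e*k + e^2*(- (16/125)*c*s^2 - (7/500)*c*s - (19/250)*c) + e^3*((459/1000)*c^2*s + (153/1000)*c^2 - (7/125)*s^2 + (7/1000)*s - (41/1000))

def hss (e c s g2 k2 : ℝ) : ℝ := g2 + e*c*k2 + e^2*(- (16/125)*c^2 - (3/250)*s - (3/125)) + e^3*(- (14/125)*c)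

def hsc (e c s k1 : ℝ) : ℝ := e*k1 + e^2*(- (32/125)*c*s - (7/500)*c) + e^3*((459/1000)*c^2 - (14/125)*s + (7/1000))

def hcc (e c s : ℝ) : ℝ := e^2*(- (16/125)*s^2 - (7/500)*s - (19/250)) + e^3*((459/500)*c*s + (153/500)*c)

/-- the certificate function `E = 3h|∇ψ|² - 4ψ²h + 3ψ∇ψ·∇h + ψ²Δh/2` -/
def Ev (e c s F0 F1 F2 F3 F4 F5 g g1 g2 k k1 k2 : ℝ) : ℝ :=
  3 * hv e c s g k * (4*s*((psis e c s F1 F3 F4 F5)^2 + (psic e c F2 F4)^2)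
      + 8*c*psis e c s F1 F3 F4 F5 * psic e c F2 F4)
    - 4 * (psiv e c s F0 F2 F4)^2 * hv e c s g k
    + 3 * psiv e c s F0 F2 F4 * (4*s*(psis e c s F1 F3 F4 F5 * hs e c s g1 k1
        + psic e c F2 F4 * hc e c s k)
      + 4*c*(psis e c s F1 F3 F4 F5 * hc e c s k + psic e c F2 F4 * hs e c s g1 k1))
    + (psiv e c s F0 F2 F4)^2 * (2*hs e c s g1 k1 + 2*s*hss e c s g2 k2 + 4*c*hsc e c s k1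
      + 2*s*hcc e c s)

/-- the form `W` of the pair -/
def Wv (e c s mu al b b1 A A1 C C1 : ℝ) : ℝ :=
  (4*mu + e*al) * ((s + c)/2) * (b + e*(A + c*C))^2
    + (4*mu - e*al) * ((s - c)/2) * (b + e*(c*C - A))^2
    - ((b + e*(A + c*C)) + (s + c)*((b1 + e*(A1 + c*C1)) + e*C))^2
    - (s^2 - c^2)*((b1 + e*(A1 + c*C1)) - e*C)^2
    - ((b + e*(c*C - A)) + (s - c)*((b1 + e*(c*C1 - A1)) - e*C))^2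
    - (s^2 - c^2)*((b1 + e*(c*C1 - A1)) + e*C)^2

def D20 (s b A A1 C g g1 g2 k F0 F1 F2 F4 F5 mu al : ℝ) : ℝ :=
    (3/125)*s^4*F1^2 - 24*s^3*g*F1*F5 + 12*s^3*g1*F0*F5 + 12*s^3*g1*F1*F4 - 4*s^3*g2*F0*F4 +
    (31/125)*s^3*F0^2 - (9/125)*s^3*F0*F1 + (18/125)*s^3*F1^2 - 4*s^2*A1^2 - 4*s^2*C^2 +
    8*s^2*g*F0*F4 + 48*s^2*g*F1*F4 - 28*s^2*g1*F0*F4 + (2/125)*s^2*F0^2 - (36/125)*s^2*F0*F1 +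
    (153/250)*s^2*F1^2 + 2*s*b*A*al + 4*s*A^2*mu - 4*s*A*A1 - 4*s*A*C - 12*s*g*F2^2 -
    12*s*k*F0*F2 + (11/250)*s*F0^2 - (153/250)*s*F0*F1 - (129/250)*s*F1^2 - 2*A^2 +
    (137/500)*F0^2

def D22 (s b A A1 C C1 g g1 g2 k k1 k2 F0 F1 F2 F3 F4 F5 mu al : ℝ) : ℝ :=
    (96/125)*s^3*F1^2 - 4*s^2*C1^2 - (32/125)*s^2*F0^2 - (384/125)*s^2*F0*F1 + (21/250)*s^2*F1^2
    - 8*s*A1*C1 + 4*s*C^2*mu - 12*s*C*C1 + 48*s*g*F1*F5 - 12*s*g*F3^2 - 24*s*g1*F0*F5 -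
    24*s*g1*F1*F4 + 12*s*g1*F2*F3 + 8*s*g2*F0*F4 - 2*s*g2*F2^2 - 24*s*k*F1*F3 + 12*s*k1*F0*F3 +
    12*s*k1*F1*F2 - 4*s*k2*F0*F2 + (377/250)*s*F0^2 - (63/250)*s*F0*F1 + (57/125)*s*F1^2 +
    2*b*C*al + 8*A*C*mu - 4*A*C1 - 12*A1*C - 6*C^2 - 16*g*F0*F4 - 96*g*F1*F4 + 4*g*F2^2 +
    24*g*F2*F3 + 56*g1*F0*F4 - 14*g1*F2^2 + 8*k*F0*F2 + 12*k*F0*F3 + 36*k*F1*F2 - 24*k1*F0*F2 -
    (41/500)*F0^2 - (114/125)*F0*F1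

def D31 (s A C g g1 g2 k k1 k2 F0 F1 F2 F3 F4 F5 al : ℝ) : ℝ :=
    (6/125)*s^4*F1*F3 - 24*s^3*g*F3*F5 + 12*s^3*g1*F2*F5 + 12*s^3*g1*F3*F4 - 4*s^3*g2*F2*F4 -
    24*s^3*k*F1*F5 + 12*s^3*k1*F0*F5 + 12*s^3*k1*F1*F4 - 4*s^3*k2*F0*F4 + (254/125)*s^3*F0*F2 -
    (9/125)*s^3*F0*F3 + (84/125)*s^3*F1^2 - (3/25)*s^3*F1*F2 + (36/125)*s^3*F1*F3 +
    8*s^2*g*F2*F4 + 24*s^2*g*F2*F5 + 48*s^2*g*F3*F4 - 40*s^2*g1*F2*F4 + 8*s^2*k*F0*F4 +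
    12*s^2*k*F0*F5 + 60*s^2*k*F1*F4 - 36*s^2*k1*F0*F4 - (103/50)*s^2*F0^2 - (252/125)*s^2*F0*F1
    + (34/125)*s^2*F0*F2 - (36/125)*s^2*F0*F3 - (21/250)*s^2*F1^2 - (72/125)*s^2*F1*F2 +
    (153/125)*s^2*F1*F3 + 2*s*A*C*al + 48*s*g*F2*F4 + 24*s*k*F0*F4 - 24*s*k*F2^2 +
    (39/125)*s*F0^2 + (21/125)*s*F0*F1 + (161/125)*s*F0*F2 - (153/250)*s*F0*F3 +
    (123/250)*s*F1^2 - (459/250)*s*F1*F2 - (129/125)*s*F1*F3 + A^2*al - (103/500)*F0^2 -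
    (123/250)*F0*F1 + (29/25)*F0*F2 + (129/125)*F1*F2

def D33 (s C g g1 g2 k k1 k2 F0 F1 F2 F3 F4 F5 al : ℝ) : ℝ :=
    (192/125)*s^3*F1*F3 - (64/125)*s^2*F0*F2 - (384/125)*s^2*F0*F3 - (459/250)*s^2*F1^2 -
    (576/125)*s^2*F1*F2 + (21/125)*s^2*F1*F3 + 48*s*g*F3*F5 - 24*s*g1*F2*F5 - 24*s*g1*F3*F4 +
    8*s*g2*F2*F4 + 48*s*k*F1*F5 - 12*s*k*F3^2 - 24*s*k1*F0*F5 - 24*s*k1*F1*F4 + 12*s*k1*F2*F3 +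
    8*s*k2*F0*F4 - 2*s*k2*F2^2 + (153/250)*s*F0^2 + (918/125)*s*F0*F1 + (569/125)*s*F0*F2 -
    (63/250)*s*F0*F3 - (153/250)*s*F1^2 - (21/50)*s*F1*F2 + (114/125)*s*F1*F3 + C^2*al -
    16*g*F2*F4 - 48*g*F2*F5 - 96*g*F3*F4 + 80*g1*F2*F4 - 16*k*F0*F4 - 24*k*F0*F5 - 120*k*F1*F4 +
    4*k*F2^2 + 36*k*F2*F3 + 72*k1*F0*F4 - 18*k1*F2^2 - (969/500)*F0^2 + (459/250)*F0*F1 -
    (2/25)*F0*F2 - (114/125)*F0*F3 - (228/125)*F1*F2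

def D40 (s g g1 g2 k F0 F1 F2 F4 F5 : ℝ) : ℝ :=
    (6/125)*s^6*F1*F5 - 12*s^5*g*F5^2 + 12*s^5*g1*F4*F5 - 2*s^5*g2*F4^2 + (62/125)*s^5*F0*F4 -
    (9/125)*s^5*F0*F5 - (21/125)*s^5*F1*F4 + (36/125)*s^5*F1*F5 + 4*s^4*g*F4^2 + 48*s^4*g*F4*F5
    - 26*s^4*g1*F4^2 + (22/125)*s^4*F0*F4 - (36/125)*s^4*F0*F5 - (108/125)*s^4*F1*F4 +
    (153/125)*s^4*F1*F5 + (3/125)*s^4*F2^2 - 48*s^3*g*F4^2 - 12*s^3*k*F2*F4 + (84/125)*s^3*F0*F2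
    + (83/125)*s^3*F0*F4 - (153/250)*s^3*F0*F5 - (153/50)*s^3*F1*F4 - (129/125)*s^3*F1*F5 +
    (18/125)*s^3*F2^2 - (21/250)*s^2*F0*F2 + (443/250)*s^2*F0*F4 + (258/125)*s^2*F1*F4 +
    (153/250)*s^2*F2^2 + (123/250)*s*F0*F2 - (129/250)*s*F2^2

def D42 (s g g1 g2 k k1 k2 F0 F1 F2 F3 F4 F5 : ℝ) : ℝ :=
    (192/125)*s^5*F1*F5 - (64/125)*s^4*F0*F4 - (384/125)*s^4*F0*F5 - (768/125)*s^4*F1*F4 +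
    (9/125)*s^4*F1*F5 + (3/125)*s^4*F3^2 + 48*s^3*g*F5^2 - 48*s^3*g1*F4*F5 + 8*s^3*g2*F4^2 -
    24*s^3*k*F3*F5 + 12*s^3*k1*F2*F5 + 12*s^3*k1*F3*F4 - 4*s^3*k2*F2*F4 + (253/125)*s^3*F0*F4 -
    (27/250)*s^3*F0*F5 + (168/125)*s^3*F1*F3 - (63/250)*s^3*F1*F4 + (42/125)*s^3*F1*F5 +
    (319/125)*s^3*F2^2 - (3/25)*s^3*F2*F3 + (18/125)*s^3*F3^2 - 16*s^2*g*F4^2 - 192*s^2*g*F4*F5
    + 104*s^2*g1*F4^2 + 8*s^2*k*F2*F4 + 36*s^2*k*F2*F5 + 60*s^2*k*F3*F4 - 48*s^2*k1*F2*F4 -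
    (2407/250)*s^2*F0*F2 - (252/125)*s^2*F0*F3 - (171/250)*s^2*F0*F4 - (42/125)*s^2*F0*F5 -
    (84/25)*s^2*F1*F2 - (21/125)*s^2*F1*F3 - (126/125)*s^2*F1*F4 - (306/125)*s^2*F1*F5 +
    (17/50)*s^2*F2^2 - (72/125)*s^2*F2*F3 + (153/250)*s^2*F3^2 + 96*s*k*F2*F4 + (33/250)*s*F0*F2
    + (21/125)*s*F0*F3 - (394/125)*s*F0*F4 + (153/125)*s*F0*F5 + (42/125)*s*F1*F2 +
    (123/125)*s*F1*F3 + (153/25)*s*F1*F4 + (258/125)*s*F1*F5 + (17/10)*s*F2^2 -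
    (459/250)*s*F2*F3 - (129/250)*s*F3^2 - (62/125)*F0*F2 - (123/250)*F0*F3 - (443/125)*F0*F4 -
    (369/250)*F1*F2 - (516/125)*F1*F4 + (443/500)*F2^2 + (129/125)*F2*F3

def D44 (s g g1 g2 k k1 k2 F0 F1 F2 F3 F4 F5 : ℝ) : ℝ :=
    - (384/125)*s^3*F1*F5 + (96/125)*s^3*F3^2 + (128/125)*s^2*F0*F4 + (768/125)*s^2*F0*F5 -
    (459/125)*s^2*F1*F3 + (1536/125)*s^2*F1*F4 - (42/125)*s^2*F1*F5 - (32/125)*s^2*F2^2 -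
    (576/125)*s^2*F2*F3 + (21/250)*s^2*F3^2 - 48*s*g*F5^2 + 48*s*g1*F4*F5 - 8*s*g2*F4^2 +
    48*s*k*F3*F5 - 24*s*k1*F2*F5 - 24*s*k1*F3*F4 + 8*s*k2*F2*F4 + (153/125)*s*F0*F2 +
    (918/125)*s*F0*F3 - (1522/125)*s*F0*F4 + (63/125)*s*F0*F5 + (1377/125)*s*F1*F2 -
    (153/125)*s*F1*F3 + (147/125)*s*F1*F4 - (228/125)*s*F1*F5 + (761/250)*s*F2^2 -
    (21/50)*s*F2*F3 + (57/125)*s*F3^2 + 16*g*F4^2 + 192*g*F4*F5 - 104*g1*F4^2 - 16*k*F2*F4 -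
    72*k*F2*F5 - 120*k*F3*F4 + 96*k1*F2*F4 - (714/125)*F0*F2 + (459/250)*F0*F3 - (1/125)*F0*F4 +
    (228/125)*F0*F5 + (153/50)*F1*F2 + (684/125)*F1*F4 + (1/500)*F2^2 - (228/125)*F2*F3

def D51 (s k k1 k2 F0 F1 F2 F3 F4 F5 : ℝ) : ℝ :=
    (6/125)*s^6*F3*F5 - 12*s^5*k*F5^2 + 12*s^5*k1*F4*F5 - 2*s^5*k2*F4^2 + (168/125)*s^5*F1*F5 +
    (254/125)*s^5*F2*F4 - (3/25)*s^5*F2*F5 - (21/125)*s^5*F3*F4 + (36/125)*s^5*F3*F5 +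
    4*s^4*k*F4^2 + 60*s^4*k*F4*F5 - 30*s^4*k1*F4^2 - (103/25)*s^4*F0*F4 - (252/125)*s^4*F0*F5 -
    (588/125)*s^4*F1*F4 - (21/125)*s^4*F1*F5 + (8/25)*s^4*F2*F4 - (72/125)*s^4*F2*F5 -
    (108/125)*s^4*F3*F4 + (153/125)*s^4*F3*F5 - 24*s^3*k*F4^2 + (246/125)*s^3*F0*F4 +
    (21/125)*s^3*F0*F5 + (63/125)*s^3*F1*F4 + (123/125)*s^3*F1*F5 + (168/125)*s^3*F2^2 +
    (161/125)*s^3*F2*F4 - (459/250)*s^3*F2*F5 - (153/50)*s^3*F3*F4 - (129/125)*s^3*F3*F5 -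
    (103/250)*s^2*F0*F4 - (123/250)*s^2*F0*F5 - (123/50)*s^2*F1*F4 - (21/125)*s^2*F2^2 -
    (8/125)*s^2*F2*F4 + (129/125)*s^2*F2*F5 + (258/125)*s^2*F3*F4 - (123/125)*s*F0*F4 +
    (123/125)*s*F2^2 + (258/125)*s*F2*F4

def D53 (s k k1 k2 F0 F1 F2 F3 F4 F5 : ℝ) : ℝ :=
    (192/125)*s^5*F3*F5 - (459/125)*s^4*F1*F5 - (64/125)*s^4*F2*F4 - (576/125)*s^4*F2*F5 -
    (768/125)*s^4*F3*F4 + (9/125)*s^4*F3*F5 + 48*s^3*k*F5^2 - 48*s^3*k1*F4*F5 + 8*s^3*k2*F4^2 +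
    (153/125)*s^3*F0*F4 + (918/125)*s^3*F0*F5 + (1836/125)*s^3*F1*F4 - (489/125)*s^3*F1*F5 -
    (323/125)*s^3*F2*F4 - (9/50)*s^3*F2*F5 + (84/125)*s^3*F3^2 - (63/250)*s^3*F3*F4 +
    (42/125)*s^3*F3*F5 - 16*s^2*k*F4^2 - 240*s^2*k*F4*F5 + 120*s^2*k1*F4^2 +
    (2927/250)*s^2*F0*F4 + (1467/250)*s^2*F0*F5 + (3423/250)*s^2*F1*F4 + (42/125)*s^2*F1*F5 -
    (2351/250)*s^2*F2^2 - (84/25)*s^2*F2*F3 - (177/125)*s^2*F2*F4 - (84/125)*s^2*F2*F5 -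
    (21/250)*s^2*F3^2 - (126/125)*s^2*F3*F4 - (306/125)*s^2*F3*F5 - 48*s*k*F4^2 -
    (369/125)*s*F0*F4 - (42/125)*s*F0*F5 - (126/125)*s*F1*F4 - (246/125)*s*F1*F5 -
    (99/125)*s*F2^2 + (42/125)*s*F2*F3 - (922/125)*s*F2*F4 + (459/125)*s*F2*F5 +
    (123/250)*s*F3^2 + (153/25)*s*F3*F4 + (258/125)*s*F3*F5 + (29/25)*F0*F4 + (123/125)*F0*F5 +
    (123/25)*F1*F4 - (29/100)*F2^2 - (369/250)*F2*F3 - (596/125)*F2*F4 - (258/125)*F2*F5 -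
    (516/125)*F3*F4

def D55 (s k k1 k2 F0 F1 F2 F3 F4 F5 : ℝ) : ℝ :=
    - (384/125)*s^3*F3*F5 + (918/125)*s^2*F1*F5 + (128/125)*s^2*F2*F4 + (1152/125)*s^2*F2*F5 -
    (459/250)*s^2*F3^2 + (1536/125)*s^2*F3*F4 - (42/125)*s^2*F3*F5 - 48*s*k*F5^2 + 48*s*k1*F4*F5
    - 8*s*k2*F4^2 - (306/125)*s*F0*F4 - (1836/125)*s*F0*F5 - (3672/125)*s*F1*F4 +
    (306/125)*s*F1*F5 + (153/250)*s*F2^2 + (1377/125)*s*F2*F3 - (1906/125)*s*F2*F4 +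
    (21/25)*s*F2*F5 - (153/250)*s*F3^2 + (147/125)*s*F3*F4 - (228/125)*s*F3*F5 + 16*k*F4^2 +
    240*k*F4*F5 - 120*k1*F4^2 + (1887/125)*F0*F4 - (459/125)*F0*F5 - (1071/125)*F1*F4 -
    (1887/500)*F2^2 + (153/50)*F2*F3 - (22/125)*F2*F4 + (456/125)*F2*F5 + (684/125)*F3*F4

def D60 (s F2 F4 F5 : ℝ) : ℝ :=
    (3/125)*s^8*F5^2 + (31/125)*s^7*F4^2 - (21/125)*s^7*F4*F5 + (18/125)*s^7*F5^2 +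
    (32/125)*s^6*F4^2 - (108/125)*s^6*F4*F5 + (153/250)*s^6*F5^2 + (84/125)*s^5*F2*F4 +
    (299/250)*s^5*F4^2 - (153/50)*s^5*F4*F5 - (129/250)*s^5*F5^2 - (21/250)*s^4*F2*F4 +
    (1973/500)*s^4*F4^2 + (258/125)*s^4*F4*F5 + (123/250)*s^3*F2*F4 - (258/125)*s^3*F4^2

def D62 (s F2 F3 F4 F5 : ℝ) : ℝ :=
    (96/125)*s^7*F5^2 - (32/125)*s^6*F4^2 - (768/125)*s^6*F4*F5 - (3/250)*s^6*F5^2 +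
    (168/125)*s^5*F3*F5 + (897/250)*s^5*F4^2 + (21/250)*s^5*F4*F5 - (3/25)*s^5*F5^2 -
    (2407/250)*s^4*F2*F4 - (84/25)*s^4*F2*F5 - (588/125)*s^4*F3*F4 - (21/125)*s^4*F3*F5 -
    (277/500)*s^4*F4^2 + (18/25)*s^4*F4*F5 - (306/125)*s^4*F5^2 - (639/250)*s^3*F2*F4 +
    (42/125)*s^3*F2*F5 + (63/125)*s^3*F3*F4 + (123/125)*s^3*F3*F5 - (62/25)*s^3*F4^2 +
    (306/25)*s^3*F4*F5 + (258/125)*s^3*F5^2 + (1/125)*s^2*F2*F4 - (369/250)*s^2*F2*F5 -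
    (123/50)*s^2*F3*F4 - (749/125)*s^2*F4^2 - (1032/125)*s^2*F4*F5 - (492/125)*s*F2*F4

def D64 (s F2 F3 F4 F5 : ℝ) : ℝ :=
    - (384/125)*s^5*F5^2 - (459/125)*s^4*F3*F5 + (128/125)*s^4*F4^2 + (3072/125)*s^4*F4*F5 -
    (6/25)*s^4*F5^2 + (153/125)*s^3*F2*F4 + (1377/125)*s^3*F2*F5 + (1836/125)*s^3*F3*F4 -
    (489/125)*s^3*F3*F5 - (1398/125)*s^3*F4^2 + (42/25)*s^3*F4*F5 - (156/125)*s^3*F5^2 +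
    (3529/125)*s^2*F2*F4 + (489/50)*s^2*F2*F5 + (3423/250)*s^2*F3*F4 + (42/125)*s^2*F3*F5 +
    (121/125)*s^2*F4^2 + (936/125)*s^2*F4*F5 + (306/125)*s^2*F5^2 + (12/25)*s*F2*F4 -
    (84/125)*s*F2*F5 - (126/125)*s*F3*F4 - (246/125)*s*F3*F5 + (766/125)*s*F4^2 -
    (306/25)*s*F4*F5 - (258/125)*s*F5^2 + (166/125)*F2*F4 + (369/125)*F2*F5 + (123/25)*F3*F4 +
    (749/125)*F4^2 + (1032/125)*F4*F5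

def D66 (s F2 F3 F4 F5 : ℝ) : ℝ :=
    (384/125)*s^3*F5^2 + (918/125)*s^2*F3*F5 - (128/125)*s^2*F4^2 - (3072/125)*s^2*F4*F5 +
    (42/125)*s^2*F5^2 - (306/125)*s*F2*F4 - (2754/125)*s*F2*F5 - (3672/125)*s*F3*F4 +
    (306/125)*s*F3*F5 + (458/25)*s*F4^2 - (294/125)*s*F4*F5 + (228/125)*s*F5^2 +
    (2346/125)*F2*F4 - (153/25)*F2*F5 - (1071/125)*F3*F4 + (43/125)*F4^2 - (1368/125)*F4*F5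

def D71 (s F4 F5 : ℝ) : ℝ :=
    (84/125)*s^7*F5^2 - (103/50)*s^6*F4^2 - (588/125)*s^6*F4*F5 - (21/250)*s^6*F5^2 +
    (543/125)*s^5*F4^2 + (63/125)*s^5*F4*F5 + (123/250)*s^5*F5^2 - (271/500)*s^4*F4^2 -
    (123/50)*s^4*F4*F5 + (123/125)*s^3*F4^2

def D73 (s F4 F5 : ℝ) : ℝ :=
    - (459/250)*s^6*F5^2 + (153/250)*s^5*F4^2 + (1836/125)*s^5*F4*F5 - (33/10)*s^5*F5^2 +
    (3151/500)*s^4*F4^2 + (231/10)*s^4*F4*F5 + (42/125)*s^4*F5^2 - (1011/125)*s^3*F4^2 -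
    (252/125)*s^3*F4*F5 - (246/125)*s^3*F5^2 + (29/25)*s^2*F4^2 + (246/25)*s^2*F4*F5 +
    (246/125)*s*F4^2

def D75 (s F4 F5 : ℝ) : ℝ :=
    (918/125)*s^4*F5^2 - (306/125)*s^3*F4^2 - (7344/125)*s^3*F4*F5 + (642/125)*s^3*F5^2 -
    (979/125)*s^2*F4^2 - (4494/125)*s^2*F4*F5 - (42/125)*s^2*F5^2 + (582/125)*s*F4^2 +
    (252/125)*s*F4*F5 + (246/125)*s*F5^2 - (187/125)*F4^2 - (246/25)*F4*F5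

def D77 (s F4 F5 : ℝ) : ℝ :=
    - (918/125)*s^2*F5^2 + (306/125)*s*F4^2 + (7344/125)*s*F4*F5 - (306/125)*s*F5^2 -
    (561/25)*F4^2 + (2142/125)*F4*F5

/-- the part of order at least two of `W - E`, divided by `e²` -/
def Rv (e c s F0 F1 F2 F3 F4 F5 mu al b b1 A A1 C C1 g g1 g2 k k1 k2 : ℝ) : ℝ :=
  D20 s b A A1 C g g1 g2 k F0 F1 F2 F4 F5 mu al
    + c^2 * D22 s b A A1 C C1 g g1 g2 k k1 k2 F0 F1 F2 F3 F4 F5 mu al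
    + e * c * D31 s A C g g1 g2 k k1 k2 F0 F1 F2 F3 F4 F5 al
    + e * c^3 * D33 s C g g1 g2 k k1 k2 F0 F1 F2 F3 F4 F5 al
    + e^2 * D40 s g g1 g2 k F0 F1 F2 F4 F5
    + e^2 * c^2 * D42 s g g1 g2 k k1 k2 F0 F1 F2 F3 F4 F5
    + e^2 * c^4 * D44 s g g1 g2 k k1 k2 F0 F1 F2 F3 F4 F5
    + e^3 * c * D51 s k k1 k2 F0 F1 F2 F3 F4 F5
    + e^3 * c^3 * D53 s k k1 k2 F0 F1 F2 F3 F4 F5
    + e^3 * c^5 * D55 s k k1 k2 F0 F1 F2 F3 F4 F5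
    + e^4 * D60 s F2 F4 F5
    + e^4 * c^2 * D62 s F2 F3 F4 F5
    + e^4 * c^4 * D64 s F2 F3 F4 F5
    + e^4 * c^6 * D66 s F2 F3 F4 F5
    + e^5 * c * D71 s F4 F5
    + e^5 * c^3 * D73 s F4 F5
    + e^5 * c^5 * D75 s F4 F5
    + e^5 * c^7 * D77 s F4 F5

theorem expand (e c s F0 F1 F2 F3 F4 F5 mu al b b1 A A1 C C1 g g1 g2 k k1 k2 : ℝ) :
    Wv e c s mu al b b1 A A1 C C1 - Ev e c s F0 F1 F2 F3 F4 F5 g g1 g2 k k1 k2 =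
      D00 s F0 F1 mu b b1 g g1 g2 + e * c * D11 s F0 F1 F2 F3 mu al b b1 A A1 C C1 g g1 g2 k k1 k2
        + e^2 * Rv e c s F0 F1 F2 F3 F4 F5 mu al b b1 A A1 C C1 g g1 g2 k k1 k2 := by
  unfold Wv Ev D00 D11 Rv psiv psis psic hv hs hc hss hsc hcc D20 D22 D31 D33 D40 D42 D44 D51 D53 D55 D60 D62 D64 D66 D71 D73 D75 D77
  ring

end Pool.Agent.Lib.MPeb.ND
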