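import Mathlib

set_option autoImplicit false

/-!
# Near disk family, orders 0 and 1 (pure algebra)

Half coordinates, `s = x² + y²`, `χ = x² - y²`.  `F n` : Bessel-Clifford functions at `s`, `K n` : the same at
`κ s`.  `b, A, C, g, k` : the radial functions `b, a₁, a₂, h₀, h₁` of the near disk family.
-/

namespace Pool.Agent.Lib.MPeb.ND

/-- order zero part of `W - E` -/
def D00 (s F0 F1 mu b b1 g g1 g2 : ℝ) : ℝ :=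
  - 4*s^2*b1^2 + 4*s*b^2*mu - 4*s*b*b1 - 12*s*g*F1^2 + 12*s*g1*F0*F1 - 2*s*g2*F0^2 - 2*b^2
    + 4*g*F0^2 - 2*g1*F0^2

/-- order one part of `W - E`, divided by `χ` -/
def D11 (s F0 F1 F2 F3 mu al b b1 A A1 C C1 g g1 g2 k k1 k2 : ℝ) : ℝ :=
  - 8*s^2*b1*C1 + 8*s*b*C*mu - 4*s*b*C1 - 8*s*b1*A1 - 12*s*b1*C - 24*s*g*F1*F3
    + 12*s*g1*F0*F3 + 12*s*g1*F1*F2 - 4*s*g2*F0*F2 - 12*s*k*F1^2 + 12*s*k1*F0*F1
    - 2*s*k2*F0^2 + b^2*al + 8*b*A*mu - 4*b*A1 - 8*b*C - 4*b1*A + 8*g*F0*F2 + 24*g*F1*F2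
    - 16*g1*F0*F2 + 4*k*F0^2 + 12*k*F0*F1 - 6*k1*F0^2

/-- the equation of `b` -/
theorem ode_b {s F0 F1 F2 K1 K2 K3 ka b b1 b2 : ℝ} (r0 : F0 = F1 - s * F2)
    (q1 : K1 = 2 * K2 - ka * s * K3)
    (hb : F0 * b = K1) (hb1 : F0 * b1 - F1 * b = - ka * K2)
    (hb2 : F0 * b2 - 2 * F1 * b1 + F2 * b = ka ^ 2 * K3) :
    F0 * (2 * b1 + s * b2 + (ka - 1) * b) = F1 * (b + 2 * s * b1) := by
  linear_combination 2 * hb1 + s * hb2 + ka * hb - b * r0 + ka * q1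

/-- the first equation of `A`, `C` -/
theorem ode_A {s s0 F0 F1 F2 K0 K1 K2 K3 K4 ka b A A1 A2 C : ℝ}
    (r0 : F0 = F1 - s * F2)
    (q0 : K0 = K1 - ka * s * K2) (q1 : K1 = 2 * K2 - ka * s * K3) (q2 : K2 = 3 * K3 - ka * s * K4)
    (hb : F0 * b = K1)
    (hA : F0 * A = (1 / (2 * s0) + ka / 2 - 1) * K1 - K0 / (2 * s0) - ka / 2 * K2)
    (hA1 : F0 * A1 - F1 * A = - ka * (1 / (2 * s0) + ka / 2 - 1) * K2 + ka * K1 / (2 * s0)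
      + ka ^ 2 / 2 * K3)
    (hA2 : F0 * A2 - 2 * F1 * A1 + F2 * A = ka ^ 2 * (1 / (2 * s0) + ka / 2 - 1) * K3
      - ka ^ 2 * K2 / (2 * s0) - ka ^ 3 / 2 * K4)
    (hC : F0 * C = ka ^ 2 / 2 * K3 - b * F2) :
    F0 * (8 * A1 + 4 * s * A2 + 4 * C + 4 * (ka - 1) * A) - 4 * F1 * (A + 2 * s * A1)
      + 4 * F2 * b - (2 * ka / s0) * (F0 * b) = 0 := by
  linear_combination 8 * hA1 + 4 * s * hA2 + 4 * hC + 4 * ka * hA - (2 * ka / s0) * hb - 4 * A * r0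
    + 4 * ka * (1 / (2 * s0) + ka / 2 - 1) * q1 - (2 * ka / s0) * q0 - 2 * ka ^ 2 * q2

/-- the second equation of `C` -/
theorem ode_C {s F0 F1 F2 F3 F4 K3 K4 K5 ka b b1 b2 C C1 C2 : ℝ}
    (r0 : F0 = F1 - s * F2) (r2 : F2 = 3 * F3 - s * F4)
    (q3 : K3 = 4 * K4 - ka * s * K5)
    (hode : F0 * (2 * b1 + s * b2 + (ka - 1) * b) = F1 * (b + 2 * s * b1))
    (hC : F0 * C = ka ^ 2 / 2 * K3 - b * F2)
    (hC1 : F0 * C1 - F1 * C = - ka ^ 3 / 2 * K4 - b1 * F2 + b * F3)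
    (hC2 : F0 * C2 - 2 * F1 * C1 + F2 * C = ka ^ 4 / 2 * K5 - b2 * F2 + 2 * b1 * F3 - b * F4) :
    F0 ^ 2 * (16 * C1 + 4 * s * C2 + 4 * (ka - 1) * C) - 4 * F0 * F1 * (3 * C + 2 * s * C1)
      + 8 * F0 * F2 * b1 + 4 * (b + 2 * s * b1) * (F1 * F2 - F0 * F3) = 0 := by
  linear_combination F0 * (16 * hC1 + 4 * s * hC2 + 4 * ka * hC) - 4 * F0 * C * r0
    + 2 * ka ^ 3 * F0 * q3 - 4 * F2 * hode - 4 * F0 * b * r2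

theorem D00_zero {s F0 F1 F2 mu ka b b1 b2 g g1 g2 : ℝ} (hF0 : F0 ≠ 0) (hmu : mu = ka - 1)
    (r0 : F0 = F1 - s * F2)
    (hode : F0 * (2 * b1 + s * b2 + (ka - 1) * b) = F1 * (b + 2 * s * b1))
    (hg1 : F0 ^ 2 * g1 - 2 * F0 * F1 * g = - (b ^ 2 + 2 * s * b * b1))
    (hg2 : F0 ^ 2 * g2 - 4 * F0 * F1 * g1 + 2 * (F1 ^ 2 + F0 * F2) * g =
      - (4 * b * b1 + 2 * s * b1 ^ 2 + 2 * s * b * b2)) :
    D00 s F0 F1 mu b b1 g g1 g2 = 0 := by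
  subst hmu
  have h : F0 * D00 s F0 F1 (ka - 1) b b1 g g1 g2 = 0 := by
    unfold D00
    linear_combination 4 * s * b * hode - 2 * s * F0 * hg2 + (-2 * F0 + 4 * s * F1) * hg1
      + 4 * F0 ^ 2 * g * r0
  exact (mul_eq_zero.mp h).resolve_left hF0

theorem D11_zero {s s0 F0 F1 F2 F3 F4 mu ka al b b1 b2 A A1 A2 C C1 C2 g g1 g2 k k1 k2 : ℝ}
    (hF0 : F0 ≠ 0) (hmu : mu = ka - 1) (hal : al = - (2 * ka / s0))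
    (r0 : F0 = F1 - s * F2) (r2 : F2 = 3 * F3 - s * F4)
    (hode : F0 * (2 * b1 + s * b2 + (ka - 1) * b) = F1 * (b + 2 * s * b1))
    (hodeA : F0 * (8 * A1 + 4 * s * A2 + 4 * C + 4 * (ka - 1) * A) - 4 * F1 * (A + 2 * s * A1)
      + 4 * F2 * b - (2 * ka / s0) * (F0 * b) = 0)
    (hodeC : F0 ^ 2 * (16 * C1 + 4 * s * C2 + 4 * (ka - 1) * C) - 4 * F0 * F1 * (3 * C + 2 * s * C1)
      + 8 * F0 * F2 * b1 + 4 * (b + 2 * s * b1) * (F1 * F2 - F0 * F3) = 0)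
    (hg1 : F0 ^ 2 * g1 - 2 * F0 * F1 * g = - (b ^ 2 + 2 * s * b * b1))
    (hk0 : F0 ^ 2 * k + 2 * F0 * F2 * g = - 2 * b * (A + s * C))
    (hk1 : F0 ^ 2 * k1 - 2 * F0 * F1 * k + 2 * F0 * F2 * g1 - 2 * (F1 * F2 + F0 * F3) * g =
      - 2 * b1 * (A + s * C) - 2 * b * (A1 + C + s * C1))
    (hk2 : F0 ^ 2 * k2 - 4 * F0 * F1 * k1 + 2 * (F1 ^ 2 + F0 * F2) * k + 2 * F0 * F2 * g2
      - 4 * (F1 * F2 + F0 * F3) * g1 + 2 * (F2 ^ 2 + 2 * F1 * F3 + F0 * F4) * g =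
      - 2 * b2 * (A + s * C) - 4 * b1 * (A1 + C + s * C1) - 2 * b * (A2 + 2 * C1 + s * C2)) :
    D11 s F0 F1 F2 F3 mu al b b1 A A1 C C1 g g1 g2 k k1 k2 = 0 := by
  subst hmu hal
  have h : F0 ^ 2 * D11 s F0 F1 F2 F3 (ka - 1) (- (2 * ka / s0)) b b1 A A1 C C1 g g1 g2 k k1 k2 = 0 := by
    unfold D11
    linear_combination (-2) * s * F0 ^ 2 * hk2 - (6 * F0 ^ 2 - 4 * s * F0 * F1) * hk1
      + 4 * F0 * F1 * hk0 - 4 * (F0 * (F2 - s * F3) + s * F1 * F2) * hg1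
      + b * F0 * hodeA + s * b * hodeC + 4 * F0 * (A + s * C) * hode
      + (4 * F0 ^ 3 * k + 4 * F0 ^ 2 * g * F2) * r0 + 4 * F0 ^ 3 * g * r2
  exact (mul_eq_zero.mp h).resolve_left (pow_ne_zero 2 hF0)

end Pool.Agent.Lib.MPeb.ND
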