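import Pool.Agent.Lib.MP_eb7570_an.ND.Fun
import Pool.Agent.Lib.MP_eb7570_an.Bes.Data
import Pool.Agent.Lib.MP_eb7570_an.Pos.Model

/-!
# Near disk family: base models for the kernel evaluation of expressions

Box variables `x, t, z` in the unit interval: `s = lo + d x`, `c = s (2 t - 1)`, `e = 3 z / 10`.
-/

set_option autoImplicit false

namespace Pool.Agent.PPW.ND

open Pool.Agent.Lib.MP_eb7570_an.Pos (NP Md Ex EnvOk inBox eval evalL const)
open Pool.Agent.PPW.Bes (F s0 s1 kap2)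

/-- composition with `lo + d x` -/
def compQ (lo d : ℚ) : List ℚ → List ℚ
  | [] => []
  | c :: l => TM.addL (c :: TM.smulL d (compQ lo d l)) (TM.smulL lo (compQ lo d l))

theorem evL_addL (p q : List ℚ) (x : ℝ) :
    TM.evL (TM.addL p q) x = TM.evL p x + TM.evL q x := by
  induction p generalizing q with
  | nil => simp [TM.addL, TM.evL]
  | cons a p ih =>
    cases q with
    | nil => simp [TM.addL, TM.evL]
    | cons b q =>
      simp only [TM.addL, TM.evL, ih]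
      push_cast
      ring

theorem evL_smulL (t : ℚ) (p : List ℚ) (x : ℝ) :
    TM.evL (TM.smulL t p) x = t * TM.evL p x := by
  induction p with
  | nil => simp [TM.smulL, TM.evL]
  | cons a p ih =>
    have h : TM.smulL t (a :: p) = (t * a) :: TM.smulL t p := rfl
    rw [h]
    simp only [TM.evL, ih]
    push_cast
    ring

theorem evL_compQ (lo d : ℚ) (l : List ℚ) (x : ℝ) :
    TM.evL (compQ lo d l) x = TM.evL l (lo + d * x) := by
  induction l with
  | nil => rfl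
  | cons c l ih =>
    simp only [compQ, evL_addL, TM.evL, evL_smulL, ih]
    ring

/-- `ℓ¹` norm -/
def sumZ : List ℤ → ℚ
  | [] => 0
  | p :: P => |(p : ℚ)| + sumZ P

/-- `ℓ¹` distance of `N l` and `P` -/
def diffQ (N : ℚ) : List ℚ → List ℤ → ℚ
  | [], P => sumZ P
  | q :: l, P => |N * q - (P.headD 0 : ℤ)| + diffQ N l P.tail

theorem abs_step {a b x A B : ℝ} (hx : 0 ≤ x) (hx1 : x ≤ 1) (h1 : |a| ≤ A) (h2 : |b| ≤ B) :
    |a + x * b| ≤ A + B := by
  refine (abs_add_le _ _).trans (add_le_add h1 ?_)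
  rw [abs_mul, abs_of_nonneg hx]
  calc x * |b| ≤ 1 * |b| := mul_le_mul_of_nonneg_right hx1 (abs_nonneg _)
    _ ≤ B := by rw [one_mul]; exact h2

theorem evalZ_split (P : List ℤ) (x : ℝ) : evalL (fun c : ℤ => (c : ℝ)) x P =
    ((P.headD 0 : ℤ) : ℝ) + x * evalL (fun c : ℤ => (c : ℝ)) x P.tail := by
  cases P with
  | nil => simp [evalL]
  | cons p P => rfl

theorem sumZ_le (P : List ℤ) (x : ℝ) (hx : 0 ≤ x) (hx1 : x ≤ 1) :
    |evalL (fun c : ℤ => (c : ℝ)) x P| ≤ ((sumZ P : ℚ) : ℝ) := by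
  induction P with
  | nil => simp [sumZ, evalL]
  | cons p P ih =>
    simp only [sumZ, evalL]
    push_cast
    exact abs_step hx hx1 le_rfl ih

theorem diffQ_le (N : ℚ) (l : List ℚ) (P : List ℤ) (x : ℝ) (hx : 0 ≤ x) (hx1 : x ≤ 1) :
    |(N : ℝ) * TM.evL l x - evalL (fun c : ℤ => (c : ℝ)) x P| ≤ ((diffQ N l P : ℚ) : ℝ) := by
  induction l generalizing P with
  | nil =>
    simp only [diffQ, TM.evL]
    rw [mul_zero, zero_sub, abs_neg]
    exact sumZ_le P x hx hx1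
  | cons q l ih =>
    rw [evalZ_split]
    simp only [diffQ, TM.evL]
    have e : (N : ℝ) * ((q : ℝ) + x * TM.evL l x) -
        (((P.headD 0 : ℤ) : ℝ) + x * evalL (fun c : ℤ => (c : ℝ)) x P.tail) =
        ((N : ℝ) * q - ((P.headD 0 : ℤ) : ℝ)) + x * ((N : ℝ) * TM.evL l x -
          evalL (fun c : ℤ => (c : ℝ)) x P.tail) := by ring
    rw [e]
    push_cast
    exact abs_step hx hx1 le_rfl (ih P.tail)

/-- univariate polynomials as polynomials in three variables -/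
def up (P : List ℤ) : NP 3 := (P.map (fun c => const c 2) : List (NP 2))

theorem eval_up (P : List ℤ) (x t z : ℝ) :
    eval 3 (up P) [x, t, z] = evalL (fun c : ℤ => (c : ℝ)) x P := by
  change evalL (fun c => eval 2 c [t, z]) x (P.map (fun c => const c 2)) = _
  rw [Pool.Agent.Lib.MP_eb7570_an.Pos.evalL_map]
  simp only [Pool.Agent.Lib.MP_eb7570_an.Pos.eval_const]

/-- check of a base model -/
def ckB (l : List ℚ) (ε lo d : ℚ) (M : ℕ) (P : List ℤ) (er : ℕ) : Bool :=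
  decide (0 ≤ lo) && (decide (0 ≤ d) && (decide (lo + d ≤ 2) &&
    decide (diffQ M (compQ lo d l) P + M * ε ≤ er)))

theorem base_ok {a : PowerSeries ℝ} {l : List ℚ} {ε : ℚ} (h : TM.TM 2 a l ε) {lo d : ℚ} {M : ℕ}
    {P : List ℤ} {er : ℕ} (ck : ckB l ε lo d M P er = true) {x t z : ℝ} (hx : 0 ≤ x)
    (hx1 : x ≤ 1) : Md.Ok M ⟨1, up P, er⟩ [x, t, z] (TM.ev a (lo + d * x)) := by
  simp only [ckB, Bool.and_eq_true, decide_eq_true_eq] at ck
  obtain ⟨h0, h1, h2, h3⟩ := ck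
  have h0' : (0 : ℝ) ≤ lo := by exact_mod_cast h0
  have h1' : (0 : ℝ) ≤ d := by exact_mod_cast h1
  have h2' : (lo : ℝ) + d ≤ 2 := by exact_mod_cast h2
  have h3' : ((diffQ M (compQ lo d l) P : ℚ) : ℝ) + M * ε ≤ er := by exact_mod_cast h3
  have hs : |(lo : ℝ) + d * x| ≤ 2 := by
    have h4 : d * x ≤ (d : ℝ) := by nlinarith
    have h5 : (0 : ℝ) ≤ lo + d * x := by positivity
    rw [abs_of_nonneg h5]
    linarith
  have h6 := h.abs_ev_sub_le (by norm_num) hs
  have h7 := diffQ_le M (compQ lo d l) P x hx hx1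
  rw [evL_compQ] at h7
  simp only [Md.Ok, pow_one, eval_up]
  have hM : (0 : ℝ) ≤ M := by positivity
  have e : (M : ℝ) * TM.ev a (lo + d * x) - evalL (fun c : ℤ => (c : ℝ)) x P =
      M * (TM.ev a (lo + d * x) - TM.evL l (lo + d * x)) +
      (M * TM.evL l (lo + d * x) - evalL (fun c : ℤ => (c : ℝ)) x P) := by ring
  rw [e]
  have h8 : |(M : ℝ) * (TM.ev a (lo + d * x) - TM.evL l (lo + d * x))| ≤ M * ε := by
    rw [abs_mul, abs_of_nonneg hM]
    exact mul_le_mul_of_nonneg_left h6 hM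
  have h9 : ((M : ℚ) : ℝ) = (M : ℝ) := by push_cast; rfl
  rw [h9] at h7
  refine (abs_add_le _ _).trans ?_
  linarith

/-- a real constant -/
theorem const_ok {M : ℕ} {k : ℤ} {er : ℕ} {r : ℝ} {xs : List ℝ} (h : |(M : ℝ) * r - k| ≤ er) :
    Md.Ok M ⟨1, const k 3, er⟩ xs r := by
  simp only [Md.Ok, pow_one, Pool.Agent.Lib.MP_eb7570_an.Pos.eval_const]
  exact h

/-- the models of `s`, `c`, `e` at resolution `M = 10 ^ 6`; `lo`, `d` in units `10 ^ (-6)` -/
def mdS (lo d : ℤ) : Md 3 := ⟨1, ([[[lo]], [[d]]] : List (List (List ℤ))), 0⟩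
def mdC (lo d : ℤ) : Md 3 :=
  ⟨1, ([[[-lo], [2 * lo]], [[-d], [2 * d]]] : List (List (List ℤ))), 0⟩
def mdE : Md 3 := ⟨1, ([[[0, 300000]]] : List (List (List ℤ))), 0⟩

theorem mdS_ok (lo d : ℤ) (x t z : ℝ) :
    Md.Ok 1000000 (mdS lo d) [x, t, z] (lo / 1000000 + d / 1000000 * x) := by
  have e : eval 3 (mdS lo d).P [x, t, z] = lo + d * x := by
    simp [mdS, eval, evalL]
    ring
  simp only [Md.Ok]
  rw [e]
  simp only [mdS, pow_one]
  push_cast
  rw [show (1000000 : ℝ) * (lo / 1000000 + d / 1000000 * x) - (lo + d * x) = 0 by ring]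
  simp

theorem mdC_ok (lo d : ℤ) (x t z : ℝ) :
    Md.Ok 1000000 (mdC lo d) [x, t, z]
      ((lo / 1000000 + d / 1000000 * x) * (2 * t - 1)) := by
  have e : eval 3 (mdC lo d).P [x, t, z] = (lo + d * x) * (2 * t - 1) := by
    simp [mdC, eval, evalL]
    ring
  simp only [Md.Ok]
  rw [e]
  simp only [mdC, pow_one]
  push_cast
  rw [show (1000000 : ℝ) * ((lo / 1000000 + d / 1000000 * x) * (2 * t - 1)) -
    (lo + d * x) * (2 * t - 1) = 0 by ring]
  simp

theorem mdE_ok (x t z : ℝ) : Md.Ok 1000000 mdE [x, t, z] (3 / 10 * z) := by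
  have e : eval 3 mdE.P [x, t, z] = 300000 * z := by
    simp [mdE, eval, evalL]
    ring
  simp only [Md.Ok]
  rw [e]
  simp only [mdE, pow_one]
  push_cast
  rw [show (1000000 : ℝ) * (3 / 10 * z) - 300000 * z = 0 by ring]
  simp

/-- box coordinates -/
theorem exists_box {lo d e c s : ℝ} (he : 0 ≤ e) (he1 : e ≤ 3 / 10) (hs : lo ≤ s)
    (hs1 : s ≤ lo + d) (h0 : 0 ≤ s) (hc : |c| ≤ s) (hd : 0 ≤ d) :
    ∃ x t z : ℝ, inBox [x, t, z] ∧ s = lo + d * x ∧ c = s * (2 * t - 1) ∧ e = 3 / 10 * z := by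
  have hx : ∃ x : ℝ, 0 ≤ x ∧ x ≤ 1 ∧ s = lo + d * x := by
    rcases hd.eq_or_lt with h | h
    · refine ⟨0, le_rfl, zero_le_one, ?_⟩
      rw [← h] at hs1 ⊢
      linarith
    · refine ⟨(s - lo) / d, div_nonneg (by linarith) hd, ?_, ?_⟩
      · rw [div_le_one h]; linarith
      · field_simp
        ring
  have ht : ∃ t : ℝ, 0 ≤ t ∧ t ≤ 1 ∧ c = s * (2 * t - 1) := by
    rcases h0.eq_or_lt with h | h
    · refine ⟨0, le_rfl, zero_le_one, ?_⟩
      rw [← h] at hc ⊢
      have := abs_nonpos_iff.1 hc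
      rw [this]
      ring
    · rw [abs_le] at hc
      refine ⟨(1 + c / s) / 2, ?_, ?_, ?_⟩
      · have : -1 ≤ c / s := by rw [le_div_iff₀ h]; linarith
        linarith
      · have : c / s ≤ 1 := by rw [div_le_iff₀ h]; linarith
        linarith
      · field_simp
        ring
  obtain ⟨x, hx0, hx1, hx2⟩ := hx
  obtain ⟨t, ht0, ht1, ht2⟩ := ht
  refine ⟨x, t, e / (3 / 10), ?_, hx2, ht2, ?_⟩
  · intro y hy
    simp only [List.mem_cons, List.not_mem_nil, or_false] at hy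
    rcases hy with rfl | rfl | rfl
    · exact ⟨hx0, hx1⟩
    · exact ⟨ht0, ht1⟩
    · constructor
      · positivity
      · rw [div_le_one (by norm_num)]; exact he1
  · ring

end Pool.Agent.PPW.ND
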