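import Pool.Agent.Lib.MP_eb7570_an.ND.Pair

set_option autoImplicit false

/-!
MP_eb7570_an, near disk part: the pair at `e = 0` is equivariant under rotations.
-/

open Set

namespace Pool.Agent.PPW.ND

theorem norm_rot {a b : ℝ} (h : a ^ 2 + b ^ 2 = 1) (x : E2) : ‖rot a b x‖ = ‖x‖ := by
  have h1 : ‖rot a b x‖ ^ 2 = ‖x‖ ^ 2 := by
    rw [EuclideanSpace.norm_sq_eq, EuclideanSpace.norm_sq_eq]
    simp only [Fin.sum_univ_two, Real.norm_eq_abs, sq_abs, rot, PiLp.toLp_apply,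
      Matrix.cons_val_zero, Matrix.cons_val_one]
    linear_combination (x 0 ^ 2 + x 1 ^ 2) * h
  exact (sq_eq_sq₀ (norm_nonneg _) (norm_nonneg _)).1 h1

theorem rot_smul (a b t : ℝ) (x : E2) : rot a b (t • x) = t • rot a b x := by
  ext i
  fin_cases i <;> simp [rot] <;> ring

theorem cl_rot {a b : ℝ} (h : a ^ 2 + b ^ 2 = 1) (r : ℝ) (x : E2) :
    cl r (rot a b x) = rot a b (cl r x) := by
  unfold cl
  rw [norm_rot h, rot_smul]

theorem sx_rot {a b : ℝ} (h : a ^ 2 + b ^ 2 = 1) (x : E2) : sx (rot a b x) = sx x := by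
  rw [sx_eq, sx_eq, norm_rot h]

theorem equi_ND' : Equi (Q1 0) (Q2 0) := by
  intro a b h x
  have e0 : ∀ c s : ℝ, vA 0 c s = fb s := fun c s => by unfold vA; ring
  have e1 : ∀ c s : ℝ, vB 0 c s = fb s := fun c s => by unfold vB; ring
  unfold Q1 Q2
  rw [cl_rot h]
  generalize cl r1 x = y
  unfold q1 q2
  simp only [e0, e1, sx_rot h]
  constructor
  · simp only [rot, PiLp.toLp_apply, Matrix.cons_val_zero]
    ring
  · simp only [rot, PiLp.toLp_apply, Matrix.cons_val_one, Matrix.cons_val_fin_one]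
    ring

end Pool.Agent.PPW.ND
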