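import Pool.Agent.Lib.MP_eb7570_an.ND.Expand
import Pool.Agent.Lib.MP_eb7570_an.Bes.Fun

set_option autoImplicit false

/-!
# Near disk family: the radial functions and the numbers needed

`s = |x|² / 4`, `c = (x₀² - x₁²) / 4`, `e ∈ [0, 3/10]`, clamp at `s = S1 = 729/400` (`|x| = 27/10`).
-/

namespace Pool.Agent.PPW.ND

open Pool.Agent.Lib.MPeb.ND
open Pool.Agent.PPW.Bes (F s0 s1 kap2)

noncomputable section

/-- the radial functions `b, a₁, a₂, h₀, h₁` and their derivatives -/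
def fb (s : ℝ) : ℝ := TM.ev TM.sb s
def fb1 (s : ℝ) : ℝ := TM.ev (TM.der TM.sb) s
def fA (s : ℝ) : ℝ := TM.ev TM.sa1 s
def fA1 (s : ℝ) : ℝ := TM.ev (TM.der TM.sa1) s
def fC (s : ℝ) : ℝ := TM.ev TM.sa2 s
def fC1 (s : ℝ) : ℝ := TM.ev (TM.der TM.sa2) s
def fg (s : ℝ) : ℝ := TM.ev TM.sh0 s
def fg1 (s : ℝ) : ℝ := TM.ev (TM.der TM.sh0) s
def fg2 (s : ℝ) : ℝ := TM.ev (TM.der (TM.der TM.sh0)) s
def fk (s : ℝ) : ℝ := TM.ev TM.sh1 s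
def fk1 (s : ℝ) : ℝ := TM.ev (TM.der TM.sh1) s
def fk2 (s : ℝ) : ℝ := TM.ev (TM.der (TM.der TM.sh1)) s

/-- `μ = κ² - 1`, `al = - 2 κ² / s₀` -/
def mu : ℝ := kap2 - 1
def al : ℝ := - (2 * kap2 / s0)

/-- radius parameter of the clamp -/
def S1 : ℝ := 729 / 400

def vpsi (e c s : ℝ) : ℝ := psiv e c s (F 0 s) (F 2 s) (F 4 s)
def vpsis (e c s : ℝ) : ℝ := psis e c s (F 1 s) (F 3 s) (F 4 s) (F 5 s)
def vpsic (e c s : ℝ) : ℝ := psic e c (F 2 s) (F 4 s)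
def vh (e c s : ℝ) : ℝ := hv e c s (fg s) (fk s)
def vhs (e c s : ℝ) : ℝ := hs e c s (fg1 s) (fk1 s)
def vhc (e c s : ℝ) : ℝ := hc e c s (fk s)
def vhss (e c s : ℝ) : ℝ := hss e c s (fg2 s) (fk2 s)
def vhsc (e c s : ℝ) : ℝ := hsc e c s (fk1 s)
def vhcc (e c s : ℝ) : ℝ := hcc e c s

/-- `Q₁ = x₀ vA`, `Q₂ = x₁ vB` -/
def vA (e c s : ℝ) : ℝ := fb s + e * (fA s + c * fC s)
def vB (e c s : ℝ) : ℝ := fb s + e * (c * fC s - fA s)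

def vW (e c s : ℝ) : ℝ := Wv e c s mu al (fb s) (fb1 s) (fA s) (fA1 s) (fC s) (fC1 s)
def vE (e c s : ℝ) : ℝ :=
  Ev e c s (F 0 s) (F 1 s) (F 2 s) (F 3 s) (F 4 s) (F 5 s) (fg s) (fg1 s) (fg2 s) (fk s) (fk1 s) (fk2 s)
def vR (e c s : ℝ) : ℝ :=
  Rv e c s (F 0 s) (F 1 s) (F 2 s) (F 3 s) (F 4 s) (F 5 s) mu al (fb s) (fb1 s) (fA s) (fA1 s) (fC s)
    (fC1 s) (fg s) (fg1 s) (fg2 s) (fk s) (fk1 s) (fk2 s)

/-- the form outside the clamp -/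
def vout (e c : ℝ) : ℝ :=
  2 * ((4 * mu + e * al) / 4) * (S1 + c) * vA e c S1 ^ 2
    + 2 * ((4 * mu - e * al) / 4) * (S1 - c) * vB e c S1 ^ 2
    - 1 / (2 * S1) * ((S1 - c) * (vA e c S1 + 2 * (S1 + c) * (e * fC S1)) ^ 2
      + (S1 + c) * (vB e c S1 - 2 * (S1 - c) * (e * fC S1)) ^ 2)

end

end Pool.Agent.PPW.ND
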