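/-
MP_eb7570_an (helper61): the second order remainder `R` of the near disk family is positive.
-/
import Pool.Agent.Lib.MP_eb7570_an.Bes.DEval
import Pool.Agent.Lib.MP_eb7570_an.ND.Fun
import Pool.Agent.Lib.MP_eb7570_an.Pos.Alg

set_option autoImplicit false
set_option linter.unusedSimpArgs false

namespace Pool.Agent.PPW.ND

open Pool.Agent.PPW.TM
open Pool.Agent.PPW.Bes (F s0 s1 kap2)
open Pool.Agent.Lib.MPeb.ND
open Pool.Agent.Lib.MP_eb7570_an.Pos (NP eval evalL chk chk_sound subst eval_subst var mul sub smul const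
  eval_var eval_mul eval_sub eval_smul eval_const Tree inBox nthD)

/-- integer polynomial evaluation -/
def evZ : List ℤ → ℝ → ℝ
  | [], _ => 0
  | c :: l, s => (c : ℝ) + s * evZ l s

theorem evL_L (d : ℕ) (l : List ℤ) (s : ℝ) : evL (L d l) s = evZ l s / d := by
  induction l with
  | nil => simp [L, evL, evZ]
  | cons c l ih =>
    unfold L at *
    simp only [List.map_cons, evL, evZ, ih]
    rw [Rat.mkRat_eq_div]
    push_cast
    ring

/-- the polynomial in `(10 e / 3, c / 2, s / 2)`, scaled by `10 ^ 14`, minus the error -/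
def pR : NP 3 := [[[608769800000, 3411682800000, -48780100000000, 306333284000000, -775078537600000, 1085090899200000, -792477587200000, 343368960000000, -98449152000000, 19950028800000, -3030937600000, 350822400000, -33996800000], [], [-109794604800000, 2048367608800000, -11306473523200000, 26553735481600000, -29098458304000000, 17739632217600000, -6790736640000000, 1773661644800000, -335192268800000, 47895552000000, -5345280000000, 480051200000, -34406400000]], [[], [-4240942320000, 133654477440000, -1317451116240000, 4694108743200000, -6800361628800000, 4981169134080000, -2171168478720000, 624706613760000, -127259612160000, 19305308160000, -2262896640000, 211599360000, -15974400000], [], [-457243312080000, 5678908497600000, -20350974760320000, 26570564945280000, -17762688898560000, 7193358750720000, -1950994944000000, 378806046720000, -55223746560000, 6262824960000, -568688640000, 42270720000]], [[0, 2106000000000, 1037999988000, 7919164368000,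 -55378526688000, 63354609216000, -42219439488000, 18962024832000, -5938988544000, 1329380352000, -220566528000, 28053504000], [], [-38886000012000, 161292450456000, -1150693778736000, 2745883056384000, -2727091832832000, 1561824084096000, -587457881856000, 155280950784000, -30163286016000, 4458866688000, -516132864000, 47849472000], [], [-144328480848000, 2730646773792000, -4781497763520000, 3533346168192000, -1482245268480000, 405108430848000, -78254014464000, 11277453312000, -1260859392000, 112656384000, -8257536000]], [[], [0, 2678400000000, -6181920000000, 25533564379200, -66616819718400, 92065802342400, -61143495321600, 23334149606400, -5808904243200, 1021828608000, -134513049600, 13702348800], [], [-1524240007200, -20090951251200, -103464778636800, 214976491430400, -256066789363200, 160619380531200, -59432802969600, 14469578035200, -2500313702400, 323868672000, -32580403200], [], [-33969952972800, -120065744620800, 299888245209600, -223605851443200,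 87933627648000, -21997119283200, 3856127385600, -503702323200, 51005030400]], [[0, 0, 0, 43200002160, 23121002880, 360982811520, -390362561280, 219694498560, -80875376640, 20719825920], [], [0, -531360000000, 95867997120, -1069451994240, -11633846071680, 13620206350080, -7193446755840, 2329925575680, -520106158080, 85273067520, -10709729280], [], [1132740002880, -979272011520, 38128123215360, -23870594142720, 4067410982400, 764919936000, -498468556800, 117800386560, -17723473920], [], [15697007988480, -49780742365440, 39683978058240, -15971758018560, 4021602048000, -704657387520, 91636531200, -9236643840]], [[], [0, 0, 0, 6641998704, -19272598272, 133213673088, -262634711040, 165354027264, -55222539264, 11820764160], [], [0, 13284001296, 31600800864, -259502398272, 784910062080, -156040245504, -114733822464, 67826626560, -17778548736], [], [-46764000864, 174363845184, -934408172160, -844959693312, 961090334208, -380093368320, 87694368768, -13801218048],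 [], [-1026691189632, 2356542740736, -1508163784704, 502378619904, -106713096192, 16003878912]]]

def tR : Tree := (Tree.S 1 7 (Tree.S 1 7 (Tree.S 0 15 Tree.L Tree.L) (Tree.S 0 15 Tree.L Tree.L)) (Tree.S 1 7 Tree.L (Tree.S 0 15 Tree.L Tree.L)))

def sR : NP 3 := subst 3 3 pR [var 3 2, mul 3 (var 3 0) (sub 3 (smul 2 3 (var 3 1)) (const 1 3)), var 3 0]

theorem chkR : chk 3 tR sR = true := by decide +kernel

theorem pR_nonneg {E G x : ℝ} (hE : 0 ≤ E) (hE1 : E ≤ 1) (hx : 0 ≤ x) (hx1 : x ≤ 1) (hG : |G| ≤ x) :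
    0 ≤ eval 3 pR [E, G, x] := by
  obtain ⟨y, hy0, hy1, hy⟩ : ∃ y : ℝ, 0 ≤ y ∧ y ≤ 1 ∧ G = x * (2 * y - 1) := by
    rcases eq_or_lt_of_le hx with h | h
    · refine ⟨0, le_rfl, zero_le_one, ?_⟩
      rw [← h] at hG ⊢
      have := abs_nonpos_iff.1 hG
      rw [this]; ring
    · refine ⟨(G / x + 1) / 2, ?_, ?_, ?_⟩
      · have := (abs_le.1 hG).1
        have : -1 ≤ G / x := by rw [le_div_iff₀ h]; linarith
        linarith
      · have := (abs_le.1 hG).2
        have : G / x ≤ 1 := by rw [div_le_iff₀ h]; linarith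
        linarith
      · field_simp
        ring
  have h := chk_sound 3 tR sR chkR [x, y, E] (by
    intro z hz
    simp only [List.mem_cons, List.not_mem_nil, or_false] at hz
    rcases hz with rfl | rfl | rfl
    · exact ⟨hx, hx1⟩
    · exact ⟨hy0, hy1⟩
    · exact ⟨hE, hE1⟩)
  unfold sR at h
  rw [eval_subst] at h
  simp only [List.map_cons, List.map_nil, eval_mul, eval_sub, eval_smul, eval_const] at h
  rw [eval_var 3 2 (by norm_num), eval_var 3 1 (by norm_num), eval_var 3 0 (by norm_num)] at h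
  simp only [nthD, List.tail_cons, List.headD_cons] at h
  rw [hy]
  push_cast at h
  exact h

def z_D20 : List ℤ := [7087698, 17058414, -121950250, 382916605, -484424086, 339090906, -123824623, 26825700, -3845670, 389649, -29599, 1713, -83]
theorem l_D20_eq : l_D20 = L 1000000000 z_D20 := rfl
def z_D22 : List ℤ := [-274486512, 2560459511, -7066545952, 8298042338, -4546634110, 1385908767, -265263150, 34641829, -3273362, 233865, -13050, 586, -21]
theorem l_D22_eq : l_D22 = L 1000000000 z_D22 := rfl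
def z_D31 : List ℤ := [-70682372, 1113787312, -5489379651, 9779393215, -7083710030, 2594358924, -565408458, 81342007, -8285131, 628428, -36831, 1722, -65]
theorem l_D31_eq : l_D31 = L 1000000000 z_D31 := rfl
def z_D33 : List ℤ := [-1905180467, 11831059370, -21198932042, 13838835909, -4625700234, 936635254, -127017900, 12330926, -898824, 50967, -2314, 86]
theorem l_D33_eq : l_D33 = L 1000000000 z_D33 := rfl
def z_D40 : List ℤ := [0, 117000000, 28833333, 109988394, -384573102, 219981282, -73297638, 16460091, -2577686, 288494, -23933, 1522]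
theorem l_D40_eq : l_D40 = L 1000000000 z_D40 := rfl
def z_D42 : List ℤ := [-1080166667, 2240172923, -7990929019, 9534316168, -4734534432, 1355750073, -254973039, 33698123, -3272926, 241909, -14001, 649]
theorem l_D42_eq : l_D42 = L 1000000000 z_D42 := rfl
def z_D44 : List ℤ := [-1002281117, 9481412409, -8301211395, 3067140771, -643335620, 87914156, -8491104, 611841, -34203, 1528, -56]
theorem l_D44_eq : l_D44 = L 1000000000 z_D44 := rfl
def z_D51 : List ℤ := [0, 248000000, -286200000, 591054731, -771028006, 532788208, -176919836, 33758897, -4202043, 369585, -24326, 1239]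
theorem l_D51_eq : l_D51 = L 1000000000 z_D51 := rfl
def z_D53 : List ℤ := [-70566667, -465068316, -1197509012, 1244076918, -740933997, 232377576, -42992479, 5233499, -452169, 29285, -1473]
theorem l_D53_eq : l_D53 = L 1000000000 z_D53 := rfl
def z_D55 : List ℤ := [-393170752, -694824911, 867732191, -323503836, 63609395, -7956134, 697361, -45546, 2306]
theorem l_D55_eq : l_D55 = L 1000000000 z_D55 := rfl
def z_D60 : List ℤ := [0, 0, 0, 6666667, 1784028, 13926806, -7530142, 2118967, -390024, 49961]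
theorem l_D60_eq : l_D60 = L 1000000000 z_D60 := rfl
def z_D62 : List ℤ := [0, -82000000, 7397222, -41259722, -224418327, 131367731, -34690619, 5618069, -627057, 51404, -3228]
theorem l_D62_eq : l_D62 = L 1000000000 z_D62 := rfl
def z_D64 : List ℤ := [87402778, -37780556, 735496204, -230233354, 19615215, 1844425, -600970, 71012, -5342]
theorem l_D64_eq : l_D64 = L 1000000000 z_D64 := rfl
def z_D66 : List ℤ := [302797222, -480138333, 191377209, -38512148, 4848575, -424779, 27620, -1392]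
theorem l_D66_eq : l_D66 = L 1000000000 z_D66 := rfl
def z_D71 : List ℤ := [0, 0, 0, 1708333, -2478472, 8565694, -8443760, 2658083, -443854, 47505]
theorem l_D71_eq : l_D71 = L 1000000000 z_D71 := rfl
def z_D73 : List ℤ := [0, 3416667, 4063889, -16686111, 25235020, -2508363, -922179, 272580, -35724]
theorem l_D73_eq : l_D73 = L 1000000000 z_D73 := rfl
def z_D75 : List ℤ := [-6013889, 11211667, -30041415, -13582814, 7724813, -1527510, 176212, -13866]
theorem l_D75_eq : l_D75 = L 1000000000 z_D75 := rfl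
def z_D77 : List ℤ := [-33008333, 37881667, -12121944, 2018947, -214428, 16079]
theorem l_D77_eq : l_D77 = L 1000000000 z_D77 := rfl

theorem eval_pR (e c s : ℝ) : eval 3 pR [10 / 3 * e, c / 2, s / 2]
    = 10 ^ 5 * (evZ z_D20 s
      + c ^ 2 * evZ z_D22 s
      + e * c * evZ z_D31 s
      + e * c ^ 3 * evZ z_D33 s
      + e ^ 2 * evZ z_D40 s
      + e ^ 2 * c ^ 2 * evZ z_D42 s
      + e ^ 2 * c ^ 4 * evZ z_D44 s
      + e ^ 3 * c * evZ z_D51 s
      + e ^ 3 * c ^ 3 * evZ z_D53 s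
      + e ^ 3 * c ^ 5 * evZ z_D55 s
      + e ^ 4 * evZ z_D60 s
      + e ^ 4 * c ^ 2 * evZ z_D62 s
      + e ^ 4 * c ^ 4 * evZ z_D64 s
      + e ^ 4 * c ^ 6 * evZ z_D66 s
      + e ^ 5 * c * evZ z_D71 s
      + e ^ 5 * c ^ 3 * evZ z_D73 s
      + e ^ 5 * c ^ 5 * evZ z_D75 s
      + e ^ 5 * c ^ 7 * evZ z_D77 s) - 10 ^ 11 := by
  unfold pR z_D20 z_D22 z_D31 z_D33 z_D40 z_D42 z_D44 z_D51 z_D53 z_D55 z_D60 z_D62 z_D64 z_D66 z_D71 z_D73 z_D75 z_D77
  simp only [eval, evalL, evZ, List.headD_cons, List.tail_cons]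
  push_cast
  ring

private theorem mono_bound {m w d l η : ℝ} (hm : |m| ≤ w) (hd : |d - l| ≤ η) :
    m * l - w * η ≤ m * d := by
  have h1 : |m * (d - l)| ≤ w * η := by
    rw [abs_mul]
    exact mul_le_mul hm hd (abs_nonneg _) ((abs_nonneg _).trans hm)
  have h2 := (abs_le.1 h1).1
  linarith

private theorem mono_abs {e c : ℝ} (he : 0 ≤ e) (he1 : e ≤ 3 / 10) (hc : |c| ≤ 2) (i j : ℕ) :
    |e ^ i * c ^ j| ≤ (3 / 10) ^ i * 2 ^ j := by
  rw [abs_mul, abs_pow, abs_pow, abs_of_nonneg he]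
  exact mul_le_mul (pow_le_pow_left₀ he he1 i) (pow_le_pow_left₀ (abs_nonneg c) hc j) (by positivity)
    (by positivity)

theorem vR_eq (e c s : ℝ) : vR e c s = e ^ 0 * c ^ 0 * D20 s (fb s) (fA s) (fA1 s) (fC s) (fg s) (fg1 s) (fg2 s) (fk s) (F 0 s) (F 1 s) (F 2 s) (F 4 s) (F 5 s) mu al
      + e ^ 0 * c ^ 2 * D22 s (fb s) (fA s) (fA1 s) (fC s) (fC1 s) (fg s) (fg1 s) (fg2 s) (fk s) (fk1 s) (fk2 s) (F 0 s) (F 1 s) (F 2 s) (F 3 s) (F 4 s) (F 5 s) mu al
      + e ^ 1 * c ^ 1 * D31 s (fA s) (fC s) (fg s) (fg1 s) (fg2 s) (fk s) (fk1 s) (fk2 s) (F 0 s) (F 1 s) (F 2 s) (F 3 s) (F 4 s) (F 5 s) al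
      + e ^ 1 * c ^ 3 * D33 s (fC s) (fg s) (fg1 s) (fg2 s) (fk s) (fk1 s) (fk2 s) (F 0 s) (F 1 s) (F 2 s) (F 3 s) (F 4 s) (F 5 s) al
      + e ^ 2 * c ^ 0 * D40 s (fg s) (fg1 s) (fg2 s) (fk s) (F 0 s) (F 1 s) (F 2 s) (F 4 s) (F 5 s)
      + e ^ 2 * c ^ 2 * D42 s (fg s) (fg1 s) (fg2 s) (fk s) (fk1 s) (fk2 s) (F 0 s) (F 1 s) (F 2 s) (F 3 s) (F 4 s) (F 5 s)
      + e ^ 2 * c ^ 4 * D44 s (fg s) (fg1 s) (fg2 s) (fk s) (fk1 s) (fk2 s) (F 0 s) (F 1 s) (F 2 s) (F 3 s) (F 4 s) (F 5 s)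
      + e ^ 3 * c ^ 1 * D51 s (fk s) (fk1 s) (fk2 s) (F 0 s) (F 1 s) (F 2 s) (F 3 s) (F 4 s) (F 5 s)
      + e ^ 3 * c ^ 3 * D53 s (fk s) (fk1 s) (fk2 s) (F 0 s) (F 1 s) (F 2 s) (F 3 s) (F 4 s) (F 5 s)
      + e ^ 3 * c ^ 5 * D55 s (fk s) (fk1 s) (fk2 s) (F 0 s) (F 1 s) (F 2 s) (F 3 s) (F 4 s) (F 5 s)
      + e ^ 4 * c ^ 0 * D60 s (F 2 s) (F 4 s) (F 5 s)
      + e ^ 4 * c ^ 2 * D62 s (F 2 s) (F 3 s) (F 4 s) (F 5 s)
      + e ^ 4 * c ^ 4 * D64 s (F 2 s) (F 3 s) (F 4 s) (F 5 s)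
      + e ^ 4 * c ^ 6 * D66 s (F 2 s) (F 3 s) (F 4 s) (F 5 s)
      + e ^ 5 * c ^ 1 * D71 s (F 4 s) (F 5 s)
      + e ^ 5 * c ^ 3 * D73 s (F 4 s) (F 5 s)
      + e ^ 5 * c ^ 5 * D75 s (F 4 s) (F 5 s)
      + e ^ 5 * c ^ 7 * D77 s (F 4 s) (F 5 s) := by
  unfold vR Rv
  ring

/-- positivity for all `0 ≤ s ≤ 2` -/
theorem pos_R2 {e c s : ℝ} (he : 0 ≤ e) (he1 : e ≤ 3 / 10) (hs : 0 ≤ s) (hs1 : s ≤ 2)
    (hc : |c| ≤ s) : 0 ≤ vR e c s := by
  have hs2 : |s| ≤ 2 := by rw [abs_of_nonneg hs]; exact hs1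
  have hc2 : |c| ≤ 2 := hc.trans hs1
  have key := pR_nonneg (E := 10 / 3 * e) (G := c / 2) (x := s / 2) (by positivity) (by linarith)
    (by linarith) (by linarith) (by rw [abs_div, abs_of_pos (by norm_num : (0:ℝ) < 2)]; linarith)
  rw [eval_pR] at key
  rw [vR_eq]
  have hD20 : e ^ 0 * c ^ 0 * (evZ z_D20 s / 1000000000) - (3 / 10) ^ 0 * 2 ^ 0 * (7 / 250000)
      ≤ e ^ 0 * c ^ 0 * D20 s (fb s) (fA s) (fA1 s) (fC s) (fg s) (fg1 s) (fg2 s) (fk s) (F 0 s) (F 1 s) (F 2 s) (F 4 s) (F 5 s) mu al := by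
    have h := app_D20 hs2
    rw [l_D20_eq, evL_L] at h
    push_cast at h
    exact mono_bound (mono_abs he he1 hc2 0 0) h
  have hD22 : e ^ 0 * c ^ 2 * (evZ z_D22 s / 1000000000) - (3 / 10) ^ 0 * 2 ^ 2 * (233 / 10000000)
      ≤ e ^ 0 * c ^ 2 * D22 s (fb s) (fA s) (fA1 s) (fC s) (fC1 s) (fg s) (fg1 s) (fg2 s) (fk s) (fk1 s) (fk2 s) (F 0 s) (F 1 s) (F 2 s) (F 3 s) (F 4 s) (F 5 s) mu al := by
    have h := app_D22 hs2
    rw [l_D22_eq, evL_L] at h
    push_cast at h
    exact mono_bound (mono_abs he he1 hc2 0 2) h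
  have hD31 : e ^ 1 * c ^ 1 * (evZ z_D31 s / 1000000000) - (3 / 10) ^ 1 * 2 ^ 1 * (247 / 10000000)
      ≤ e ^ 1 * c ^ 1 * D31 s (fA s) (fC s) (fg s) (fg1 s) (fg2 s) (fk s) (fk1 s) (fk2 s) (F 0 s) (F 1 s) (F 2 s) (F 3 s) (F 4 s) (F 5 s) al := by
    have h := app_D31 hs2
    rw [l_D31_eq, evL_L] at h
    push_cast at h
    exact mono_bound (mono_abs he he1 hc2 1 1) h
  have hD33 : e ^ 1 * c ^ 3 * (evZ z_D33 s / 1000000000) - (3 / 10) ^ 1 * 2 ^ 3 * (69 / 5000000)
      ≤ e ^ 1 * c ^ 3 * D33 s (fC s) (fg s) (fg1 s) (fg2 s) (fk s) (fk1 s) (fk2 s) (F 0 s) (F 1 s) (F 2 s) (F 3 s) (F 4 s) (F 5 s) al := by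
    have h := app_D33 hs2
    rw [l_D33_eq, evL_L] at h
    push_cast at h
    exact mono_bound (mono_abs he he1 hc2 1 3) h
  have hD40 : e ^ 2 * c ^ 0 * (evZ z_D40 s / 1000000000) - (3 / 10) ^ 2 * 2 ^ 0 * (337 / 1000000)
      ≤ e ^ 2 * c ^ 0 * D40 s (fg s) (fg1 s) (fg2 s) (fk s) (F 0 s) (F 1 s) (F 2 s) (F 4 s) (F 5 s) := by
    have h := app_D40 hs2
    rw [l_D40_eq, evL_L] at h
    push_cast at h
    exact mono_bound (mono_abs he he1 hc2 2 0) h
  have hD42 : e ^ 2 * c ^ 2 * (evZ z_D42 s / 1000000000) - (3 / 10) ^ 2 * 2 ^ 2 * (111 / 1000000)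
      ≤ e ^ 2 * c ^ 2 * D42 s (fg s) (fg1 s) (fg2 s) (fk s) (fk1 s) (fk2 s) (F 0 s) (F 1 s) (F 2 s) (F 3 s) (F 4 s) (F 5 s) := by
    have h := app_D42 hs2
    rw [l_D42_eq, evL_L] at h
    push_cast at h
    exact mono_bound (mono_abs he he1 hc2 2 2) h
  have hD44 : e ^ 2 * c ^ 4 * (evZ z_D44 s / 1000000000) - (3 / 10) ^ 2 * 2 ^ 4 * (481 / 100000000)
      ≤ e ^ 2 * c ^ 4 * D44 s (fg s) (fg1 s) (fg2 s) (fk s) (fk1 s) (fk2 s) (F 0 s) (F 1 s) (F 2 s) (F 3 s) (F 4 s) (F 5 s) := by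
    have h := app_D44 hs2
    rw [l_D44_eq, evL_L] at h
    push_cast at h
    exact mono_bound (mono_abs he he1 hc2 2 4) h
  have hD51 : e ^ 3 * c ^ 1 * (evZ z_D51 s / 1000000000) - (3 / 10) ^ 3 * 2 ^ 1 * (227 / 1000000)
      ≤ e ^ 3 * c ^ 1 * D51 s (fk s) (fk1 s) (fk2 s) (F 0 s) (F 1 s) (F 2 s) (F 3 s) (F 4 s) (F 5 s) := by
    have h := app_D51 hs2
    rw [l_D51_eq, evL_L] at h
    push_cast at h
    exact mono_bound (mono_abs he he1 hc2 3 1) h
  have hD53 : e ^ 3 * c ^ 3 * (evZ z_D53 s / 1000000000) - (3 / 10) ^ 3 * 2 ^ 3 * (133 / 1000000)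
      ≤ e ^ 3 * c ^ 3 * D53 s (fk s) (fk1 s) (fk2 s) (F 0 s) (F 1 s) (F 2 s) (F 3 s) (F 4 s) (F 5 s) := by
    have h := app_D53 hs2
    rw [l_D53_eq, evL_L] at h
    push_cast at h
    exact mono_bound (mono_abs he he1 hc2 3 3) h
  have hD55 : e ^ 3 * c ^ 5 * (evZ z_D55 s / 1000000000) - (3 / 10) ^ 3 * 2 ^ 5 * (259 / 5000000)
      ≤ e ^ 3 * c ^ 5 * D55 s (fk s) (fk1 s) (fk2 s) (F 0 s) (F 1 s) (F 2 s) (F 3 s) (F 4 s) (F 5 s) := by
    have h := app_D55 hs2
    rw [l_D55_eq, evL_L] at h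
    push_cast at h
    exact mono_bound (mono_abs he he1 hc2 3 5) h
  have hD60 : e ^ 4 * c ^ 0 * (evZ z_D60 s / 1000000000) - (3 / 10) ^ 4 * 2 ^ 0 * (549 / 100000)
      ≤ e ^ 4 * c ^ 0 * D60 s (F 2 s) (F 4 s) (F 5 s) := by
    have h := app_D60 hs2
    rw [l_D60_eq, evL_L] at h
    push_cast at h
    exact mono_bound (mono_abs he he1 hc2 4 0) h
  have hD62 : e ^ 4 * c ^ 2 * (evZ z_D62 s / 1000000000) - (3 / 10) ^ 4 * 2 ^ 2 * (357 / 1000000)
      ≤ e ^ 4 * c ^ 2 * D62 s (F 2 s) (F 3 s) (F 4 s) (F 5 s) := by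
    have h := app_D62 hs2
    rw [l_D62_eq, evL_L] at h
    push_cast at h
    exact mono_bound (mono_abs he he1 hc2 4 2) h
  have hD64 : e ^ 4 * c ^ 4 * (evZ z_D64 s / 1000000000) - (3 / 10) ^ 4 * 2 ^ 4 * (41 / 250000)
      ≤ e ^ 4 * c ^ 4 * D64 s (F 2 s) (F 3 s) (F 4 s) (F 5 s) := by
    have h := app_D64 hs2
    rw [l_D64_eq, evL_L] at h
    push_cast at h
    exact mono_bound (mono_abs he he1 hc2 4 4) h
  have hD66 : e ^ 4 * c ^ 6 * (evZ z_D66 s / 1000000000) - (3 / 10) ^ 4 * 2 ^ 6 * (31 / 2000000)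
      ≤ e ^ 4 * c ^ 6 * D66 s (F 2 s) (F 3 s) (F 4 s) (F 5 s) := by
    have h := app_D66 hs2
    rw [l_D66_eq, evL_L] at h
    push_cast at h
    exact mono_bound (mono_abs he he1 hc2 4 6) h
  have hD71 : e ^ 5 * c ^ 1 * (evZ z_D71 s / 1000000000) - (3 / 10) ^ 5 * 2 ^ 1 * (83 / 20000)
      ≤ e ^ 5 * c ^ 1 * D71 s (F 4 s) (F 5 s) := by
    have h := app_D71 hs2
    rw [l_D71_eq, evL_L] at h
    push_cast at h
    exact mono_bound (mono_abs he he1 hc2 5 1) h
  have hD73 : e ^ 5 * c ^ 3 * (evZ z_D73 s / 1000000000) - (3 / 10) ^ 5 * 2 ^ 3 * (87 / 50000)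
      ≤ e ^ 5 * c ^ 3 * D73 s (F 4 s) (F 5 s) := by
    have h := app_D73 hs2
    rw [l_D73_eq, evL_L] at h
    push_cast at h
    exact mono_bound (mono_abs he he1 hc2 5 3) h
  have hD75 : e ^ 5 * c ^ 5 * (evZ z_D75 s / 1000000000) - (3 / 10) ^ 5 * 2 ^ 5 * (227 / 1000000)
      ≤ e ^ 5 * c ^ 5 * D75 s (F 4 s) (F 5 s) := by
    have h := app_D75 hs2
    rw [l_D75_eq, evL_L] at h
    push_cast at h
    exact mono_bound (mono_abs he he1 hc2 5 5) h
  have hD77 : e ^ 5 * c ^ 7 * (evZ z_D77 s / 1000000000) - (3 / 10) ^ 5 * 2 ^ 7 * (127 / 2000000)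
      ≤ e ^ 5 * c ^ 7 * D77 s (F 4 s) (F 5 s) := by
    have h := app_D77 hs2
    rw [l_D77_eq, evL_L] at h
    push_cast at h
    exact mono_bound (mono_abs he he1 hc2 5 7) h
  simp only [pow_zero, pow_one, one_mul, mul_one] at *
  norm_num at *
  linarith

theorem S1_lt_two : S1 < 2 := by unfold S1; norm_num

end Pool.Agent.PPW.ND
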