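import Pool.Agent.Lib.MP_eb7570_an.ND.Base

/-!
# Near disk family: `W_ann`, `out_pos`, `A_ge`, `B_ge` by kernel evaluation (generated data)
-/

set_option autoImplicit false

namespace Pool.Agent.PPW.ND

open Pool.Agent.Lib.MP_eb7570_an.Pos (NP Md Ex EnvOk inBox eval evalL const Tree)
open Pool.Agent.PPW.Bes (F s0 s1 kap2 s0_pos)

theorem mu_app : |((1000000 : ℕ) : ℝ) * mu - ((1538734 : ℤ) : ℝ)| ≤ ((1 : ℕ) : ℝ) := by
  have h1 := TM.kap2_gt'
  have h2 := TM.kap2_lt'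
  unfold mu
  push_cast
  rw [abs_le]
  constructor <;> linarith

theorem al_app : |((1000000 : ℕ) : ℝ) * al - ((-3511883 : ℤ) : ℝ)| ≤ ((1 : ℕ) : ℝ) := by
  have h1 := TM.kap2_gt'
  have h2 := TM.kap2_lt'
  have h3 := TM.s0_app
  have h4 := s0_pos
  rw [abs_le] at h3
  push_cast at h3
  unfold al
  push_cast
  have h5 : 2 * kap2 / s0 ≤ 3511884 / 1000000 := by
    rw [div_le_iff₀ h4]
    linarith [h3.1]
  have h6 : 3511882 / 1000000 ≤ 2 * kap2 / s0 := by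
    rw [le_div_iff₀ h4]
    linarith [h3.2]
  rw [abs_le]
  constructor <;> linarith

def pFull_b : List ℤ := [1000000, -490921, 58892, -4715, -71, -53, -12, -3, -1]
def pFull_b1 : List ℤ := [-269367, 64628, -7762, -155, -146, -39, -11, -3, -1]
def pFull_A : List ℤ := [-365317, 489962, -123182, 10196, -671, -22, -9, -2]
def pFull_A1 : List ℤ := [268841, -135179, 16784, -1474, -60, -30, -8, -2, -1]
def pFull_C : List ℤ := [37098, -4446, 782, 91, 29, 8, 2, 1]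
def pFull_C1 : List ℤ := [-2439, 858, 149, 65, 21, 7, 2, 1]

def envFull : List (Md 3) :=
  [⟨1, up pFull_b, 3⟩,
   ⟨1, up pFull_b1, 2⟩,
   ⟨1, up pFull_A, 3⟩,
   ⟨1, up pFull_A1, 2⟩,
   ⟨1, up pFull_C, 3⟩,
   ⟨1, up pFull_C1, 3⟩,
   mdS 0 1822500,
   mdC 0 1822500,
   mdE,
   ⟨1, const 1538734 3, 1⟩,
   ⟨1, const (-3511883) 3, 1⟩]

theorem envFull_ok {x t z s c e : ℝ} (hb : inBox [x, t, z])
    (hs : s = ((0 : ℚ) : ℝ) + ((729/400 : ℚ) : ℝ) * x) (hc : c = s * (2 * t - 1))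
    (he : e = 3 / 10 * z) :
    EnvOk 1000000 envFull [fb s, fb1 s, fA s, fA1 s, fC s, fC1 s, s, c, e, mu, al] [x, t, z] := by
  have hx := hb x (by simp)
  have es : s = ((0 : ℤ) : ℝ) / 1000000 + ((1822500 : ℤ) : ℝ) / 1000000 * x := by
    rw [hs]; push_cast; ring
  refine .cons ?_ (.cons ?_ (.cons ?_ (.cons ?_ (.cons ?_ (.cons ?_ (.cons ?_ (.cons ?_ (.cons ?_
    (.cons ?_ (.cons ?_ .nil))))))))))
  · show Md.Ok _ _ _ (fb s)
    rw [hs]
    exact base_ok TM.tm_b_2 (lo := 0) (d := 729/400) (by decide +kernel) hx.1 hx.2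
  · show Md.Ok _ _ _ (fb1 s)
    rw [hs]
    exact base_ok TM.tm_b' (lo := 0) (d := 729/400) (by decide +kernel) hx.1 hx.2
  · show Md.Ok _ _ _ (fA s)
    rw [hs]
    exact base_ok TM.tm_a1_2 (lo := 0) (d := 729/400) (by decide +kernel) hx.1 hx.2
  · show Md.Ok _ _ _ (fA1 s)
    rw [hs]
    exact base_ok TM.tm_a1' (lo := 0) (d := 729/400) (by decide +kernel) hx.1 hx.2
  · show Md.Ok _ _ _ (fC s)
    rw [hs]
    exact base_ok TM.tm_a2_2 (lo := 0) (d := 729/400) (by decide +kernel) hx.1 hx.2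
  · show Md.Ok _ _ _ (fC1 s)
    rw [hs]
    exact base_ok TM.tm_a2' (lo := 0) (d := 729/400) (by decide +kernel) hx.1 hx.2
  · rw [es]
    exact mdS_ok _ _ x t z
  · rw [hc, es]
    exact mdC_ok _ _ x t z
  · rw [he]
    exact mdE_ok x t z
  · exact const_ok mu_app
  · exact const_ok al_app

def pAnn_b : List ℤ := [712475, -155848, 6757, -261, -6, -1]
def pAnn_b1 : List ℤ := [-231744, 20096, -1162, -38, -7, -1]
def pAnn_A : List ℤ := [-102744, 127669, -14374, 420, -15, -1]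
def pAnn_A1 : List ℤ := [189842, -42748, 1872, -90, -4, -1]
def pAnn_C : List ℤ := [34632, -1223, 143, 11, 1]
def pAnn_C1 : List ℤ := [-1818, 425, 47, 8, 1]

def envAnn : List (Md 3) :=
  [⟨1, up pAnn_b, 2⟩,
   ⟨1, up pAnn_b1, 1⟩,
   ⟨1, up pAnn_A, 2⟩,
   ⟨1, up pAnn_A1, 2⟩,
   ⟨1, up pAnn_C, 2⟩,
   ⟨1, up pAnn_C1, 1⟩,
   mdS 1150000 672500,
   mdC 1150000 672500,
   mdE,
   ⟨1, const 1538734 3, 1⟩,
   ⟨1, const (-3511883) 3, 1⟩]

theorem envAnn_ok {x t z s c e : ℝ} (hb : inBox [x, t, z])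
    (hs : s = ((23/20 : ℚ) : ℝ) + ((269/400 : ℚ) : ℝ) * x) (hc : c = s * (2 * t - 1))
    (he : e = 3 / 10 * z) :
    EnvOk 1000000 envAnn [fb s, fb1 s, fA s, fA1 s, fC s, fC1 s, s, c, e, mu, al] [x, t, z] := by
  have hx := hb x (by simp)
  have es : s = ((1150000 : ℤ) : ℝ) / 1000000 + ((672500 : ℤ) : ℝ) / 1000000 * x := by
    rw [hs]; push_cast; ring
  refine .cons ?_ (.cons ?_ (.cons ?_ (.cons ?_ (.cons ?_ (.cons ?_ (.cons ?_ (.cons ?_ (.cons ?_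
    (.cons ?_ (.cons ?_ .nil))))))))))
  · show Md.Ok _ _ _ (fb s)
    rw [hs]
    exact base_ok TM.tm_b_2 (lo := 23/20) (d := 269/400) (by decide +kernel) hx.1 hx.2
  · show Md.Ok _ _ _ (fb1 s)
    rw [hs]
    exact base_ok TM.tm_b' (lo := 23/20) (d := 269/400) (by decide +kernel) hx.1 hx.2
  · show Md.Ok _ _ _ (fA s)
    rw [hs]
    exact base_ok TM.tm_a1_2 (lo := 23/20) (d := 269/400) (by decide +kernel) hx.1 hx.2
  · show Md.Ok _ _ _ (fA1 s)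
    rw [hs]
    exact base_ok TM.tm_a1' (lo := 23/20) (d := 269/400) (by decide +kernel) hx.1 hx.2
  · show Md.Ok _ _ _ (fC s)
    rw [hs]
    exact base_ok TM.tm_a2_2 (lo := 23/20) (d := 269/400) (by decide +kernel) hx.1 hx.2
  · show Md.Ok _ _ _ (fC1 s)
    rw [hs]
    exact base_ok TM.tm_a2' (lo := 23/20) (d := 269/400) (by decide +kernel) hx.1 hx.2
  · rw [es]
    exact mdS_ok _ _ x t z
  · rw [hc, es]
    exact mdC_ok _ _ x t z
  · rw [he]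
    exact mdE_ok x t z
  · exact const_ok mu_app
  · exact const_ok al_app

def pOut_b : List ℤ := [563116]
def pOut_b1 : List ℤ := [-212856]
def pOut_A : List ℤ := [10955]
def pOut_A1 : List ℤ := [148871]
def pOut_C : List ℤ := [33565]
def pOut_C1 : List ℤ := [-1336]

def envOut : List (Md 3) :=
  [⟨1, up pOut_b, 1⟩,
   ⟨1, up pOut_b1, 1⟩,
   ⟨1, up pOut_A, 1⟩,
   ⟨1, up pOut_A1, 1⟩,
   ⟨1, up pOut_C, 1⟩,
   ⟨1, up pOut_C1, 1⟩,
   mdS 1822500 0,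
   mdC 1822500 0,
   mdE,
   ⟨1, const 1538734 3, 1⟩,
   ⟨1, const (-3511883) 3, 1⟩]

theorem envOut_ok {x t z s c e : ℝ} (hb : inBox [x, t, z])
    (hs : s = ((729/400 : ℚ) : ℝ) + ((0 : ℚ) : ℝ) * x) (hc : c = s * (2 * t - 1))
    (he : e = 3 / 10 * z) :
    EnvOk 1000000 envOut [fb s, fb1 s, fA s, fA1 s, fC s, fC1 s, s, c, e, mu, al] [x, t, z] := by
  have hx := hb x (by simp)
  have es : s = ((1822500 : ℤ) : ℝ) / 1000000 + ((0 : ℤ) : ℝ) / 1000000 * x := by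
    rw [hs]; push_cast; ring
  refine .cons ?_ (.cons ?_ (.cons ?_ (.cons ?_ (.cons ?_ (.cons ?_ (.cons ?_ (.cons ?_ (.cons ?_
    (.cons ?_ (.cons ?_ .nil))))))))))
  · show Md.Ok _ _ _ (fb s)
    rw [hs]
    exact base_ok TM.tm_b_2 (lo := 729/400) (d := 0) (by decide +kernel) hx.1 hx.2
  · show Md.Ok _ _ _ (fb1 s)
    rw [hs]
    exact base_ok TM.tm_b' (lo := 729/400) (d := 0) (by decide +kernel) hx.1 hx.2
  · show Md.Ok _ _ _ (fA s)
    rw [hs]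
    exact base_ok TM.tm_a1_2 (lo := 729/400) (d := 0) (by decide +kernel) hx.1 hx.2
  · show Md.Ok _ _ _ (fA1 s)
    rw [hs]
    exact base_ok TM.tm_a1' (lo := 729/400) (d := 0) (by decide +kernel) hx.1 hx.2
  · show Md.Ok _ _ _ (fC s)
    rw [hs]
    exact base_ok TM.tm_a2_2 (lo := 729/400) (d := 0) (by decide +kernel) hx.1 hx.2
  · show Md.Ok _ _ _ (fC1 s)
    rw [hs]
    exact base_ok TM.tm_a2' (lo := 729/400) (d := 0) (by decide +kernel) hx.1 hx.2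
  · rw [es]
    exact mdS_ok _ _ x t z
  · rw [hc, es]
    exact mdC_ok _ _ x t z
  · rw [he]
    exact mdE_ok x t z
  · exact const_ok mu_app
  · exact const_ok al_app

def exA_ge : Ex :=
  (.sub (.add (.v 0) (.mul (.v 8) (.add (.v 2) (.mul (.v 7) (.v 4))))) (.c 500000))

theorem A_ge {e c s : ℝ} (he : 0 ≤ e) (he1 : e ≤ 3 / 10) (hs : 0 ≤ s) (hs1 : s ≤ S1)
    (hc : |c| ≤ s) : 1 / 2 ≤ vA e c s := by
  have hS1 : (S1 : ℝ) = 729 / 400 := rfl
  obtain ⟨x, t, z, hb, hx, ht, hz⟩ := exists_box (lo := 0) (d := 729 / 400) (s := s) he he1 hs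
    (by rw [hS1] at hs1; linarith) hs hc (by norm_num)
  have henv := envFull_ok hb (s := s) (c := c) (e := e) (by rw [hx]; push_cast; ring) ht hz
  have h := Ex.nonneg (T := .L) (by norm_num) hb henv exA_ge (by decide +kernel)
  have hr : Ex.real 1000000 [fb s, fb1 s, fA s, fA1 s, fC s, fC1 s, s, c, e, mu, al] exA_ge =
      vA e c s - 1 / 2 := by
    simp only [exA_ge, Ex.real, List.getD_cons_zero, List.getD_cons_succ]
    unfold vA
    push_cast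
    ring
  rw [hr] at h
  linarith

def exB_ge : Ex :=
  (.sub (.add (.v 0) (.mul (.v 8) (.sub (.mul (.v 7) (.v 4)) (.v 2)))) (.c 500000))

theorem B_ge {e c s : ℝ} (he : 0 ≤ e) (he1 : e ≤ 3 / 10) (hs : 0 ≤ s) (hs1 : s ≤ S1)
    (hc : |c| ≤ s) : 1 / 2 ≤ vB e c s := by
  have hS1 : (S1 : ℝ) = 729 / 400 := rfl
  obtain ⟨x, t, z, hb, hx, ht, hz⟩ := exists_box (lo := 0) (d := 729 / 400) (s := s) he he1 hs
    (by rw [hS1] at hs1; linarith) hs hc (by norm_num)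
  have henv := envFull_ok hb (s := s) (c := c) (e := e) (by rw [hx]; push_cast; ring) ht hz
  have h := Ex.nonneg (T := .L) (by norm_num) hb henv exB_ge (by decide +kernel)
  have hr : Ex.real 1000000 [fb s, fb1 s, fA s, fA1 s, fC s, fC1 s, s, c, e, mu, al] exB_ge =
      vB e c s - 1 / 2 := by
    simp only [exB_ge, Ex.real, List.getD_cons_zero, List.getD_cons_succ]
    unfold vB
    push_cast
    ring
  rw [hr] at h
  linarith

def exW_ann : Ex :=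
  (.sub (.sub (.sub (.sub (.add (.mul (.mul (.add (.mul (.c 4000000) (.v 9)) (.mul (.v 8) (.v 10))) (.mul (.add (.v 6) (.v 7)) (.c 500000))) (.mul (.add (.v 0) (.mul (.v 8) (.add (.v 2) (.mul (.v 7) (.v 4))))) (.add (.v 0) (.mul (.v 8) (.add (.v 2) (.mul (.v 7) (.v 4))))))) (.mul (.mul (.sub (.mul (.c 4000000) (.v 9)) (.mul (.v 8) (.v 10))) (.mul (.sub (.v 6) (.v 7)) (.c 500000))) (.mul (.add (.v 0) (.mul (.v 8) (.sub (.mul (.v 7) (.v 4)) (.v 2)))) (.add (.v 0) (.mul (.v 8) (.sub (.mul (.v 7) (.v 4)) (.v 2))))))) (.mul (.add (.add (.v 0) (.mul (.v 8) (.add (.v 2) (.mul (.v 7) (.v 4))))) (.mul (.add (.v 6) (.v 7)) (.add (.add (.v 1) (.mul (.v 8) (.add (.v 3) (.mul (.v 7) (.v 5))))) (.mul (.v 8) (.v 4))))) (.add (.add (.v 0) (.mul (.v 8) (.add (.v 2) (.mul (.v 7) (.v 4))))) (.mul (.add (.v 6) (.v 7)) (.add (.add (.v 1) (.mul (.v 8) (.add (.v 3) (.mul (.v 7) (.v 5))))) (.mul (.v 8) (.v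 4))))))) (.mul (.sub (.mul (.v 6) (.v 6)) (.mul (.v 7) (.v 7))) (.mul (.sub (.add (.v 1) (.mul (.v 8) (.add (.v 3) (.mul (.v 7) (.v 5))))) (.mul (.v 8) (.v 4))) (.sub (.add (.v 1) (.mul (.v 8) (.add (.v 3) (.mul (.v 7) (.v 5))))) (.mul (.v 8) (.v 4)))))) (.mul (.add (.add (.v 0) (.mul (.v 8) (.sub (.mul (.v 7) (.v 4)) (.v 2)))) (.mul (.sub (.v 6) (.v 7)) (.sub (.add (.v 1) (.mul (.v 8) (.sub (.mul (.v 7) (.v 5)) (.v 3)))) (.mul (.v 8) (.v 4))))) (.add (.add (.v 0) (.mul (.v 8) (.sub (.mul (.v 7) (.v 4)) (.v 2)))) (.mul (.sub (.v 6) (.v 7)) (.sub (.add (.v 1) (.mul (.v 8) (.sub (.mul (.v 7) (.v 5)) (.v 3)))) (.mul (.v 8) (.v 4))))))) (.mul (.sub (.mul (.v 6) (.v 6)) (.mul (.v 7) (.v 7))) (.mul (.add (.add (.v 1) (.mul (.v 8) (.sub (.mul (.v 7) (.v 5)) (.v 3)))) (.mul (.v 8) (.v 4))) (.add (.add (.v 1) (.mul (.v 8) (.sub (.mul (.v 7) (.v 5)) (.v 3)))) (.mul (.v 8) (.v 4))))))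

theorem W_ann {e c s : ℝ} (he : 0 ≤ e) (he1 : e ≤ 3 / 10) (hs : 23 / 20 ≤ s) (hs1 : s ≤ S1)
    (hc : |c| ≤ s) : 0 ≤ vW e c s := by
  have hS1 : (S1 : ℝ) = 729 / 400 := rfl
  obtain ⟨x, t, z, hb, hx, ht, hz⟩ := exists_box (lo := 23 / 20) (d := 269 / 400) (s := s) he he1 hs
    (by rw [hS1] at hs1; linarith) (by linarith) hc (by norm_num)
  have henv := envAnn_ok hb (s := s) (c := c) (e := e) (by rw [hx]; push_cast; ring) ht hz
  have h := Ex.nonneg (T := .L) (by norm_num) hb henv exW_ann (by decide +kernel)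
  have hr : Ex.real 1000000 [fb s, fb1 s, fA s, fA1 s, fC s, fC1 s, s, c, e, mu, al] exW_ann =
      vW e c s := by
    simp only [exW_ann, Ex.real, List.getD_cons_zero, List.getD_cons_succ]
    unfold vW Pool.Agent.Lib.MPeb.ND.Wv
    push_cast
    ring
  rw [hr] at h
  linarith

def exout_pos : Ex :=
  (.sub (.add (.mul (.mul (.mul (.c 1822500) (.add (.mul (.c 4000000) (.v 9)) (.mul (.v 8) (.v 10)))) (.add (.c 1822500) (.v 7))) (.mul (.add (.v 0) (.mul (.v 8) (.add (.v 2) (.mul (.v 7) (.v 4))))) (.add (.v 0) (.mul (.v 8) (.add (.v 2) (.mul (.v 7) (.v 4))))))) (.mul (.mul (.mul (.c 1822500) (.sub (.mul (.c 4000000) (.v 9)) (.mul (.v 8) (.v 10)))) (.sub (.c 1822500) (.v 7))) (.mul (.add (.v 0) (.mul (.v 8) (.sub (.mul (.v 7) (.v 4)) (.v 2)))) (.add (.v 0) (.mul (.v 8) (.sub (.mul (.v 7) (.v 4)) (.v 2))))))) (.add (.mul (.sub (.c 1822500) (.v 7)) (.mul (.add (.add (.v 0) (.mul (.v 8) (.add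 (.v 2) (.mul (.v 7) (.v 4))))) (.mul (.mul (.c 2000000) (.add (.c 1822500) (.v 7))) (.mul (.v 8) (.v 4)))) (.add (.add (.v 0) (.mul (.v 8) (.add (.v 2) (.mul (.v 7) (.v 4))))) (.mul (.mul (.c 2000000) (.add (.c 1822500) (.v 7))) (.mul (.v 8) (.v 4)))))) (.mul (.add (.c 1822500) (.v 7)) (.mul (.sub (.add (.v 0) (.mul (.v 8) (.sub (.mul (.v 7) (.v 4)) (.v 2)))) (.mul (.mul (.c 2000000) (.sub (.c 1822500) (.v 7))) (.mul (.v 8) (.v 4)))) (.sub (.add (.v 0) (.mul (.v 8) (.sub (.mul (.v 7) (.v 4)) (.v 2)))) (.mul (.mul (.c 2000000) (.sub (.c 1822500) (.v 7))) (.mul (.v 8) (.v 4))))))))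

theorem out_pos {e c : ℝ} (he : 0 ≤ e) (he1 : e ≤ 3 / 10) (hc : |c| ≤ S1) : 0 ≤ vout e c := by
  have hS1 : (S1 : ℝ) = 729 / 400 := rfl
  obtain ⟨x, t, z, hb, hx, ht, hz⟩ := exists_box (lo := S1) (d := 0) (s := S1) he he1 le_rfl
    (by linarith) (by rw [hS1]; norm_num) hc le_rfl
  have henv := envOut_ok hb (s := S1) (c := c) (e := e) (by rw [hS1]; push_cast; ring) ht hz
  have h := Ex.nonneg (T := .L) (by norm_num) hb henv exout_pos (by decide +kernel)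
  have hr : Ex.real 1000000 [fb S1, fb1 S1, fA S1, fA1 S1, fC S1, fC1 S1, S1, c, e, mu, al] exout_pos =
      2 * S1 * vout e c := by
    simp only [exout_pos, Ex.real, List.getD_cons_zero, List.getD_cons_succ]
    unfold vout vA vB
    rw [hS1]
    push_cast
    ring
  rw [hr] at h
  exact nonneg_of_mul_nonneg_right (h) (by rw [hS1]; norm_num)

end Pool.Agent.PPW.ND
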