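import Pool.Agent.Lib.MP_eb7570_an.ND.Base

/-!
# Near disk family: `psi_in`, `psi_out`, `h_pos` by kernel evaluation (generated data)
-/

set_option autoImplicit false

namespace Pool.Agent.PPW.ND

open Pool.Agent.Lib.MP_eb7570_an.Pos (NP Md Ex EnvOk inBox eval evalL const Tree)
open Pool.Agent.PPW.Bes (F s0 s1 kap2 s0_pos)

theorem TM_mono_radius {ρ : ℚ} {a : PowerSeries ℝ} {l : List ℚ} {ε : ℚ} (h : TM.TM ρ a l ε)
    (h2 : 2 ≤ ρ) : TM.TM 2 a l ε := by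
  unfold TM.TM at h ⊢
  exact TM.Bd.radius (by norm_num) (by exact_mod_cast h2) h

theorem ev_Fs_one (n : ℕ) (s : ℝ) : TM.ev (TM.Fs n 1) s = F n s := by
  rw [TM.ev_Fs, one_mul]

def pFullC_F0 : List ℤ := [1000000, -1822500, 830377, -168151, 19153, -1396, 71, -3]
def pFullC_F2 : List ℤ := [500000, -303750, 69198, -8408, 638, -33, 1]
def pFullC_F4 : List ℤ := [41667, -15187, 2307, -200, 11]
def pFullC_g : List ℤ := [601880, 371352, 144265, 45920, 13081, 3453, 855, 198, 42, 8, 1]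
def pFullC_k : List ℤ := [128753, 86693, 36211, 12302, 3751, 1075, 297, 80, 21, 6, 2]

def envFullC : List (Md 3) :=
  [⟨1, up pFullC_F0, 3⟩,
   ⟨1, up pFullC_F2, 2⟩,
   ⟨1, up pFullC_F4, 3⟩,
   ⟨1, up pFullC_g, 3⟩,
   ⟨1, up pFullC_k, 4⟩,
   mdS 0 1822500,
   mdC 0 1822500,
   mdE]

theorem envFullC_ok {x t z s c e : ℝ} (hb : inBox [x, t, z])
    (hs : s = ((0 : ℚ) : ℝ) + ((729/400 : ℚ) : ℝ) * x) (hc : c = s * (2 * t - 1))
    (he : e = 3 / 10 * z) :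
    EnvOk 1000000 envFullC [F 0 s, F 2 s, F 4 s, fg s, fk s, s, c, e] [x, t, z] := by
  have hx := hb x (by simp)
  have es : s = ((0 : ℤ) : ℝ) / 1000000 + ((1822500 : ℤ) : ℝ) / 1000000 * x := by
    rw [hs]; push_cast; ring
  refine .cons ?_ (.cons ?_ (.cons ?_ (.cons ?_ (.cons ?_ (.cons ?_ (.cons ?_
    (.cons ?_ .nil)))))))
  · rw [← ev_Fs_one, hs]
    exact base_ok (TM_mono_radius TM.tm_F0 (by norm_num)) (lo := 0) (d := 729/400) (by decide +kernel)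
      hx.1 hx.2
  · rw [← ev_Fs_one, hs]
    exact base_ok (TM_mono_radius TM.tm_F2 (by norm_num)) (lo := 0) (d := 729/400) (by decide +kernel)
      hx.1 hx.2
  · rw [← ev_Fs_one, hs]
    exact base_ok (TM_mono_radius TM.tm_F4 (by norm_num)) (lo := 0) (d := 729/400) (by decide +kernel)
      hx.1 hx.2
  · show Md.Ok _ _ _ (fg s)
    rw [hs]
    exact base_ok TM.tm_h0_2 (lo := 0) (d := 729/400) (by decide +kernel) hx.1 hx.2
  · show Md.Ok _ _ _ (fk s)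
    rw [hs]
    exact base_ok TM.tm_h1_2 (lo := 0) (d := 729/400) (by decide +kernel) hx.1 hx.2
  · rw [es]
    exact mdS_ok _ _ x t z
  · rw [hc, es]
    exact mdC_ok _ _ x t z
  · rw [he]
    exact mdE_ok x t z

def pInC_F0 : List ℤ := [1000000, -1150000, 330625, -42247, 3036, -140, 4]
def pInC_F2 : List ℤ := [500000, -191667, 27552, -2112, 101, -3]
def pInC_F4 : List ℤ := [41667, -9583, 918, -50, 2]
def pInC_g : List ℤ := [601880, 234324, 57441, 11537, 2074, 345, 54, 8, 1]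
def pInC_k : List ℤ := [128753, 54703, 14418, 3091, 595, 108, 19, 3, 1]

def envInC : List (Md 3) :=
  [⟨1, up pInC_F0, 2⟩,
   ⟨1, up pInC_F2, 2⟩,
   ⟨1, up pInC_F4, 2⟩,
   ⟨1, up pInC_g, 2⟩,
   ⟨1, up pInC_k, 3⟩,
   mdS 0 1150000,
   mdC 0 1150000,
   mdE]

theorem envInC_ok {x t z s c e : ℝ} (hb : inBox [x, t, z])
    (hs : s = ((0 : ℚ) : ℝ) + ((23/20 : ℚ) : ℝ) * x) (hc : c = s * (2 * t - 1))
    (he : e = 3 / 10 * z) :
    EnvOk 1000000 envInC [F 0 s, F 2 s, F 4 s, fg s, fk s, s, c, e] [x, t, z] := by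
  have hx := hb x (by simp)
  have es : s = ((0 : ℤ) : ℝ) / 1000000 + ((1150000 : ℤ) : ℝ) / 1000000 * x := by
    rw [hs]; push_cast; ring
  refine .cons ?_ (.cons ?_ (.cons ?_ (.cons ?_ (.cons ?_ (.cons ?_ (.cons ?_
    (.cons ?_ .nil)))))))
  · rw [← ev_Fs_one, hs]
    exact base_ok (TM_mono_radius TM.tm_F0 (by norm_num)) (lo := 0) (d := 23/20) (by decide +kernel)
      hx.1 hx.2
  · rw [← ev_Fs_one, hs]
    exact base_ok (TM_mono_radius TM.tm_F2 (by norm_num)) (lo := 0) (d := 23/20) (by decide +kernel)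
      hx.1 hx.2
  · rw [← ev_Fs_one, hs]
    exact base_ok (TM_mono_radius TM.tm_F4 (by norm_num)) (lo := 0) (d := 23/20) (by decide +kernel)
      hx.1 hx.2
  · show Md.Ok _ _ _ (fg s)
    rw [hs]
    exact base_ok TM.tm_h0_2 (lo := 0) (d := 23/20) (by decide +kernel) hx.1 hx.2
  · show Md.Ok _ _ _ (fk s)
    rw [hs]
    exact base_ok TM.tm_h1_2 (lo := 0) (d := 23/20) (by decide +kernel) hx.1 hx.2
  · rw [es]
    exact mdS_ok _ _ x t z
  · rw [hc, es]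
    exact mdC_ok _ _ x t z
  · rw [he]
    exact mdE_ok x t z

def pOutC_F0 : List ℤ := [-142449]
def pOutC_F2 : List ℤ := [257647]
def pOutC_F4 : List ℤ := [28597]
def pOutC_g : List ℤ := [1181056]
def pOutC_k : List ℤ := [269191]

def envOutC : List (Md 3) :=
  [⟨1, up pOutC_F0, 1⟩,
   ⟨1, up pOutC_F2, 1⟩,
   ⟨1, up pOutC_F4, 1⟩,
   ⟨1, up pOutC_g, 1⟩,
   ⟨1, up pOutC_k, 1⟩,
   mdS 1822500 0,
   mdC 1822500 0,
   mdE]

theorem envOutC_ok {x t z s c e : ℝ} (hb : inBox [x, t, z])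
    (hs : s = ((729/400 : ℚ) : ℝ) + ((0 : ℚ) : ℝ) * x) (hc : c = s * (2 * t - 1))
    (he : e = 3 / 10 * z) :
    EnvOk 1000000 envOutC [F 0 s, F 2 s, F 4 s, fg s, fk s, s, c, e] [x, t, z] := by
  have hx := hb x (by simp)
  have es : s = ((1822500 : ℤ) : ℝ) / 1000000 + ((0 : ℤ) : ℝ) / 1000000 * x := by
    rw [hs]; push_cast; ring
  refine .cons ?_ (.cons ?_ (.cons ?_ (.cons ?_ (.cons ?_ (.cons ?_ (.cons ?_
    (.cons ?_ .nil)))))))
  · rw [← ev_Fs_one, hs]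
    exact base_ok (TM_mono_radius TM.tm_F0 (by norm_num)) (lo := 729/400) (d := 0) (by decide +kernel)
      hx.1 hx.2
  · rw [← ev_Fs_one, hs]
    exact base_ok (TM_mono_radius TM.tm_F2 (by norm_num)) (lo := 729/400) (d := 0) (by decide +kernel)
      hx.1 hx.2
  · rw [← ev_Fs_one, hs]
    exact base_ok (TM_mono_radius TM.tm_F4 (by norm_num)) (lo := 729/400) (d := 0) (by decide +kernel)
      hx.1 hx.2
  · show Md.Ok _ _ _ (fg s)
    rw [hs]
    exact base_ok TM.tm_h0_2 (lo := 729/400) (d := 0) (by decide +kernel) hx.1 hx.2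
  · show Md.Ok _ _ _ (fk s)
    rw [hs]
    exact base_ok TM.tm_h1_2 (lo := 729/400) (d := 0) (by decide +kernel) hx.1 hx.2
  · rw [es]
    exact mdS_ok _ _ x t z
  · rw [hc, es]
    exact mdC_ok _ _ x t z
  · rw [he]
    exact mdE_ok x t z

def expsi_in : Ex :=
  (.sub (.sub (.add (.v 0) (.mul (.mul (.v 7) (.v 6)) (.v 1))) (.mul (.mul (.mul (.v 7) (.v 7)) (.sub (.mul (.c 2000000) (.mul (.v 6) (.v 6))) (.mul (.v 5) (.v 5)))) (.v 2))) (.c 10000))

theorem psi_in {e c s : ℝ} (he : 0 ≤ e) (he1 : e ≤ 3 / 10) (hs : 0 ≤ s) (hs1 : s ≤ 23 / 20)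
    (hc : |c| ≤ s) : 0 < vpsi e c s := by
  have hS1 : (S1 : ℝ) = 729 / 400 := rfl
  obtain ⟨x, t, z, hb, hx, ht, hz⟩ := exists_box (lo := 0) (d := 23 / 20) (s := s) he he1 hs
    (by linarith) hs hc (by norm_num)
  have henv := envInC_ok hb (s := s) (c := c) (e := e) (by rw [hx]; push_cast; ring) ht hz
  have h := Ex.nonneg (T := .L) (by norm_num) hb henv expsi_in (by decide +kernel)
  have hr : Ex.real 1000000 [F 0 s, F 2 s, F 4 s, fg s, fk s, s, c, e] expsi_in =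
      vpsi e c s - 1 / 100 := by
    simp only [expsi_in, Ex.real, List.getD_cons_zero, List.getD_cons_succ]
    unfold vpsi Pool.Agent.Lib.MPeb.ND.psiv
    push_cast
    ring
  rw [hr] at h
  linarith

def expsi_out : Ex :=
  (.sub (.c 0) (.sub (.add (.v 0) (.mul (.mul (.v 7) (.v 6)) (.v 1))) (.mul (.mul (.mul (.v 7) (.v 7)) (.sub (.mul (.c 2000000) (.mul (.v 6) (.v 6))) (.mul (.v 5) (.v 5)))) (.v 2))))

theorem psi_out {e c : ℝ} (he : 0 ≤ e) (he1 : e ≤ 3 / 10) (hc : |c| ≤ S1) : vpsi e c S1 ≤ 0 := by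
  have hS1 : (S1 : ℝ) = 729 / 400 := rfl
  obtain ⟨x, t, z, hb, hx, ht, hz⟩ := exists_box (lo := S1) (d := 0) (s := S1) he he1 le_rfl
    (by linarith) (by rw [hS1]; norm_num) hc le_rfl
  have henv := envOutC_ok hb (s := S1) (c := c) (e := e) (by rw [hS1]; push_cast; ring) ht hz
  have h := Ex.nonneg (T := .L) (by norm_num) hb henv expsi_out (by decide +kernel)
  have hr : Ex.real 1000000 [F 0 S1, F 2 S1, F 4 S1, fg S1, fk S1, S1, c, e] expsi_out =
      - vpsi e c S1 := by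
    simp only [expsi_out, Ex.real, List.getD_cons_zero, List.getD_cons_succ]
    unfold vpsi Pool.Agent.Lib.MPeb.ND.psiv
    push_cast
    ring
  rw [hr] at h
  linarith

def exh_pos : Ex :=
  (.add (.add (.add (.v 3) (.mul (.mul (.v 7) (.v 6)) (.v 4))) (.mul (.mul (.v 7) (.v 7)) (.sub (.sub (.sub (.sub (.sub (.sub (.c 43000) (.mul (.c 51000) (.v 5))) (.mul (.c 12000) (.mul (.v 5) (.v 5)))) (.mul (.c 2000) (.mul (.mul (.v 5) (.v 5)) (.v 5)))) (.mul (.c 38000) (.mul (.v 6) (.v 6)))) (.mul (.c 7000) (.mul (.mul (.v 6) (.v 6)) (.v 5)))) (.mul (.c 64000) (.mul (.mul (.v 6) (.v 6)) (.mul (.v 5) (.v 5))))))) (.mul (.mul (.mul (.v 7) (.v 7)) (.v 7)) (.sub (.add (.sub (.add (.mul (.c 153000) (.mul (.mul (.mul (.v 6) (.v 6)) (.v 6)) (.v 5))) (.mul (.c 51000) (.mul (.mul (.v 6) (.v 6)) (.v 6)))) (.mul (.c 56000) (.mul (.v 6) (.mul (.v 5) (.v 5))))) (.mul (.c 7000) (.mul (.v 6) (.v 5)))) (.mul (.c 41000) (.v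 6)))))

theorem h_pos {e c s : ℝ} (he : 0 ≤ e) (he1 : e ≤ 3 / 10) (hs : 0 ≤ s) (hs1 : s ≤ S1)
    (hc : |c| ≤ s) : 0 ≤ vh e c s := by
  have hS1 : (S1 : ℝ) = 729 / 400 := rfl
  obtain ⟨x, t, z, hb, hx, ht, hz⟩ := exists_box (lo := 0) (d := 729 / 400) (s := s) he he1 hs
    (by rw [hS1] at hs1; linarith) hs hc (by norm_num)
  have henv := envFullC_ok hb (s := s) (c := c) (e := e) (by rw [hx]; push_cast; ring) ht hz
  have h := Ex.nonneg (T := .L) (by norm_num) hb henv exh_pos (by decide +kernel)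
  have hr : Ex.real 1000000 [F 0 s, F 2 s, F 4 s, fg s, fk s, s, c, e] exh_pos =
      vh e c s := by
    simp only [exh_pos, Ex.real, List.getD_cons_zero, List.getD_cons_succ]
    unfold vh Pool.Agent.Lib.MPeb.ND.hv
    push_cast
    ring
  rw [hr] at h
  linarith

end Pool.Agent.PPW.ND
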