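import Pool.Agent.Lib.MP_eb7570_an.ND.FactR
import Pool.Agent.Lib.MP_eb7570_an.ND.FactsB
import Pool.Agent.Lib.MP_eb7570_an.ND.FactsC

set_option autoImplicit false

/-!
# Near disk family: the numerical facts (Taylor models + positivity checker)

Numerical values (grid): `vR >= .0069`, `psi_in: >= .0286`, `psi_out: <= -.0101`, `W_ann: >= 2.2`, `h: >= .60`,
`vA, vB in [.541, 1.11]`, `out: >= 2.84`.

`W_ann`, `A_ge`, `B_ge`, `out_pos` are in `FactsB`; `psi_in`, `psi_out`, `h_pos` in `FactsC`.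
-/

namespace Pool.Agent.PPW.ND

open Pool.Agent.PPW.Bes (F s0 s1 kap2)

theorem pos_R {e c s : ℝ} (he : 0 ≤ e) (he1 : e ≤ 3 / 10) (hs : 0 ≤ s) (hs1 : s ≤ S1)
    (hc : |c| ≤ s) : 0 ≤ vR e c s :=
  pos_R2 he he1 hs (hs1.trans (by unfold S1; norm_num)) hc

end Pool.Agent.PPW.ND
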