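import Pool.Agent.Lib.MP_eb7570_an.ND.Pair

set_option autoImplicit false

/-!
MP_eb7570_an, near disk part: second order data in the physical coordinates.
-/

namespace Pool.Agent.PPW.ND

noncomputable section

/-- pulled back partial derivatives -/
def g0 (fc fs : ℝ → ℝ → ℝ) (x : E2) : ℝ := x 0 / 2 * (fs (cx x) (sx x) + fc (cx x) (sx x))
def g1 (fc fs : ℝ → ℝ → ℝ) (x : E2) : ℝ := x 1 / 2 * (fs (cx x) (sx x) - fc (cx x) (sx x))
def g00 (fc fs fcc fsc fss : ℝ → ℝ → ℝ) (x : E2) : ℝ :=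
  (fs (cx x) (sx x) + fc (cx x) (sx x)) / 2
    + x 0 ^ 2 / 4 * (fss (cx x) (sx x) + 2 * fsc (cx x) (sx x) + fcc (cx x) (sx x))
def g01 (fcc fss : ℝ → ℝ → ℝ) (x : E2) : ℝ :=
  x 0 * x 1 / 4 * (fss (cx x) (sx x) - fcc (cx x) (sx x))
def g11 (fc fs fcc fsc fss : ℝ → ℝ → ℝ) (x : E2) : ℝ :=
  (fs (cx x) (sx x) - fc (cx x) (sx x)) / 2
    + x 1 ^ 2 / 4 * (fss (cx x) (sx x) - 2 * fsc (cx x) (sx x) + fcc (cx x) (sx x))

end

private theorem lf_apply (a b : ℝ) (y : E2) : lf a b y = a * y 0 + b * y 1 := by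
  simp [lf]

private theorem proj_app (i : Fin 2) (y : E2) :
    (EuclideanSpace.proj (𝕜 := ℝ) i : E2 →L[ℝ] ℝ) y = y i := rfl

private theorem fd_coord (i : Fin 2) (x : E2) :
    HasFDerivAt (fun y : E2 => y i) (EuclideanSpace.proj (𝕜 := ℝ) i : E2 →L[ℝ] ℝ) x :=
  (EuclideanSpace.proj (𝕜 := ℝ) i : E2 →L[ℝ] ℝ).hasFDerivAt

theorem PD.add' {f g : ℝ → ℝ → ℝ} {fc fs gc gs c s : ℝ} (hf : PD f fc fs c s)
    (hg : PD g gc gs c s) : PD (fun c s => f c s + g c s) (fc + gc) (fs + gs) c s := by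
  unfold PD at *
  refine (hf.add hg).congr_fderiv ?_
  ext <;> simp

theorem PD.sub' {f g : ℝ → ℝ → ℝ} {fc fs gc gs c s : ℝ} (hf : PD f fc fs c s)
    (hg : PD g gc gs c s) : PD (fun c s => f c s - g c s) (fc - gc) (fs - gs) c s := by
  unfold PD at *
  refine (hf.sub hg).congr_fderiv ?_
  ext <;> simp

section
variable {f fc fs fcc fsc fss : ℝ → ℝ → ℝ} {x : E2}

theorem pull_f (h : PD f (fc (cx x) (sx x)) (fs (cx x) (sx x)) (cx x) (sx x)) :
    HasFDerivAt (fun y => f (cx y) (sx y)) (lf (g0 fc fs x) (g1 fc fs x)) x :=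
  fd_pull h

theorem pull_0 (hc : PD fc (fcc (cx x) (sx x)) (fsc (cx x) (sx x)) (cx x) (sx x))
    (hs : PD fs (fsc (cx x) (sx x)) (fss (cx x) (sx x)) (cx x) (sx x)) :
    HasFDerivAt (g0 fc fs) (lf (g00 fc fs fcc fsc fss x) (g01 fcc fss x)) x := by
  have h1 := fd_pull (x := x) (f := fun c s => fs c s + fc c s) (hs.add' hc)
  have h2 := ((fd_coord 0 x).mul_const (1 / 2 : ℝ)).mul h1
  have e : (fun y : E2 => y 0 * (1 / 2 : ℝ)) * (fun y : E2 => fs (cx y) (sx y) + fc (cx y) (sx y))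
      = g0 fc fs := by
    funext y
    show y 0 * (1 / 2 : ℝ) * (fs (cx y) (sx y) + fc (cx y) (sx y)) = _
    unfold g0
    ring
  rw [e] at h2
  refine h2.congr_fderiv ?_
  ext y
  simp only [g00, g01, lf_apply, add_apply, smul_apply, smul_eq_mul, proj_app]
  ring

theorem pull_1 (hc : PD fc (fcc (cx x) (sx x)) (fsc (cx x) (sx x)) (cx x) (sx x))
    (hs : PD fs (fsc (cx x) (sx x)) (fss (cx x) (sx x)) (cx x) (sx x)) :
    HasFDerivAt (g1 fc fs) (lf (g01 fcc fss x) (g11 fc fs fcc fsc fss x)) x := by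
  have h1 := fd_pull (x := x) (f := fun c s => fs c s - fc c s) (hs.sub' hc)
  have h2 := ((fd_coord 1 x).mul_const (1 / 2 : ℝ)).mul h1
  have e : (fun y : E2 => y 1 * (1 / 2 : ℝ)) * (fun y : E2 => fs (cx y) (sx y) - fc (cx y) (sx y))
      = g1 fc fs := by
    funext y
    show y 1 * (1 / 2 : ℝ) * (fs (cx y) (sx y) - fc (cx y) (sx y)) = _
    unfold g1
    ring
  rw [e] at h2
  refine h2.congr_fderiv ?_
  ext y
  simp only [g11, g01, lf_apply, add_apply, smul_apply, smul_eq_mul, proj_app]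
  ring

/-- Laplacian -/
theorem lap_eq : g00 fc fs fcc fsc fss x + g11 fc fs fcc fsc fss x =
    fs (cx x) (sx x) + sx x * (fss (cx x) (sx x) + fcc (cx x) (sx x))
      + 2 * cx x * fsc (cx x) (sx x) := by
  have h1 : x 0 ^ 2 = 2 * (sx x + cx x) := by unfold sx cx; ring
  have h2 : x 1 ^ 2 = 2 * (sx x - cx x) := by unfold sx cx; ring
  unfold g00 g11
  rw [h1, h2]
  ring

/-- scalar products of gradients -/
theorem dot_eq {gc gs : ℝ → ℝ → ℝ} : g0 fc fs x * g0 gc gs x + g1 fc fs x * g1 gc gs x =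
    sx x * (fs (cx x) (sx x) * gs (cx x) (sx x) + fc (cx x) (sx x) * gc (cx x) (sx x))
      + cx x * (fs (cx x) (sx x) * gc (cx x) (sx x) + fc (cx x) (sx x) * gs (cx x) (sx x)) := by
  have h1 : x 0 ^ 2 = 2 * (sx x + cx x) := by unfold sx cx; ring
  have h2 : x 1 ^ 2 = 2 * (sx x - cx x) := by unfold sx cx; ring
  have e : g0 fc fs x * g0 gc gs x + g1 fc fs x * g1 gc gs x =
      x 0 ^ 2 / 4 * ((fs (cx x) (sx x) + fc (cx x) (sx x)) * (gs (cx x) (sx x) + gc (cx x) (sx x)))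
      + x 1 ^ 2 / 4 * ((fs (cx x) (sx x) - fc (cx x) (sx x)) *
        (gs (cx x) (sx x) - gc (cx x) (sx x))) := by
    unfold g0 g1
    ring
  rw [e, h1, h2]
  ring
end

end Pool.Agent.PPW.ND
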