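import Pool.Agent.Lib.MP_eb7570_an.ND.Fun
import Pool.Agent.Lib.MP_eb7570_an.Bes.Rel

set_option autoImplicit false

/-!
MP_eb7570_an, near disk part: the orders `e⁰` and `e¹` of `W - E` vanish identically.
-/

open Filter Topology

namespace Pool.Agent.PPW.ND

open Pool.Agent.Lib.MPeb.ND
open Pool.Agent.PPW.Bes (F s0 s1 kap2)

private theorem F0_ne {s : ℝ} (hs : |s| ≤ 2) (hne : s ≠ s0) : F 0 s ≠ 0 := by
  have h1 := congrArg (fun a => TM.ev a s) TM.sA_spec
  have h2 := congrArg (fun a => TM.ev a s) TM.sA_mul_sAi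
  simp only [TM.e2_mul hs, TM.e2_sub hs, TM.ev_C, TM.ev_X, TM.ev_F] at h1 h2
  have h3 : TM.ev (1 : PowerSeries ℝ) s = 1 := by
    rw [← map_one (PowerSeries.C (R := ℝ)), TM.ev_C]
  rw [h3] at h2
  intro h0
  rw [h0] at h1
  rcases mul_eq_zero.1 h1 with h | h
  · exact hne (by linarith)
  · rw [h, zero_mul] at h2
    exact zero_ne_one h2

private theorem ode_b' {s : ℝ} (hs : |s| ≤ 2) :
    F 0 s * (2 * fb1 s + s * TM.fb2 s + (kap2 - 1) * fb s) = F 1 s * (fb s + 2 * s * fb1 s) :=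
  ode_b (TM.rel_r0 s) (TM.rel_q1 s) (TM.rel_b hs) (TM.rel_b1 hs) (TM.rel_b2 hs)

private theorem D00_ne {s : ℝ} (hs : |s| ≤ 2) (hne : s ≠ s0) :
    D00 s (F 0 s) (F 1 s) mu (fb s) (fb1 s) (fg s) (fg1 s) (fg2 s) = 0 :=
  D00_zero (F0_ne hs hne) rfl (TM.rel_r0 s) (ode_b' hs) (TM.rel_g1 hs) (TM.rel_g2 hs)

private theorem D11_ne {s : ℝ} (hs : |s| ≤ 2) (hne : s ≠ s0) :
    D11 s (F 0 s) (F 1 s) (F 2 s) (F 3 s) mu al (fb s) (fb1 s) (fA s) (fA1 s) (fC s) (fC1 s)
      (fg s) (fg1 s) (fg2 s) (fk s) (fk1 s) (fk2 s) = 0 :=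
  D11_zero (F0_ne hs hne) rfl rfl (TM.rel_r0 s) (TM.rel_r2 s) (ode_b' hs)
    (ode_A (TM.rel_r0 s) (TM.rel_q0 s) (TM.rel_q1 s) (TM.rel_q2 s) (TM.rel_b hs) (TM.rel_A hs)
      (TM.rel_A1 hs) (TM.rel_A2 hs) (TM.rel_C hs))
    (ode_C (TM.rel_r0 s) (TM.rel_r2 s) (TM.rel_q3 s) (ode_b' hs) (TM.rel_C hs) (TM.rel_C1 hs)
      (TM.rel_C2 hs))
    (TM.rel_g1 hs) (TM.rel_k0 hs) (TM.rel_k1 hs) (TM.rel_k2 hs)

private theorem eq_zero_at {f : ℝ → ℝ} {a : ℝ} (hc : ContinuousAt f a) {r : ℝ} (hr : 0 < r)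
    (hz : ∀ s, |s - a| < r → s ≠ a → f s = 0) : f a = 0 := by
  have h1 : Tendsto f (𝓝[≠] a) (𝓝 (f a)) := hc.tendsto.mono_left nhdsWithin_le_nhds
  have h2 : Tendsto f (𝓝[≠] a) (𝓝 0) := by
    refine tendsto_const_nhds.congr' ?_
    have : {s | |s - a| < r} ∈ 𝓝[≠] a := by
      apply mem_nhdsWithin_of_mem_nhds
      have := Metric.ball_mem_nhds a hr
      filter_upwards [this] with s hs
      simpa [Real.dist_eq] using hs
    filter_upwards [this, self_mem_nhdsWithin] with s hs hne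
    exact (hz s hs hne).symm
  exact tendsto_nhds_unique h1 h2

private theorem s0_abs : |s0| ≤ 2 := by
  rw [abs_of_pos Bes.s0_pos]
  exact TM.s0_lt_two.le

section
variable {s : ℝ} (hs : |s| ≤ 2)
include hs
private theorem cb : ContinuousAt fb s := (TM.e2_hasDerivAt hs TM.sb).continuousAt
private theorem cb1 : ContinuousAt fb1 s := (TM.e2_hasDerivAt hs (TM.der TM.sb)).continuousAt
private theorem cA : ContinuousAt fA s := (TM.e2_hasDerivAt hs TM.sa1).continuousAt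
private theorem cA1 : ContinuousAt fA1 s := (TM.e2_hasDerivAt hs (TM.der TM.sa1)).continuousAt
private theorem cC : ContinuousAt fC s := (TM.e2_hasDerivAt hs TM.sa2).continuousAt
private theorem cC1 : ContinuousAt fC1 s := (TM.e2_hasDerivAt hs (TM.der TM.sa2)).continuousAt
private theorem cg : ContinuousAt fg s := (TM.e2_hasDerivAt hs TM.sh0).continuousAt
private theorem cg1 : ContinuousAt fg1 s := (TM.e2_hasDerivAt hs (TM.der TM.sh0)).continuousAt
private theorem cg2 : ContinuousAt fg2 s :=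
  (TM.e2_hasDerivAt hs (TM.der (TM.der TM.sh0))).continuousAt
private theorem ck : ContinuousAt fk s := (TM.e2_hasDerivAt hs TM.sh1).continuousAt
private theorem ck1 : ContinuousAt fk1 s := (TM.e2_hasDerivAt hs (TM.der TM.sh1)).continuousAt
private theorem ck2 : ContinuousAt fk2 s :=
  (TM.e2_hasDerivAt hs (TM.der (TM.der TM.sh1))).continuousAt
end

private theorem cF (n : ℕ) (s : ℝ) : ContinuousAt (F n) s := (Bes.continuous_F n).continuousAt

private theorem D00_all {s : ℝ} (hs : |s| < 2) :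
    D00 s (F 0 s) (F 1 s) mu (fb s) (fb1 s) (fg s) (fg1 s) (fg2 s) = 0 := by
  by_cases hne : s = s0
  · subst hne
    have f0 := cF 0 s0
    have f1 := cF 1 s0
    have a1 := cb s0_abs
    have a2 := cb1 s0_abs
    have a3 := cg s0_abs
    have a4 := cg1 s0_abs
    have a5 := cg2 s0_abs
    refine eq_zero_at (f := fun s => D00 s (F 0 s) (F 1 s) mu (fb s) (fb1 s) (fg s) (fg1 s)
      (fg2 s)) ?_ (r := 2 - |s0|) (by linarith) ?_
    · unfold D00
      fun_prop
    · intro s h1 h2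
      refine D00_ne ?_ h2
      have : |s| ≤ |s - s0| + |s0| := by
        have := abs_add_le (s - s0) s0
        simpa using this
      linarith
  · exact D00_ne hs.le hne

private theorem D11_all {s : ℝ} (hs : |s| < 2) :
    D11 s (F 0 s) (F 1 s) (F 2 s) (F 3 s) mu al (fb s) (fb1 s) (fA s) (fA1 s) (fC s) (fC1 s)
      (fg s) (fg1 s) (fg2 s) (fk s) (fk1 s) (fk2 s) = 0 := by
  by_cases hne : s = s0
  · subst hne
    have f0 := cF 0 s0
    have f1 := cF 1 s0
    have f2 := cF 2 s0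
    have f3 := cF 3 s0
    have a1 := cb s0_abs
    have a2 := cb1 s0_abs
    have a3 := cg s0_abs
    have a4 := cg1 s0_abs
    have a5 := cg2 s0_abs
    have a6 := cA s0_abs
    have a7 := cA1 s0_abs
    have a8 := cC s0_abs
    have a9 := cC1 s0_abs
    have a10 := ck s0_abs
    have a11 := ck1 s0_abs
    have a12 := ck2 s0_abs
    refine eq_zero_at (f := fun s => D11 s (F 0 s) (F 1 s) (F 2 s) (F 3 s) mu al (fb s) (fb1 s)
      (fA s) (fA1 s) (fC s) (fC1 s) (fg s) (fg1 s) (fg2 s) (fk s) (fk1 s) (fk2 s))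
      ?_ (r := 2 - |s0|) (by linarith) ?_
    · unfold D11
      fun_prop
    · intro s h1 h2
      refine D11_ne ?_ h2
      have : |s| ≤ |s - s0| + |s0| := by
        have := abs_add_le (s - s0) s0
        simpa using this
      linarith
  · exact D11_ne hs.le hne

theorem W_sub_E {e c s : ℝ} (hs : |s| < 2) : vW e c s - vE e c s = e ^ 2 * vR e c s := by
  unfold vW vE vR
  rw [expand, D00_all hs, D11_all hs]
  ring

end Pool.Agent.PPW.ND
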