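import Pool.Agent.Lib.MP_eb7570_an.ND.PathND
import Pool.Agent.Lib.MP_eb7570_an.ND.Zero
import Pool.Agent.Lib.MP_eb7570_an.ND.Pull

set_option autoImplicit false

/-!
MP_eb7570_an, near disk part: the certificate.
-/

open Set

namespace Pool.Agent.PPW.ND

open Pool.Agent.Lib.MPeb.ND

theorem sum_al_be (e : ℝ) : alE e + beE e = 2 * (Bes.kap2 - 1) := by
  unfold alE beE mu
  ring

/-- the form inside the clamp -/
theorem W_eq (e : ℝ) (x : E2) : (alE e * q1 e x ^ 2 - (q10 e x ^ 2 + q11 e x ^ 2))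
    + (beE e * q2 e x ^ 2 - (q20 e x ^ 2 + q21 e x ^ 2)) = vW e (cx x) (sx x) := by
  have h1 : x 0 ^ 2 = 2 * (sx x + cx x) := by unfold sx cx; ring
  have h2 : x 1 ^ 2 = 2 * (sx x - cx x) := by unfold sx cx; ring
  have e1 : (alE e * q1 e x ^ 2 - (q10 e x ^ 2 + q11 e x ^ 2))
      + (beE e * q2 e x ^ 2 - (q20 e x ^ 2 + q21 e x ^ 2)) =
      (alE e * (x 0 ^ 2 * vA e (cx x) (sx x) ^ 2) - ((vA e (cx x) (sx x)
        + x 0 ^ 2 / 2 * (vAs e (cx x) (sx x) + vAc e (sx x))) ^ 2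
        + x 0 ^ 2 * x 1 ^ 2 / 4 * (vAs e (cx x) (sx x) - vAc e (sx x)) ^ 2))
      + (beE e * (x 1 ^ 2 * vB e (cx x) (sx x) ^ 2) - (x 0 ^ 2 * x 1 ^ 2 / 4 *
        (vBs e (cx x) (sx x) + vBc e (sx x)) ^ 2 + (vB e (cx x) (sx x)
        + x 1 ^ 2 / 2 * (vBs e (cx x) (sx x) - vBc e (sx x))) ^ 2)) := by
    unfold q1 q2 q10 q11 q20 q21
    ring
  rw [e1, h1, h2]
  unfold alE beE vW Wv vA vB vAs vBs vAc vBc
  ring

/-- the form outside the clamp -/
theorem out_eq (e : ℝ) (y : E2) (hy : ‖y‖ = r1) : (alE e * q1 e y ^ 2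
      - (y 0 * q11 e y - y 1 * q10 e y) ^ 2 / r1 ^ 2)
    + (beE e * q2 e y ^ 2 - (y 0 * q21 e y - y 1 * q20 e y) ^ 2 / r1 ^ 2) = vout e (cx y) := by
  have hs : sx y = S1 := sx_of_r1 hy
  have h1 : y 0 ^ 2 = 2 * (S1 + cx y) := by rw [← hs]; unfold sx cx; ring
  have h2 : y 1 ^ 2 = 2 * (S1 - cx y) := by rw [← hs]; unfold sx cx; ring
  have hr : r1 ^ 2 = 4 * S1 := by unfold r1 S1; norm_num
  have t1 : y 0 * q11 e y - y 1 * q10 e y =
      - (y 1 * (vA e (cx y) (sx y) + y 0 ^ 2 * vAc e (sx y))) := by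
    unfold q10 q11
    ring
  have t2 : y 0 * q21 e y - y 1 * q20 e y =
      y 0 * (vB e (cx y) (sx y) - y 1 ^ 2 * vBc e (sx y)) := by
    unfold q20 q21
    ring
  rw [t1, t2, neg_sq, mul_pow, mul_pow, hs, hr]
  unfold q1 q2
  rw [mul_pow, mul_pow, h1, h2, hs]
  unfold alE beE vout vAc vBc
  have hS : S1 ≠ 0 := by unfold S1; norm_num
  field_simp
  ring

theorem cl_of_le {r : ℝ} (hr : 0 < r) {x : E2} (hx : ‖x‖ ≤ r) : cl r x = x := by
  unfold cl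
  have h : ‖x‖ / r ≤ 1 := (div_le_one hr).2 hx
  rw [max_eq_left h, inv_one, one_smul]

theorem norm_cl {r : ℝ} (hr : 0 < r) {x : E2} (hx : r ≤ ‖x‖) : ‖cl r x‖ = r := by
  unfold cl
  have h : 1 ≤ ‖x‖ / r := (one_le_div hr).2 hx
  have hx0 : 0 < ‖x‖ := lt_of_lt_of_le hr hx
  rw [max_eq_right h, norm_smul, norm_inv, Real.norm_eq_abs, abs_of_pos (div_pos hx0 hr)]
  field_simp

theorem r1_pos : 0 < r1 := by unfold r1; norm_num
theorem r1_lt : r1 < 14 / 5 := by unfold r1; norm_num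

/-- the value of the form in the open ball -/
theorem F_in {e : ℝ} {x : E2} (hx : ‖x‖ < r1) :
    Fp (alE e) (beE e) 1 (Q1 e) (Q2 e) x = vW e (cx x) (sx x) := by
  have hx2 : ‖x‖ < 14 / 5 := hx.trans r1_lt
  have a1 : gsq (Q1 e) x = q10 e x ^ 2 + q11 e x ^ 2 := gsq_cl_in r1_pos hx (fd_q1 hx2)
  have a2 : gsq (Q2 e) x = q20 e x ^ 2 + q21 e x ^ 2 := gsq_cl_in r1_pos hx (fd_q2 hx2)
  have b1 : Q1 e x = q1 e x := by unfold Q1; rw [cl_of_le r1_pos hx.le]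
  have b2 : Q2 e x = q2 e x := by unfold Q2; rw [cl_of_le r1_pos hx.le]
  unfold Fp
  rw [a1, a2, b1, b2, one_mul, W_eq]

/-- the form outside the ball -/
theorem F_far {e : ℝ} {x : E2} (hx : r1 < ‖x‖) :
    vout e (cx (cl r1 x)) ≤ Fp (alE e) (beE e) 1 (Q1 e) (Q2 e) x := by
  have hn : ‖cl r1 x‖ = r1 := norm_cl r1_pos hx.le
  have hx2 : ‖cl r1 x‖ < 14 / 5 := by rw [hn]; exact r1_lt
  have a1 : gsq (Q1 e) x = _ := gsq_cl_out r1_pos hx (fd_q1 hx2)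
  have a2 : gsq (Q2 e) x = _ := gsq_cl_out r1_pos hx (fd_q2 hx2)
  have hsq : r1 ^ 2 ≤ ‖x‖ ^ 2 := pow_le_pow_left₀ r1_pos.le hx.le 2
  have hr2 : 0 < r1 ^ 2 := pow_pos r1_pos 2
  have key : ∀ t : ℝ, t ^ 2 / ‖x‖ ^ 2 ≤ t ^ 2 / r1 ^ 2 := fun t =>
    div_le_div_of_nonneg_left (sq_nonneg t) hr2 hsq
  rw [← out_eq e (cl r1 x) hn]
  unfold Fp
  rw [a1, a2, one_mul]
  have k1 := key (cl r1 x 0 * q11 e (cl r1 x) - cl r1 x 1 * q10 e (cl r1 x))
  have k2 := key (cl r1 x 0 * q21 e (cl r1 x) - cl r1 x 1 * q20 e (cl r1 x))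
  have c1 : Q1 e x = q1 e (cl r1 x) := rfl
  have c2 : Q2 e x = q2 e (cl r1 x) := rfl
  rw [c1, c2]
  linarith

theorem E_eq (e : ℝ) (x : E2) :
    -(4 * vpsi e (cx x) (sx x) ^ 2 * vh e (cx x) (sx x))
      + 12 * vh e (cx x) (sx x) * (g0 (vpsic e) (vpsis e) x ^ 2 + g1 (vpsic e) (vpsis e) x ^ 2)
      + 12 * vpsi e (cx x) (sx x) * (g0 (vpsic e) (vpsis e) x * g0 (vhc e) (vhs e) x
        + g1 (vpsic e) (vpsis e) x * g1 (vhc e) (vhs e) x)
      + 2 * vpsi e (cx x) (sx x) ^ 2 *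
        (g00 (vhc e) (vhs e) (vhcc e) (vhsc e) (vhss e) x
          + g11 (vhc e) (vhs e) (vhcc e) (vhsc e) (vhss e) x)
      = vE e (cx x) (sx x) := by
  have h1 : g0 (vpsic e) (vpsis e) x ^ 2 + g1 (vpsic e) (vpsis e) x ^ 2 =
      g0 (vpsic e) (vpsis e) x * g0 (vpsic e) (vpsis e) x
        + g1 (vpsic e) (vpsis e) x * g1 (vpsic e) (vpsis e) x := by ring
  rw [h1, dot_eq, dot_eq, lap_eq]
  unfold vE Ev vpsi vpsis vpsic vh vhs vhc vhss vhsc vhcc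
  ring

/-- continuity of the pulled back functions -/
private theorem k0 : Continuous (fun p : ℝ × E2 => p.2 0) := by fun_prop
private theorem k1 : Continuous (fun p : ℝ × E2 => p.2 1) := by fun_prop

private theorem cont_pull' {f : ℝ × ℝ × ℝ → ℝ} (hf : Continuous f) :
    ContinuousOn (fun p : ℝ × E2 => f (p.1, cx p.2, sx p.2)) Dm :=
  cont_pull hf.continuousOn

theorem data_bound : ∃ M : ℝ, 0 ≤ M ∧ ∀ e ∈ Icc (0 : ℝ) (3 / 10), ∀ x : E2, ‖x‖ ≤ r1 →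
    (|vpsi e (cx x) (sx x)| ≤ M ∧ |g0 (vpsic e) (vpsis e) x| ≤ M ∧
      |g1 (vpsic e) (vpsis e) x| ≤ M) ∧
    (|vh e (cx x) (sx x)| ≤ M ∧ |g0 (vhc e) (vhs e) x| ≤ M ∧ |g1 (vhc e) (vhs e) x| ≤ M) := by
  have a := cont_pull' cont_psi
  have as := cont_pull' cont_psis
  have ac := cont_pull' cont_psic
  have b := cont_pull cont_h
  have bs := cont_pull cont_hs
  have bc := cont_pull cont_hc
  obtain ⟨M1, p1, h1⟩ := bound_of_cont a
  obtain ⟨M2, p2, h2⟩ := bound_of_cont (((k0.div_const 2).continuousOn).mul (as.add ac))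
  obtain ⟨M3, p3, h3⟩ := bound_of_cont (((k1.div_const 2).continuousOn).mul (as.sub ac))
  obtain ⟨M4, p4, h4⟩ := bound_of_cont b
  obtain ⟨M5, p5, h5⟩ := bound_of_cont (((k0.div_const 2).continuousOn).mul (bs.add bc))
  obtain ⟨M6, p6, h6⟩ := bound_of_cont (((k1.div_const 2).continuousOn).mul (bs.sub bc))
  refine ⟨M1 + M2 + M3 + M4 + M5 + M6, by positivity, fun e he x hx =>
    ⟨⟨?_, ?_, ?_⟩, ?_, ?_, ?_⟩⟩
  · have := h1 e he x hx
    linarith
  · have : |g0 (vpsic e) (vpsis e) x| ≤ M2 := h2 e he x hx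
    linarith
  · have : |g1 (vpsic e) (vpsis e) x| ≤ M3 := h3 e he x hx
    linarith
  · have := h4 e he x hx
    linarith
  · have : |g0 (vhc e) (vhs e) x| ≤ M5 := h5 e he x hx
    linarith
  · have : |g1 (vhc e) (vhs e) x| ≤ M6 := h6 e he x hx
    linarith

/-- restriction to a fixed parameter -/
theorem cont_fix {f : ℝ × E2 → ℝ} (hf : ContinuousOn f Dm) (e : ℝ) :
    ContinuousOn (fun x : E2 => f (e, x)) (Metric.ball 0 (14 / 5)) := by
  have h1 : Continuous (fun x : E2 => ((e, x) : ℝ × E2)) := by fun_prop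
  refine hf.comp h1.continuousOn (fun x hx => ?_)
  show ‖x‖ < 14 / 5
  simpa using hx

theorem cert_ND : ∃ K : ℝ, ∀ e ∈ Icc (0 : ℝ) (3 / 10),
    Cert K (Fp (alE e) (beE e) 1 (Q1 e) (Q2 e)) := by
  obtain ⟨M, hM0, hM⟩ := data_bound
  obtain ⟨L, hL⟩ := path_ND.lip
  refine ⟨200 * M ^ 3, fun e he => ?_⟩
  have hsx : ∀ x : E2, ‖x‖ < 14 / 5 → |sx x| < 2 := fun x hx => abs_sx_lt hx
  have as := cont_pull' cont_psis
  have ac := cont_pull' cont_psic
  have ass := cont_pull' cont_psiss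
  have asc := cont_pull' cont_psisc
  have acc := cont_pull' cont_psicc
  have bs := cont_pull cont_hs
  have bc := cont_pull cont_hc
  have bss := cont_pull cont_hss
  have bsc := cont_pull cont_hsc
  have bcc := cont_pull cont_hcc
  have hc00 : Continuous (fun p : ℝ × E2 => p.2 0 ^ 2 / 4) := (k0.pow 2).div_const 4
  have hc11 : Continuous (fun p : ℝ × E2 => p.2 1 ^ 2 / 4) := (k1.pow 2).div_const 4
  have hc01 : Continuous (fun p : ℝ × E2 => p.2 0 * p.2 1 / 4) := (k0.mul k1).div_const 4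
  have two : Continuous (fun _ : ℝ × E2 => (2 : ℝ)) := continuous_const
  refine cert_geo (r1 := r1) (r2 := 14 / 5) r1_pos r1_lt hM0
    (ψ := fun y => vpsi e (cx y) (sx y))
    (ψ0 := g0 (vpsic e) (vpsis e)) (ψ1 := g1 (vpsic e) (vpsis e))
    (ψ00 := g00 (vpsic e) (vpsis e) (fun _ s => vpsicc e s) (vpsisc e) (vpsiss e))
    (ψ01 := g01 (fun _ s => vpsicc e s) (vpsiss e))
    (ψ11 := g11 (vpsic e) (vpsis e) (fun _ s => vpsicc e s) (vpsisc e) (vpsiss e))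
    (h := fun y => vh e (cx y) (sx y))
    (h0 := g0 (vhc e) (vhs e)) (h1 := g1 (vhc e) (vhs e))
    (h00 := g00 (vhc e) (vhs e) (vhcc e) (vhsc e) (vhss e))
    (h01 := g01 (vhcc e) (vhss e))
    (h11 := g11 (vhc e) (vhs e) (vhcc e) (vhsc e) (vhss e))
    ?_ ?_ ?_ ?_ ?_ ?_ ?_ ?_ ?_ ?_ ?_ ?_ ?_ ?_ ?_ ?_ ?_ ?_ ?_ ?_ ?_
  · exact fun x _ => pull_f (pd_psi e (cx x) (sx x))
  · exact fun x _ => pull_0 (pd_psic e (cx x) (sx x)) (pd_psis e (cx x) (sx x))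
  · exact fun x _ => pull_1 (pd_psic e (cx x) (sx x)) (pd_psis e (cx x) (sx x))
  · exact fun x hx => pull_f (pd_h (hsx x hx))
  · exact fun x hx => pull_0 (pd_hc (hsx x hx)) (pd_hs (hsx x hx))
  · exact fun x hx => pull_1 (pd_hc (hsx x hx)) (pd_hs (hsx x hx))
  · exact cont_fix (((as.add ac).div_const 2).add
      (hc00.continuousOn.mul ((ass.add (two.continuousOn.mul asc)).add acc))) e
  · exact cont_fix (hc01.continuousOn.mul (ass.sub acc)) e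
  · exact cont_fix (((as.sub ac).div_const 2).add
      (hc11.continuousOn.mul ((ass.sub (two.continuousOn.mul asc)).add acc))) e
  · exact cont_fix (((bs.add bc).div_const 2).add
      (hc00.continuousOn.mul ((bss.add (two.continuousOn.mul bsc)).add bcc))) e
  · exact cont_fix (hc01.continuousOn.mul (bss.sub bcc)) e
  · exact cont_fix (((bs.sub bc).div_const 2).add
      (hc11.continuousOn.mul ((bss.sub (two.continuousOn.mul bsc)).add bcc))) e
  · exact fun x hx => (hM e he x hx).1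
  · exact fun x hx => (hM e he x hx).2
  · intro x _
    rw [lap_eq]
    exact helm e (cx x) (sx x)
  · exact fun x hx => h_pos he.1 he.2 (sx_nonneg x) (sx_le_S1 hx) (abs_cx_le x)
  · intro x hx
    show vpsi e (cx x) (sx x) ≤ 0
    have hs : sx x = S1 := sx_of_r1 hx
    rw [hs]
    exact psi_out he.1 he.2 (hs ▸ abs_cx_le x)
  · exact Wt_Fp (hL e he).1 (hL e he).2
  · intro x hx _
    show _ ≤ Fp (alE e) (beE e) 1 (Q1 e) (Q2 e) x
    rw [F_in hx]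
    have h1 := W_sub_E (e := e) (c := cx x) (hsx x (hx.trans r1_lt))
    have h2 := pos_R he.1 he.2 (sx_nonneg x) (sx_le_S1 hx.le) (abs_cx_le x)
    have h3 : 0 ≤ e ^ 2 * vR e (cx x) (sx x) := mul_nonneg (sq_nonneg e) h2
    have h4 := E_eq e x
    show _ ≤ vW e (cx x) (sx x)
    linarith
  · intro x hx hp
    show 0 ≤ Fp (alE e) (beE e) 1 (Q1 e) (Q2 e) x
    rw [F_in hx]
    have hs : 23 / 20 ≤ sx x := by
      by_contra hcon
      have := psi_in he.1 he.2 (sx_nonneg x) (not_le.1 hcon).le (abs_cx_le x)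
      exact absurd hp (not_le.2 this)
    exact W_ann he.1 he.2 hs (sx_le_S1 hx.le) (abs_cx_le x)
  · intro x hx
    have hn : ‖cl r1 x‖ = r1 := norm_cl r1_pos hx.le
    have hs : sx (cl r1 x) = S1 := sx_of_r1 hn
    have h1 := out_pos he.1 he.2 (c := cx (cl r1 x)) (hs ▸ abs_cx_le (cl r1 x))
    exact h1.trans (F_far hx)

end Pool.Agent.PPW.ND
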