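import Pool.Agent.Lib.MP_eb7570_an.CertLem
import Pool.Agent.Lib.MP_eb7570_an.Node.Lip

set_option autoImplicit false

/-!
MP_eb7570_an, near disk part: general geometry (owner: helper91).

`cert_geo`: certificate `v = 4 ψ₊² h`, `U_i = 8 ψ₊ h ψ_i + 2 ψ₊² h_i`, `q = 4 h (ψ₀² + ψ₁²)` on
`{‖x‖ ≤ r1, ψ > 0}`, all zero elsewhere. `|U - ∇v/2|² = 16 ψ² h² |∇ψ|² = v q`, and on `{ψ > 0}`
`v + div U + q = -4ψ²h + 12 h|∇ψ|² + 12 ψ ∇ψ·∇h + 2 ψ² Δh` by `Δψ = -ψ`. On `{ψ < 0}`: all zero. At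
points of `{ψ = 0}` inside the ball `pd i U_i = 0` or use the a.e. statement `pd i u = 0` a.e. on
`{u = 0}` (density points), so `v + div U + q = 0 ≤ F` a.e. there; the circle `‖x‖ = r1` is null.
Lipschitz constants of `v`: `|∇v| ≤ 24 M³`, `v ≤ 4 M³`. The `U_i` are Lipschitz with some constant
(second derivatives are continuous on the compact ball). The functions vanish on `‖x‖ = r1`
(`ψ ≤ 0` there), so the zero extension is Lipschitz (`lipschitz_zext` in Node/Lip).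
-/

open MeasureTheory Filter Topology Metric Set

namespace Pool.Agent.PPW

/-- the linear form `a dx₀ + b dx₁` -/
noncomputable def lf (a b : ℝ) : E2 →L[ℝ] ℝ :=
  a • (EuclideanSpace.proj (𝕜 := ℝ) (0 : Fin 2)) + b • (EuclideanSpace.proj (𝕜 := ℝ) (1 : Fin 2))

/-- radial clamp on the closed ball of radius `r` -/
noncomputable def cl (r : ℝ) (x : E2) : E2 := (max 1 (‖x‖ / r))⁻¹ • x

/-- `s = |x|²/4`, `c = (x₀² - x₁²)/4` -/
noncomputable def sx (x : E2) : ℝ := (x 0 ^ 2 + x 1 ^ 2) / 4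

noncomputable def cx (x : E2) : ℝ := (x 0 ^ 2 - x 1 ^ 2) / 4

/-! ### Cut-off (My general lemmas) -/

/-- `f` where `ψ > 0` in the closed disk of radius `r`, zero elsewhere. -/
noncomputable def cut (r : ℝ) (ψ f : E2 → ℝ) (x : E2) : ℝ :=
  open scoped Classical in if ‖x‖ ≤ r ∧ 0 < ψ x then f x else 0

theorem cut_in {r : ℝ} {ψ f : E2 → ℝ} {x : E2} (hx : ‖x‖ ≤ r) (hp : 0 < ψ x) :
    cut r ψ f x = f x := by
  unfold cut
  rw [if_pos ⟨hx, hp⟩]

theorem cut_out {r : ℝ} {ψ f : E2 → ℝ} {x : E2} (h : r < ‖x‖ ∨ ψ x ≤ 0) :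
    cut r ψ f x = 0 := by
  unfold cut
  rw [if_neg]
  rintro ⟨h1, h2⟩
  rcases h with h | h
  · exact absurd h1 (not_le.2 h)
  · exact absurd h2 (not_lt.2 h)

/-- On the segment from a point of the positive region to a point outside there is a zero. -/
private theorem exists_zero {r : ℝ} {ψ : E2 → ℝ} (hψ : ContinuousOn ψ (closedBall 0 r))
    (hout : ∀ x, ‖x‖ = r → ψ x ≤ 0) {x y : E2} (hx : ‖x‖ ≤ r) (hpx : 0 < ψ x)
    (hy : r < ‖y‖ ∨ ψ y ≤ 0) : ∃ z, ‖z‖ ≤ r ∧ ψ z = 0 ∧ dist x z ≤ dist x y := by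
  have hlm : ∀ t : ℝ, t ∈ Icc (0 : ℝ) 1 → dist x (AffineMap.lineMap x y t) ≤ dist x y := by
    intro t ht
    rw [dist_left_lineMap, Real.norm_eq_abs, abs_of_nonneg ht.1]
    exact mul_le_of_le_one_left dist_nonneg ht.2
  -- a point of the closed disk on the segment with ψ ≤ 0
  obtain ⟨t0, ht0, hn0, hp0⟩ : ∃ t0 ∈ Icc (0 : ℝ) 1, ‖(AffineMap.lineMap x y t0 : E2)‖ ≤ r ∧
      ψ (AffineMap.lineMap x y t0) ≤ 0 := by
    by_cases hyr : ‖y‖ ≤ r
    · refine ⟨1, ⟨zero_le_one, le_rfl⟩, ?_, ?_⟩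
      · rw [AffineMap.lineMap_apply_one]
        exact hyr
      · rw [AffineMap.lineMap_apply_one]
        exact hy.resolve_left (not_lt.2 hyr)
    · push Not at hyr
      have hc : Continuous fun t : ℝ => ‖(AffineMap.lineMap x y t : E2)‖ :=
        continuous_norm.comp AffineMap.lineMap_continuous
      have h1 := intermediate_value_Icc (zero_le_one' ℝ) hc.continuousOn
      simp only [AffineMap.lineMap_apply_zero, AffineMap.lineMap_apply_one] at h1
      obtain ⟨t, ht, hte⟩ := h1 ⟨hx, hyr.le⟩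
      exact ⟨t, ht, hte.le, hout _ hte⟩
  -- the whole segment up to t0 stays in the closed disk
  have hball : ∀ t ∈ Icc (0 : ℝ) t0, (AffineMap.lineMap x y t : E2) ∈ closedBall (0 : E2) r := by
    intro t ht
    have hconv : Convex ℝ (closedBall (0 : E2) r) := convex_closedBall 0 r
    rcases eq_or_lt_of_le ht0.1 with h0 | h0
    · have ht' : t = 0 := le_antisymm (by rw [h0]; exact ht.2) ht.1
      rw [ht', AffineMap.lineMap_apply_zero, mem_closedBall, dist_zero_right]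
      exact hx
    · have hxm : x ∈ closedBall (0 : E2) r := by
        rw [mem_closedBall, dist_zero_right]
        exact hx
      have hzm : (AffineMap.lineMap x y t0 : E2) ∈ closedBall (0 : E2) r := by
        rw [mem_closedBall, dist_zero_right]
        exact hn0
      have h2 : (AffineMap.lineMap x y t : E2) =
          AffineMap.lineMap x (AffineMap.lineMap x y t0 : E2) (t / t0) := by
        simp only [AffineMap.lineMap_apply_module']
        rw [add_sub_cancel_right, smul_smul, div_mul_cancel₀ _ h0.ne']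
      rw [h2]
      exact hconv.lineMap_mem hxm hzm ⟨div_nonneg ht.1 h0.le, (div_le_one h0).2 ht.2⟩
  have hcont : ContinuousOn (fun t : ℝ => ψ (AffineMap.lineMap x y t)) (Icc 0 t0) :=
    hψ.comp (AffineMap.lineMap_continuous).continuousOn hball
  have h3 := intermediate_value_Icc' ht0.1 hcont
  simp only [AffineMap.lineMap_apply_zero] at h3
  obtain ⟨t, ht, hte⟩ := h3 ⟨hp0, hpx.le⟩
  refine ⟨AffineMap.lineMap x y t, ?_, hte, hlm t ⟨ht.1, ht.2.trans ht0.2⟩⟩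
  have := hball t ht
  rwa [mem_closedBall, dist_zero_right] at this

/-- The cut-off of a function which is Lipschitz on the closed disk and vanishes with `ψ`. -/
theorem cut_lip_on {r : ℝ} {ψ f : E2 → ℝ} {L : NNReal}
    (hf : LipschitzOnWith L f (closedBall 0 r)) (hψ : ContinuousOn ψ (closedBall 0 r))
    (h0 : ∀ x, ‖x‖ ≤ r → ψ x = 0 → f x = 0) (hout : ∀ x, ‖x‖ = r → ψ x ≤ 0) :
    LipschitzWith L (cut r ψ f) := by
  apply LipschitzWith.of_dist_le_mul
  have hm : ∀ x : E2, ‖x‖ ≤ r → x ∈ closedBall (0 : E2) r := by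
    intro x hx
    rw [mem_closedBall, dist_zero_right]
    exact hx
  -- one point inside, one outside
  have key : ∀ x y : E2, (‖x‖ ≤ r ∧ 0 < ψ x) → (r < ‖y‖ ∨ ψ y ≤ 0) →
      dist (cut r ψ f x) (cut r ψ f y) ≤ L * dist x y := by
    intro x y hx hy
    rw [cut_in hx.1 hx.2, cut_out hy]
    obtain ⟨z, hz, hz0, hzd⟩ := exists_zero hψ hout hx.1 hx.2 hy
    have h1 := hf.dist_le_mul x (hm x hx.1) z (hm z hz)
    rw [h0 z hz hz0] at h1
    exact h1.trans (mul_le_mul_of_nonneg_left hzd L.coe_nonneg)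
  intro x y
  by_cases hx : ‖x‖ ≤ r ∧ 0 < ψ x
  · by_cases hy : ‖y‖ ≤ r ∧ 0 < ψ y
    · rw [cut_in hx.1 hx.2, cut_in hy.1 hy.2]
      exact hf.dist_le_mul x (hm x hx.1) y (hm y hy.1)
    · have hy' : r < ‖y‖ ∨ ψ y ≤ 0 := by
        by_contra h
        push Not at h
        exact hy h
      exact key x y hx hy'
  · have hx' : r < ‖x‖ ∨ ψ x ≤ 0 := by
      by_contra h
      push Not at h
      exact hx h
    by_cases hy : ‖y‖ ≤ r ∧ 0 < ψ y
    · rw [dist_comm, dist_comm x y]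
      exact key y x hy hx'
    · have hy' : r < ‖y‖ ∨ ψ y ≤ 0 := by
        by_contra h
        push Not at h
        exact hy h
      rw [cut_out hx', cut_out hy', dist_self]
      positivity

/-- Lipschitz on the closed disk from a bound of the derivative. -/
theorem lipOn_of_fderiv {r : ℝ} {f : E2 → ℝ} {f' : E2 → E2 →L[ℝ] ℝ} {L : NNReal}
    (hf : ∀ x, ‖x‖ ≤ r → HasFDerivAt f (f' x) x) (hL : ∀ x, ‖x‖ ≤ r → ‖f' x‖ ≤ L) :
    LipschitzOnWith L f (closedBall 0 r) := by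
  refine (convex_closedBall (0 : E2) r).lipschitzOnWith_of_nnnorm_hasFDerivWithin_le
    (f' := f') (fun x hx => ?_) ?_
  · rw [mem_closedBall, dist_zero_right] at hx
    exact (hf x hx).hasFDerivWithinAt
  · intro x hx
    rw [mem_closedBall, dist_zero_right] at hx
    exact_mod_cast hL x hx

/-- Operator norm from the partial derivatives. -/
theorem clm_norm_le {T : E2 →L[ℝ] ℝ} {M : ℝ} (h0 : |T (ev 0)| ≤ M) (h1 : |T (ev 1)| ≤ M) :
    ‖T‖ ≤ 2 * M := by
  have hM : 0 ≤ M := (abs_nonneg _).trans h0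
  have h := norm_clm_sq T
  have a0 : T (ev 0) ^ 2 ≤ M ^ 2 := by
    rw [← sq_abs]
    exact pow_le_pow_left₀ (abs_nonneg _) h0 2
  have a1 : T (ev 1) ^ 2 ≤ M ^ 2 := by
    rw [← sq_abs]
    exact pow_le_pow_left₀ (abs_nonneg _) h1 2
  have h2 : ‖T‖ ^ 2 ≤ (2 * M) ^ 2 := by nlinarith [sq_nonneg M]
  exact le_of_sq_le_sq h2 (by positivity)

/-- `T` applied to the coordinate vectors. -/
theorem pd_of_hasFDerivAt {f : E2 → ℝ} {T : E2 →L[ℝ] ℝ} {x : E2} (h : HasFDerivAt f T x)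
    (i : Fin 2) : pd i f x = T (ev i) := by
  have h1 := h.hasLineDerivAt (ev i)
  exact h1.lineDeriv

theorem cut_pd_in {r : ℝ} {ψ f : E2 → ℝ} {x : E2} (hx : ‖x‖ < r) (hp : 0 < ψ x)
    (hc : ContinuousAt ψ x) (i : Fin 2) : pd i (cut r ψ f) x = pd i f x := by
  unfold pd
  apply Filter.EventuallyEq.lineDeriv_eq
  have h1 : {y : E2 | ‖y‖ < r} ∈ 𝓝 x := (isOpen_lt continuous_norm continuous_const).mem_nhds hx
  filter_upwards [h1, hc.eventually (lt_mem_nhds hp)] with y hy1 hy2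
  exact cut_in (le_of_lt hy1) hy2

theorem cut_pd_far {r : ℝ} {ψ f : E2 → ℝ} {x : E2} (hx : r < ‖x‖) (i : Fin 2) :
    pd i (cut r ψ f) x = 0 := by
  have h1 : {y : E2 | r < ‖y‖} ∈ 𝓝 x := (isOpen_lt continuous_const continuous_norm).mem_nhds hx
  have h2 : cut r ψ f =ᶠ[𝓝 x] fun _ => (0 : ℝ) := by
    filter_upwards [h1] with y hy
    exact cut_out (Or.inl hy)
  unfold pd
  rw [Filter.EventuallyEq.lineDeriv_eq h2]
  have h3 : HasLineDerivAt ℝ (fun _ : E2 => (0 : ℝ)) 0 x (ev i) := by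
    unfold HasLineDerivAt
    exact hasDerivAt_const _ _
  exact h3.lineDeriv

theorem cut_pd_neg {r : ℝ} {ψ f : E2 → ℝ} {x : E2} (hp : ψ x < 0) (hc : ContinuousAt ψ x)
    (i : Fin 2) : pd i (cut r ψ f) x = 0 := by
  have h2 : cut r ψ f =ᶠ[𝓝 x] fun _ => (0 : ℝ) := by
    filter_upwards [hc.eventually (gt_mem_nhds hp)] with y hy
    exact cut_out (Or.inr (le_of_lt hy))
  unfold pd
  rw [Filter.EventuallyEq.lineDeriv_eq h2]
  have h3 : HasLineDerivAt ℝ (fun _ : E2 => (0 : ℝ)) 0 x (ev i) := by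
    unfold HasLineDerivAt
    exact hasDerivAt_const _ _
  exact h3.lineDeriv

/-- one dimensional core: a cut-off at a zero of the level function has derivative zero or none -/
private theorem deriv_cut_zero {g ψ w : ℝ → ℝ} {d : ℝ} (hψ : HasDerivAt ψ d 0) (h0 : ψ 0 = 0)
    (hw : ContinuousAt w 0)
    (hg : ∀ᶠ t in 𝓝 (0 : ℝ), (0 < ψ t → g t = ψ t * w t) ∧ (ψ t ≤ 0 → g t = 0)) :
    deriv g 0 = 0 := by
  by_cases hdiff : DifferentiableAt ℝ g 0
  · have hg0 : g 0 = 0 := hg.self_of_nhds.2 h0.le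
    have hd := hdiff.hasDerivAt
    have hslope := hasDerivAt_iff_tendsto_slope.1 hd
    -- the slope of ψ
    have hψs := hasDerivAt_iff_tendsto_slope.1 hψ
    by_cases hdz : d * w 0 = 0
    · -- |slope g| ≤ |slope ψ * w|
      have hprod : Tendsto (fun t => slope ψ 0 t * w t) (𝓝[≠] 0) (𝓝 (d * w 0)) :=
        hψs.mul (hw.tendsto.mono_left nhdsWithin_le_nhds)
      rw [hdz] at hprod
      have h1 : Tendsto (slope g 0) (𝓝[≠] 0) (𝓝 0) := by
        have hnorm : Tendsto (fun t => ‖slope ψ 0 t * w t‖) (𝓝[≠] 0) (𝓝 0) := by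
          have h := hprod.norm
          rw [norm_zero] at h
          exact h
        refine squeeze_zero_norm' ?_ hnorm
        have hg' : ∀ᶠ t in 𝓝[≠] (0 : ℝ), (0 < ψ t → g t = ψ t * w t) ∧ (ψ t ≤ 0 → g t = 0) :=
          hg.filter_mono nhdsWithin_le_nhds
        filter_upwards [hg'] with t ht
        rw [slope_def_field, slope_def_field, hg0, h0, sub_zero, sub_zero, sub_zero]
        rcases lt_or_ge 0 (ψ t) with h | h
        · rw [ht.1 h]
          apply le_of_eq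
          congr 1
          exact mul_div_right_comm _ _ _
        · rw [ht.2 h, zero_div, norm_zero]
          exact norm_nonneg _
      exact tendsto_nhds_unique hslope h1
    · -- one of the one sided derivatives is zero
      have hd0 : d ≠ 0 := left_ne_zero_of_mul hdz
      have hsub : ∀ s : Set ℝ, (∀ᶠ t in 𝓝[s] (0 : ℝ), t ≠ 0 ∧ g t = 0) → (𝓝[s] (0 : ℝ)).NeBot →
          deriv g 0 = 0 := by
        intro s hs hne
        have h2 : 𝓝[s] (0 : ℝ) ≤ 𝓝[≠] 0 := by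
          rw [nhdsWithin, nhdsWithin]
          refine le_inf ((inf_le_left)) ?_
          rw [le_principal_iff]
          filter_upwards [hs] with t ht
          exact ht.1
        have h3 : Tendsto (slope g 0) (𝓝[s] 0) (𝓝 (deriv g 0)) := hslope.mono_left h2
        have h4 : Tendsto (slope g 0) (𝓝[s] 0) (𝓝 0) := by
          refine (tendsto_const_nhds (x := (0 : ℝ))).congr' ?_
          filter_upwards [hs] with t ht
          rw [slope_def_field, hg0, ht.2]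
          simp
        exact tendsto_nhds_unique h3 h4
      rcases lt_or_gt_of_ne hd0 with hneg | hpos
      · -- ψ < 0 on the right
        apply hsub (Ioi 0) _ inferInstance
        have h5 : ∀ᶠ t in 𝓝[>] (0 : ℝ), slope ψ 0 t < 0 :=
          (hψs.mono_left (nhdsWithin_mono _ fun t ht => ne_of_gt ht)).eventually
            (gt_mem_nhds hneg)
        filter_upwards [h5, hg.filter_mono nhdsWithin_le_nhds, self_mem_nhdsWithin] with t a b c
        refine ⟨ne_of_gt c, b.2 ?_⟩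
        rw [slope_def_field, h0, sub_zero, sub_zero] at a
        have hc : (0 : ℝ) < t := c
        have := (div_neg_iff.1 a)
        rcases this with ⟨_, h⟩ | ⟨h, _⟩
        · linarith
        · exact h.le
      · -- ψ < 0 on the left
        apply hsub (Iio 0) _ inferInstance
        have h5 : ∀ᶠ t in 𝓝[<] (0 : ℝ), 0 < slope ψ 0 t :=
          (hψs.mono_left (nhdsWithin_mono _ fun t ht => ne_of_lt ht)).eventually
            (lt_mem_nhds hpos)
        filter_upwards [h5, hg.filter_mono nhdsWithin_le_nhds, self_mem_nhdsWithin] with t a b c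
        refine ⟨ne_of_lt c, b.2 ?_⟩
        rw [slope_def_field, h0, sub_zero, sub_zero] at a
        have hc : t < (0 : ℝ) := c
        have := (div_pos_iff.1 a)
        rcases this with ⟨_, h⟩ | ⟨h, _⟩
        · linarith
        · exact h.le
  · exact deriv_zero_of_not_differentiableAt hdiff

/-- On the nodal line the partial derivatives of the cut-off are zero. -/
theorem cut_pd_zero {r : ℝ} {ψ w : E2 → ℝ} {x : E2} (hx : ‖x‖ < r) (h0 : ψ x = 0)
    (hψ : DifferentiableAt ℝ ψ x) (hw : ContinuousAt w x) (i : Fin 2) :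
    pd i (cut r ψ (fun y => ψ y * w y)) x = 0 := by
  unfold pd lineDeriv
  have hline : ContinuousAt (fun t : ℝ => x + t • ev i) 0 := by fun_prop
  have hx0 : x + (0 : ℝ) • ev i = x := by rw [zero_smul, add_zero]
  have hψd : HasDerivAt (fun t : ℝ => ψ (x + t • ev i)) (pd i ψ x) 0 := by
    have h1 := hψ.hasFDerivAt.hasLineDerivAt (ev i)
    unfold HasLineDerivAt at h1
    rw [← hψ.lineDeriv_eq_fderiv] at h1
    exact h1
  refine deriv_cut_zero (ψ := fun t : ℝ => ψ (x + t • ev i))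
    (w := fun t : ℝ => w (x + t • ev i)) hψd (by rw [hx0]; exact h0) ?_ ?_
  · have hw' : ContinuousAt w (x + (0 : ℝ) • ev i) := by rw [hx0]; exact hw
    exact ContinuousAt.comp (f := fun t : ℝ => x + t • ev i) (g := w) hw' hline
  · have h1 : {y : E2 | ‖y‖ < r} ∈ 𝓝 (x + (0 : ℝ) • ev i) := by
      rw [hx0]
      exact (isOpen_lt continuous_norm continuous_const).mem_nhds hx
    filter_upwards [hline.eventually h1] with t ht
    have ht' : ‖x + t • ev i‖ < r := ht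
    exact ⟨fun h => cut_in (le_of_lt ht') h, fun h => cut_out (Or.inr h)⟩

/-- The circle is a null set. -/
theorem ae_norm_ne (r : ℝ) (hr : r ≠ 0) : ∀ᵐ x ∂(volume : Measure E2), ‖x‖ ≠ r := by
  have h := Measure.addHaar_sphere_of_ne_zero (volume : Measure E2) (0 : E2) hr
  rw [ae_iff]
  refine measure_mono_null ?_ h
  intro x hx
  have hx : ‖x‖ = r := not_not.1 hx
  rw [mem_sphere, dist_zero_right]
  exact hx

/-! ### Radial clamp -/

theorem cl_of_le {r : ℝ} (hr : 0 < r) {x : E2} (h : ‖x‖ ≤ r) : cl r x = x := by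
  unfold cl
  rw [max_eq_left ((div_le_one hr).2 h), inv_one, one_smul]

theorem cl_of_ge {r : ℝ} (hr : 0 < r) {x : E2} (h : r ≤ ‖x‖) : cl r x = (r / ‖x‖) • x := by
  unfold cl
  rw [max_eq_right ((one_le_div hr).2 h), inv_div]

theorem cl_norm_of_ge {r : ℝ} (hr : 0 < r) {x : E2} (h : r ≤ ‖x‖) : ‖cl r x‖ = r := by
  have h1 : 0 < ‖x‖ := lt_of_lt_of_le hr h
  rw [cl_of_ge hr h, norm_smul, Real.norm_eq_abs, abs_of_pos (div_pos hr h1)]
  exact div_mul_cancel₀ r h1.ne'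

theorem cl_norm_le {r : ℝ} (hr : 0 < r) (x : E2) : ‖cl r x‖ ≤ r := by
  rcases le_total ‖x‖ r with h | h
  · rw [cl_of_le hr h]
    exact h
  · exact (cl_norm_of_ge hr h).le

theorem cl_neg (r : ℝ) (x : E2) : cl r (-x) = - cl r x := by
  unfold cl
  rw [norm_neg, smul_neg]

private theorem cl_io {r : ℝ} (hr : 0 < r) {x y : E2} (hx : ‖x‖ ≤ r) (hy : r ≤ ‖y‖) :
    dist (cl r x) (cl r y) ≤ 2 * dist x y := by
  have h1 : 0 < ‖y‖ := lt_of_lt_of_le hr hy
  rw [cl_of_le hr hx, cl_of_ge hr hy, dist_eq_norm, dist_eq_norm]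
  have e : x - (r / ‖y‖) • y = (x - y) + (1 - r / ‖y‖) • y := by
    rw [sub_smul, one_smul]
    abel
  have h2 : ‖(1 - r / ‖y‖) • y‖ = ‖y‖ - r := by
    rw [norm_smul, Real.norm_eq_abs, abs_of_nonneg (sub_nonneg.2 ((div_le_one h1).2 hy)),
      sub_mul, one_mul, div_mul_cancel₀ r h1.ne']
  have h3 : ‖y‖ - r ≤ ‖x - y‖ := by
    have h4 := norm_sub_norm_le y x
    rw [norm_sub_rev] at h4
    linarith
  rw [e]
  refine (norm_add_le _ _).trans ?_
  rw [h2]
  linarith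

/-- The clamp is Lipschitz. -/
theorem cl_lip {r : ℝ} (hr : 0 < r) : LipschitzWith 2 (cl r) := by
  apply LipschitzWith.of_dist_le_mul
  intro x y
  show dist (cl r x) (cl r y) ≤ 2 * dist x y
  rcases le_total ‖x‖ r with hx | hx
  · rcases le_total ‖y‖ r with hy | hy
    · rw [cl_of_le hr hx, cl_of_le hr hy]
      linarith [dist_nonneg (x := x) (y := y)]
    · exact cl_io hr hx hy
  · rcases le_total ‖y‖ r with hy | hy
    · rw [dist_comm, dist_comm x y]
      exact cl_io hr hy hx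
    · have h1 : 0 < ‖x‖ := lt_of_lt_of_le hr hx
      have h2 : 0 < ‖y‖ := lt_of_lt_of_le hr hy
      rw [cl_of_ge hr hx, cl_of_ge hr hy, dist_eq_norm, dist_eq_norm]
      have e : (r / ‖x‖) • x - (r / ‖y‖) • y =
          (r / ‖x‖) • (x - y) + (r / ‖x‖ - r / ‖y‖) • y := by
        rw [smul_sub, sub_smul]
        abel
      rw [e]
      refine (norm_add_le _ _).trans ?_
      have h3 : ‖(r / ‖x‖) • (x - y)‖ ≤ ‖x - y‖ := by
        rw [norm_smul, Real.norm_eq_abs, abs_of_pos (div_pos hr h1)]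
        exact mul_le_of_le_one_left (norm_nonneg _) ((div_le_one h1).2 hx)
      have h4 : ‖(r / ‖x‖ - r / ‖y‖) • y‖ ≤ ‖x - y‖ := by
        rw [norm_smul, Real.norm_eq_abs]
        have e2 : r / ‖x‖ - r / ‖y‖ = (r / ‖x‖) * ((‖y‖ - ‖x‖) / ‖y‖) := by
          field_simp
        rw [e2, abs_mul, abs_of_pos (div_pos hr h1), abs_div, abs_of_pos h2]
        have h5 : r / ‖x‖ * (|‖y‖ - ‖x‖| / ‖y‖) * ‖y‖ = r / ‖x‖ * |‖y‖ - ‖x‖| := by
          field_simp
        rw [h5]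
        have h6 : |‖y‖ - ‖x‖| ≤ ‖x - y‖ := by
          rw [abs_sub_comm]
          exact abs_norm_sub_norm_le x y
        calc r / ‖x‖ * |‖y‖ - ‖x‖| ≤ 1 * |‖y‖ - ‖x‖| :=
              mul_le_mul_of_nonneg_right ((div_le_one h1).2 hx) (abs_nonneg _)
          _ ≤ ‖x - y‖ := by rw [one_mul]; exact h6
      linarith

/-- Lipschitz functions composed with the clamp. -/
theorem lip_comp_cl {r : ℝ} (hr : 0 < r) {u : E2 → ℝ} {L : NNReal}
    (hu : LipschitzOnWith L u (closedBall 0 r)) : LipschitzWith (L * 2) (fun x => u (cl r x)) := by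
  apply LipschitzWith.of_dist_le_mul
  intro x y
  have hm : ∀ x : E2, cl r x ∈ closedBall (0 : E2) r := by
    intro x
    rw [mem_closedBall, dist_zero_right]
    exact cl_norm_le hr x
  have h1 := hu.dist_le_mul _ (hm x) _ (hm y)
  have h2 := (cl_lip hr).dist_le_mul x y
  refine h1.trans ?_
  rw [NNReal.coe_mul, mul_assoc]
  exact mul_le_mul_of_nonneg_left h2 L.coe_nonneg

/-- Inside the disk the clamp does nothing. -/
theorem pd_cl_in {r : ℝ} (hr : 0 < r) {u : E2 → ℝ} {x : E2} (hx : ‖x‖ < r) (i : Fin 2) :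
    pd i (fun y => u (cl r y)) x = pd i u x := by
  unfold pd
  apply Filter.EventuallyEq.lineDeriv_eq
  have h1 : {y : E2 | ‖y‖ < r} ∈ 𝓝 x := (isOpen_lt continuous_norm continuous_const).mem_nhds hx
  filter_upwards [h1] with y hy
  rw [cl_of_le hr (le_of_lt hy)]

private theorem cl_hasFDerivAt {r : ℝ} (hr : 0 < r) {x : E2} (hx : r < ‖x‖) :
    HasFDerivAt (cl r) ((r / ‖x‖) • ContinuousLinearMap.id ℝ E2 +
      ((-(r / ‖x‖ ^ 3)) • (innerSL ℝ x : E2 →L[ℝ] ℝ)).smulRight x) x := by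
  have hx0 : 0 < ‖x‖ := hr.trans hx
  have h1 : HasFDerivAt (fun y : E2 => ‖y‖ ^ 2) (2 • (innerSL ℝ x : E2 →L[ℝ] ℝ)) x :=
    (hasStrictFDerivAt_norm_sq x).hasFDerivAt
  have h2 : HasFDerivAt (fun y : E2 => ‖y‖) ((1 / (2 * ‖x‖)) • (2 • (innerSL ℝ x : E2 →L[ℝ] ℝ)))
      x := by
    have h3 := h1.sqrt (by positivity)
    simp only [Real.sqrt_sq (norm_nonneg _)] at h3
    exact h3
  have h4 : HasFDerivAt (fun y : E2 => r / ‖y‖) ((-(r / ‖x‖ ^ 3)) • (innerSL ℝ x : E2 →L[ℝ] ℝ))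
      x := by
    have h5 : HasFDerivAt (fun y : E2 => (fun t : ℝ => r / t) (‖y‖))
        ((-(r / ‖x‖ ^ 2)) • ((1 / (2 * ‖x‖)) • (2 • (innerSL ℝ x : E2 →L[ℝ] ℝ)))) x := by
      have h6 : HasDerivAt (fun t : ℝ => r / t) (-(r / ‖x‖ ^ 2)) ‖x‖ := by
        have h7 := (hasDerivAt_inv hx0.ne').const_mul r
        have h8 : (fun t : ℝ => r / t) = fun t : ℝ => r * t⁻¹ := by
          funext t
          exact div_eq_mul_inv r t
        rw [h8]
        refine h7.congr_deriv ?_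
        rw [div_eq_mul_inv]
        ring
      exact h6.comp_hasFDerivAt x h2
    refine h5.congr_fderiv ?_
    ext v
    simp only [ContinuousLinearMap.smul_apply, innerSL_apply_apply, smul_eq_mul, nsmul_eq_mul]
    push_cast
    field_simp
  have h9 := h4.smul (hasFDerivAt_id x)
  refine (h9.congr_of_eventuallyEq ?_)
  have h10 : {y : E2 | r < ‖y‖} ∈ 𝓝 x := (isOpen_lt continuous_const continuous_norm).mem_nhds hx
  filter_upwards [h10] with y hy
  exact cl_of_ge hr (le_of_lt hy)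

/-- Outside the disk only the tangential derivative survives. -/
private theorem gsq_cl_out_aux {r : ℝ} (hr : 0 < r) {u : E2 → ℝ} {x : E2} (hx : r < ‖x‖)
    (hu : DifferentiableAt ℝ u (cl r x)) :
    gsq (fun y => u (cl r y)) x = (r / ‖x‖) ^ 2 *
      (x 0 / ‖x‖ * pd 1 u (cl r x) - x 1 / ‖x‖ * pd 0 u (cl r x)) ^ 2 := by
  have hx0 : 0 < ‖x‖ := hr.trans hx
  have hn : ‖x‖ ^ 2 = x 0 ^ 2 + x 1 ^ 2 := by
    rw [EuclideanSpace.norm_sq_eq, Fin.sum_univ_two, Real.norm_eq_abs, Real.norm_eq_abs, sq_abs,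
      sq_abs]
  set T := fderiv ℝ u (cl r x) with hT
  have h1 : HasFDerivAt (fun y => u (cl r y)) (T.comp ((r / ‖x‖) • ContinuousLinearMap.id ℝ E2 +
      ((-(r / ‖x‖ ^ 3)) • (innerSL ℝ x : E2 →L[ℝ] ℝ)).smulRight x)) x :=
    HasFDerivAt.comp x hu.hasFDerivAt (cl_hasFDerivAt hr hx)
  have e0 : pd 0 u (cl r x) = T (ev 0) := pd_of_hasFDerivAt hu.hasFDerivAt 0
  have e1 : pd 1 u (cl r x) = T (ev 1) := pd_of_hasFDerivAt hu.hasFDerivAt 1
  have hTx : T x = x 0 * T (ev 0) + x 1 * T (ev 1) := by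
    have hx' : x = x 0 • ev 0 + x 1 • ev 1 := by
      ext j
      unfold ev
      fin_cases j <;> simp
    conv_lhs => rw [hx']
    rw [map_add, map_smul, map_smul, smul_eq_mul, smul_eq_mul]
  have hin : ∀ i : Fin 2, (innerSL ℝ x : E2 →L[ℝ] ℝ) (ev i) = x i := by
    intro i
    rw [innerSL_apply_apply]
    unfold ev
    rw [EuclideanSpace.inner_single_right]
    simp
  have hpd : ∀ i : Fin 2, pd i (fun y => u (cl r y)) x =
      (r / ‖x‖) * T (ev i) - (r / ‖x‖ ^ 3) * x i * (x 0 * T (ev 0) + x 1 * T (ev 1)) := by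
    intro i
    rw [pd_of_hasFDerivAt h1 i]
    simp only [ContinuousLinearMap.comp_apply, ContinuousLinearMap.add_apply,
      ContinuousLinearMap.smul_apply, ContinuousLinearMap.id_apply,
      ContinuousLinearMap.smulRight_apply, map_add, map_smul, smul_eq_mul, hin, hTx]
    ring
  unfold gsq
  rw [hpd, hpd, e0, e1]
  have hn3 : ‖x‖ ^ 3 = ‖x‖ * (x 0 ^ 2 + x 1 ^ 2) := by rw [← hn]; ring
  have hs : x 0 ^ 2 + x 1 ^ 2 ≠ 0 := by rw [← hn]; positivity
  rw [hn3]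
  have k0 : r / ‖x‖ * T (ev 0) - r / (‖x‖ * (x 0 ^ 2 + x 1 ^ 2)) * x 0 *
      (x 0 * T (ev 0) + x 1 * T (ev 1)) =
      (r / ‖x‖) * (x 1 * (x 1 * T (ev 0) - x 0 * T (ev 1)) / (x 0 ^ 2 + x 1 ^ 2)) := by
    field_simp
    ring
  have k1 : r / ‖x‖ * T (ev 1) - r / (‖x‖ * (x 0 ^ 2 + x 1 ^ 2)) * x 1 *
      (x 0 * T (ev 0) + x 1 * T (ev 1)) =
      (r / ‖x‖) * (x 0 * (x 0 * T (ev 1) - x 1 * T (ev 0)) / (x 0 ^ 2 + x 1 ^ 2)) := by
    field_simp
    ring
  rw [k0, k1]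
  have k2 : (x 0 / ‖x‖ * T (ev 1) - x 1 / ‖x‖ * T (ev 0)) ^ 2 =
      (x 0 * T (ev 1) - x 1 * T (ev 0)) ^ 2 / (x 0 ^ 2 + x 1 ^ 2) := by
    rw [← hn]
    field_simp
  rw [k2]
  field_simp
  ring

/-! ### The certificate -/

theorem lf_apply (a b : ℝ) (v : E2) : lf a b v = a * v 0 + b * v 1 := rfl

theorem lf_ev0 (a b : ℝ) : lf a b (ev 0) = a := by
  rw [lf_apply]
  unfold ev
  simp

theorem lf_ev1 (a b : ℝ) : lf a b (ev 1) = b := by
  rw [lf_apply]
  unfold ev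
  simp

theorem pd0_lf {f : E2 → ℝ} {a b : ℝ} {x : E2} (h : HasFDerivAt f (lf a b) x) :
    pd 0 f x = a := by
  rw [pd_of_hasFDerivAt h, lf_ev0]

theorem pd1_lf {f : E2 → ℝ} {a b : ℝ} {x : E2} (h : HasFDerivAt f (lf a b) x) :
    pd 1 f x = b := by
  rw [pd_of_hasFDerivAt h, lf_ev1]

private theorem lf_ext {T : E2 →L[ℝ] ℝ} {a b : ℝ} (h0 : T (ev 0) = a) (h1 : T (ev 1) = b) :
    T = lf a b := by
  ext v
  have hx' : v = v 0 • ev 0 + v 1 • ev 1 := by
    ext j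
    unfold ev
    fin_cases j <;> simp
  rw [lf_apply]
  conv_lhs => rw [hx']
  rw [map_add, map_smul, map_smul, smul_eq_mul, smul_eq_mul, h0, h1]
  ring

private theorem lf_mul {f g : E2 → ℝ} {a b c d : ℝ} {x : E2} (hf : HasFDerivAt f (lf a b) x)
    (hg : HasFDerivAt g (lf c d) x) :
    HasFDerivAt (fun y => f y * g y) (lf (a * g x + f x * c) (b * g x + f x * d)) x := by
  refine (hf.mul hg).congr_fderiv ?_
  ext v
  show f x * (lf c d v) + g x * (lf a b v) = lf (a * g x + f x * c) (b * g x + f x * d) v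
  rw [lf_apply, lf_apply, lf_apply]
  ring

private theorem lf_add {f g : E2 → ℝ} {a b c d : ℝ} {x : E2} (hf : HasFDerivAt f (lf a b) x)
    (hg : HasFDerivAt g (lf c d) x) :
    HasFDerivAt (fun y => f y + g y) (lf (a + c) (b + d)) x := by
  refine (hf.add hg).congr_fderiv ?_
  ext v
  show (lf a b v) + (lf c d v) = lf (a + c) (b + d) v
  rw [lf_apply, lf_apply, lf_apply]
  ring

private theorem lf_const_mul {f : E2 → ℝ} {a b : ℝ} {x : E2} (k : ℝ)
    (hf : HasFDerivAt f (lf a b) x) :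
    HasFDerivAt (fun y => k * f y) (lf (k * a) (k * b)) x := by
  refine (hf.const_mul k).congr_fderiv ?_
  ext v
  show k * (lf a b v) = lf (k * a) (k * b) v
  rw [lf_apply, lf_apply]
  ring

private theorem lf_congr {f : E2 → ℝ} {a b c d : ℝ} {x : E2} (hf : HasFDerivAt f (lf a b) x)
    (h0 : a = c) (h1 : b = d) : HasFDerivAt f (lf c d) x := by
  rw [← h0, ← h1]
  exact hf

private theorem mem_cb {r : ℝ} {x : E2} (hx : ‖x‖ ≤ r) : x ∈ closedBall (0 : E2) r := by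
  rw [mem_closedBall, dist_zero_right]
  exact hx

/-- Lipschitz constant from a uniform bound of the partial derivatives. -/
private theorem lipOn_lf {r M : ℝ} {f f0 f1 : E2 → ℝ} (hM : 0 ≤ M)
    (hf : ∀ x, ‖x‖ ≤ r → HasFDerivAt f (lf (f0 x) (f1 x)) x)
    (hb : ∀ x, ‖x‖ ≤ r → |f0 x| ≤ M ∧ |f1 x| ≤ M) :
    LipschitzOnWith (Real.toNNReal (2 * M)) f (closedBall 0 r) := by
  apply lipOn_of_fderiv hf
  intro x hx
  rw [Real.coe_toNNReal _ (by positivity)]
  apply clm_norm_le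
  · rw [lf_ev0]
    exact (hb x hx).1
  · rw [lf_ev1]
    exact (hb x hx).2

/-- Some Lipschitz constant from continuity of the partial derivatives. -/
private theorem lipOn_cont {r : ℝ} {f f0 f1 : E2 → ℝ}
    (hf : ∀ x, ‖x‖ ≤ r → HasFDerivAt f (lf (f0 x) (f1 x)) x)
    (c0 : ContinuousOn f0 (closedBall 0 r)) (c1 : ContinuousOn f1 (closedBall 0 r)) :
    ∃ L : NNReal, LipschitzOnWith L f (closedBall 0 r) := by
  obtain ⟨M0, hM0⟩ := (isCompact_closedBall (0 : E2) r).exists_bound_of_continuousOn c0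
  obtain ⟨M1, hM1⟩ := (isCompact_closedBall (0 : E2) r).exists_bound_of_continuousOn c1
  have hM : 0 ≤ max (max M0 M1) 0 := le_max_right _ _
  refine ⟨_, lipOn_lf hM hf fun x hx => ⟨?_, ?_⟩⟩
  · exact (hM0 x (mem_cb hx)).trans ((le_max_left _ _).trans (le_max_left _ _))
  · exact (hM1 x (mem_cb hx)).trans ((le_max_right _ _).trans (le_max_left _ _))

/-- Measurability of a cut-off. -/
private theorem cut_wt {r : ℝ} {ψ f : E2 → ℝ} (hψ : ContinuousOn ψ (closedBall 0 r))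
    (hf : ContinuousOn f (closedBall 0 r)) {M : ℝ} (hM : 0 ≤ M)
    (hb : ∀ x, ‖x‖ ≤ r → |f x| ≤ M) : Wt (cut r ψ f) := by
  refine ⟨?_, fun _ => ⟨M, hM, fun x _ => ?_⟩⟩
  · set Z : Set E2 := closedBall (0 : E2) r ∩ ψ ⁻¹' (Iic 0) with hZ
    have hZc : IsClosed Z := hψ.preimage_isClosed_of_isClosed isClosed_closedBall isClosed_Iic
    set S : Set E2 := closedBall (0 : E2) r \ Z with hS
    have hSm : MeasurableSet S := measurableSet_closedBall.diff hZc.measurableSet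
    have heq : cut r ψ f = S.indicator f := by
      funext x
      by_cases hx : ‖x‖ ≤ r ∧ 0 < ψ x
      · rw [cut_in hx.1 hx.2, indicator_of_mem]
        refine ⟨mem_cb hx.1, ?_⟩
        rintro ⟨_, h⟩
        exact absurd h (not_le.2 hx.2)
      · have hx' : r < ‖x‖ ∨ ψ x ≤ 0 := by
          by_contra h
          push Not at h
          exact hx h
        rw [cut_out hx', indicator_of_notMem]
        rintro ⟨h1, h2⟩
        rw [mem_closedBall, dist_zero_right] at h1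
        rcases hx' with h | h
        · exact absurd h1 (not_le.2 h)
        · exact h2 ⟨mem_cb h1, h⟩
    rw [heq]
    rw [aestronglyMeasurable_indicator_iff hSm]
    exact (hf.aestronglyMeasurable measurableSet_closedBall).mono_measure
      (Measure.restrict_mono (diff_subset) le_rfl)
  · by_cases hx : ‖x‖ ≤ r ∧ 0 < ψ x
    · rw [cut_in hx.1 hx.2]
      exact hb x hx.1
    · have hx' : r < ‖x‖ ∨ ψ x ≤ 0 := by
        by_contra h
        push Not at h
        exact hx h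
      rw [cut_out hx', abs_zero]
      exact hM

theorem cert_geo {r1 r2 M : ℝ} (hr : 0 < r1) (hr2 : r1 < r2) (hM : 0 ≤ M)
    {ψ ψ0 ψ1 ψ00 ψ01 ψ11 h h0 h1 h00 h01 h11 F : E2 → ℝ}
    (dψ : ∀ x, ‖x‖ < r2 → HasFDerivAt ψ (lf (ψ0 x) (ψ1 x)) x)
    (dψ0 : ∀ x, ‖x‖ < r2 → HasFDerivAt ψ0 (lf (ψ00 x) (ψ01 x)) x)
    (dψ1 : ∀ x, ‖x‖ < r2 → HasFDerivAt ψ1 (lf (ψ01 x) (ψ11 x)) x)
    (dh : ∀ x, ‖x‖ < r2 → HasFDerivAt h (lf (h0 x) (h1 x)) x)
    (dh0 : ∀ x, ‖x‖ < r2 → HasFDerivAt h0 (lf (h00 x) (h01 x)) x)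
    (dh1 : ∀ x, ‖x‖ < r2 → HasFDerivAt h1 (lf (h01 x) (h11 x)) x)
    (cψ00 : ContinuousOn ψ00 (ball 0 r2)) (cψ01 : ContinuousOn ψ01 (ball 0 r2))
    (cψ11 : ContinuousOn ψ11 (ball 0 r2)) (ch00 : ContinuousOn h00 (ball 0 r2))
    (ch01 : ContinuousOn h01 (ball 0 r2)) (ch11 : ContinuousOn h11 (ball 0 r2))
    (bψ : ∀ x, ‖x‖ ≤ r1 → |ψ x| ≤ M ∧ |ψ0 x| ≤ M ∧ |ψ1 x| ≤ M)
    (bh : ∀ x, ‖x‖ ≤ r1 → |h x| ≤ M ∧ |h0 x| ≤ M ∧ |h1 x| ≤ M)
    (hel : ∀ x, ‖x‖ ≤ r1 → ψ00 x + ψ11 x = - ψ x)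
    (hpos : ∀ x, ‖x‖ ≤ r1 → 0 ≤ h x)
    (hbd : ∀ x, ‖x‖ = r1 → ψ x ≤ 0)
    (hF : Wt F)
    (hin : ∀ x, ‖x‖ < r1 → 0 < ψ x →
      -(4 * ψ x ^ 2 * h x) + 12 * h x * (ψ0 x ^ 2 + ψ1 x ^ 2)
        + 12 * ψ x * (ψ0 x * h0 x + ψ1 x * h1 x) + 2 * ψ x ^ 2 * (h00 x + h11 x) ≤ F x)
    (hout : ∀ x, ‖x‖ < r1 → ψ x ≤ 0 → 0 ≤ F x)
    (hfar : ∀ x, r1 < ‖x‖ → 0 ≤ F x) :
    Cert (200 * M ^ 3) F := by
  have hsub : closedBall (0 : E2) r1 ⊆ ball 0 r2 := closedBall_subset_ball hr2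
  have hlt : ∀ x : E2, ‖x‖ ≤ r1 → ‖x‖ < r2 := fun x hx => lt_of_le_of_lt hx hr2
  -- continuity on the closed disk
  have con : ∀ f f0 f1 : E2 → ℝ, (∀ x, ‖x‖ < r2 → HasFDerivAt f (lf (f0 x) (f1 x)) x) →
      ContinuousOn f (closedBall 0 r1) := by
    intro f f0 f1 hf x hx
    rw [mem_closedBall, dist_zero_right] at hx
    exact (hf x (hlt x hx)).continuousAt.continuousWithinAt
  have cψ := con _ _ _ dψ
  have cψ0 := con _ _ _ dψ0
  have cψ1 := con _ _ _ dψ1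
  have ch := con _ _ _ dh
  have ch0 := con _ _ _ dh0
  have ch1 := con _ _ _ dh1
  have kψ00 := cψ00.mono hsub
  have kψ01 := cψ01.mono hsub
  have kψ11 := cψ11.mono hsub
  have kh00 := ch00.mono hsub
  have kh01 := ch01.mono hsub
  have kh11 := ch11.mono hsub
  -- the functions
  set wv : E2 → ℝ := fun x => 4 * (ψ x * h x) with hwv
  set w0 : E2 → ℝ := fun x => 8 * (h x * ψ0 x) + 2 * (ψ x * h0 x) with hw0
  set w1 : E2 → ℝ := fun x => 8 * (h x * ψ1 x) + 2 * (ψ x * h1 x) with hw1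
  set v : E2 → ℝ := cut r1 ψ (fun x => ψ x * wv x) with hv
  set U0 : E2 → ℝ := cut r1 ψ (fun x => ψ x * w0 x) with hU0
  set U1 : E2 → ℝ := cut r1 ψ (fun x => ψ x * w1 x) with hU1
  set q : E2 → ℝ := cut r1 ψ (fun x => 4 * h x * (ψ0 x ^ 2 + ψ1 x ^ 2)) with hq
  -- derivatives of the smooth functions
  have dwv : ∀ x, ‖x‖ < r2 → HasFDerivAt wv (lf (4 * (ψ0 x * h x + ψ x * h0 x))
      (4 * (ψ1 x * h x + ψ x * h1 x))) x := fun x hx =>
    lf_const_mul 4 (lf_mul (dψ x hx) (dh x hx))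
  have dw0 : ∀ x, ‖x‖ < r2 → HasFDerivAt w0
      (lf (8 * (h0 x * ψ0 x + h x * ψ00 x) + 2 * (ψ0 x * h0 x + ψ x * h00 x))
      (8 * (h1 x * ψ0 x + h x * ψ01 x) + 2 * (ψ1 x * h0 x + ψ x * h01 x))) x := fun x hx =>
    lf_add (lf_const_mul 8 (lf_mul (dh x hx) (dψ0 x hx)))
      (lf_const_mul 2 (lf_mul (dψ x hx) (dh0 x hx)))
  have dw1 : ∀ x, ‖x‖ < r2 → HasFDerivAt w1
      (lf (8 * (h0 x * ψ1 x + h x * ψ01 x) + 2 * (ψ0 x * h1 x + ψ x * h01 x))
      (8 * (h1 x * ψ1 x + h x * ψ11 x) + 2 * (ψ1 x * h1 x + ψ x * h11 x))) x := fun x hx =>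
    lf_add (lf_const_mul 8 (lf_mul (dh x hx) (dψ1 x hx)))
      (lf_const_mul 2 (lf_mul (dψ x hx) (dh1 x hx)))
  have dfv := fun x (hx : ‖x‖ < r2) => lf_mul (dψ x hx) (dwv x hx)
  have df0 := fun x (hx : ‖x‖ < r2) => lf_mul (dψ x hx) (dw0 x hx)
  have df1 := fun x (hx : ‖x‖ < r2) => lf_mul (dψ x hx) (dw1 x hx)
  have hzero : ∀ w : E2 → ℝ, ∀ x, ‖x‖ ≤ r1 → ψ x = 0 → ψ x * w x = 0 := by
    intro w x _ hx
    rw [hx, zero_mul]
  -- Lipschitz
  have hM3 : 0 ≤ M ^ 3 := by positivity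
  have hvlip : LipschitzWith (Real.toNNReal (2 * (12 * M ^ 3))) v := by
    refine cut_lip_on (lipOn_lf (by positivity) (fun x hx => dfv x (hlt x hx)) ?_) cψ
      (hzero wv) hbd
    intro x hx
    obtain ⟨a, b, c⟩ := bψ x hx
    obtain ⟨d, e, f⟩ := bh x hx
    have p2 : ∀ s t : ℝ, |s| ≤ M → |t| ≤ M → |s * t| ≤ M * M := by
      intro s t hs ht
      rw [abs_mul]
      exact mul_le_mul hs ht (abs_nonneg _) hM
    have p3 : ∀ s t u : ℝ, |s| ≤ M → |t| ≤ M → |u| ≤ M → |s * (t * u)| ≤ M ^ 3 := by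
      intro s t u hs ht hu
      rw [abs_mul]
      refine (mul_le_mul hs (p2 t u ht hu) (abs_nonneg _) hM).trans (le_of_eq ?_)
      ring
    have key : ∀ s s0 t t0 : ℝ, |s| ≤ M → |s0| ≤ M → |t| ≤ M → |t0| ≤ M →
        |s0 * (4 * (s * t)) + s * (4 * (s0 * t + s * t0))| ≤ 12 * M ^ 3 := by
      intro s s0 t t0 hs hs0 ht ht0
      have e1 := p3 s0 s t hs0 hs ht
      have e2 := p3 s s0 t hs hs0 ht
      have e3 := p3 s s t0 hs hs ht0
      have e4 : s0 * (4 * (s * t)) + s * (4 * (s0 * t + s * t0)) =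
          4 * (s0 * (s * t)) + 4 * (s * (s0 * t)) + 4 * (s * (s * t0)) := by ring
      rw [e4]
      rw [abs_le] at e1 e2 e3 ⊢
      constructor <;> linarith [e1.1, e1.2, e2.1, e2.2, e3.1, e3.2]
    exact ⟨key _ _ _ _ a b d e, key _ _ _ _ a c d f⟩
  obtain ⟨L0, hL0⟩ := lipOn_cont (fun x hx => df0 x (hlt x hx))
    (by fun_prop) (by fun_prop)
  obtain ⟨L1, hL1⟩ := lipOn_cont (fun x hx => df1 x (hlt x hx))
    (by fun_prop) (by fun_prop)
  have hU0lip : LipschitzWith L0 U0 := cut_lip_on hL0 cψ (hzero w0) hbd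
  have hU1lip : LipschitzWith L1 U1 := cut_lip_on hL1 cψ (hzero w1) hbd
  -- q
  have hqb : ∀ x, ‖x‖ ≤ r1 → |4 * h x * (ψ0 x ^ 2 + ψ1 x ^ 2)| ≤ 8 * M ^ 3 := by
    intro x hx
    obtain ⟨a, b, c⟩ := bψ x hx
    obtain ⟨d, e, f⟩ := bh x hx
    have b2 : ψ0 x ^ 2 ≤ M ^ 2 := by
      rw [← sq_abs]
      exact pow_le_pow_left₀ (abs_nonneg _) b 2
    have c2 : ψ1 x ^ 2 ≤ M ^ 2 := by
      rw [← sq_abs]
      exact pow_le_pow_left₀ (abs_nonneg _) c 2
    have s0 : 0 ≤ ψ0 x ^ 2 + ψ1 x ^ 2 := by positivity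
    rw [abs_mul, abs_mul, abs_of_nonneg s0, abs_of_pos (by norm_num : (0 : ℝ) < 4)]
    have e1 : |h x| * (ψ0 x ^ 2 + ψ1 x ^ 2) ≤ M * (2 * M ^ 2) :=
      mul_le_mul d (by linarith) s0 hM
    nlinarith
  have hqw : Wt q := cut_wt cψ (by fun_prop) (by positivity) hqb
  have hq0 : ∀ x, 0 ≤ q x := by
    intro x
    by_cases hx : ‖x‖ ≤ r1 ∧ 0 < ψ x
    · rw [hq, cut_in hx.1 hx.2]
      have := hpos x hx.1
      positivity
    · have hx' : r1 < ‖x‖ ∨ ψ x ≤ 0 := by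
        by_contra h
        push Not at h
        exact hx h
      rw [hq, cut_out hx']
  have hv0 : ∀ x, 0 ≤ v x := by
    intro x
    by_cases hx : ‖x‖ ≤ r1 ∧ 0 < ψ x
    · rw [hv, cut_in hx.1 hx.2]
      have h1 := hpos x hx.1
      have h2 := hx.2
      show 0 ≤ ψ x * (4 * (ψ x * h x))
      positivity
    · have hx' : r1 < ‖x‖ ∨ ψ x ≤ 0 := by
        by_contra h
        push Not at h
        exact hx h
      rw [hv, cut_out hx']
  have hvB : ∀ x, v x ≤ 4 * M ^ 3 := by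
    intro x
    by_cases hx : ‖x‖ ≤ r1 ∧ 0 < ψ x
    · rw [hv, cut_in hx.1 hx.2]
      obtain ⟨a, -, -⟩ := bψ x hx.1
      obtain ⟨d, -, -⟩ := bh x hx.1
      have h1 : ψ x ≤ M := (le_abs_self _).trans a
      have h2 : h x ≤ M := (le_abs_self _).trans d
      have h3 := hpos x hx.1
      have h4 : ψ x * h x ≤ M * M := mul_le_mul h1 h2 h3 hM
      have h5 : ψ x * (ψ x * h x) ≤ M * (M * M) :=
        mul_le_mul h1 h4 (mul_nonneg hx.2.le h3) hM
      show ψ x * (4 * (ψ x * h x)) ≤ 4 * M ^ 3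
      nlinarith
    · have hx' : r1 < ‖x‖ ∨ ψ x ≤ 0 := by
        by_contra h
        push Not at h
        exact hx h
      rw [hv, cut_out hx']
      positivity
  -- the pointwise facts at almost every point
  have hcase : ∀ᵐ x ∂(volume : Measure E2),
      ((U0 x - pd 0 v x / 2) ^ 2 + (U1 x - pd 1 v x / 2) ^ 2 ≤ v x * q x) ∧
      (v x + pd 0 U0 x + pd 1 U1 x + q x ≤ F x) := by
    filter_upwards [ae_norm_ne r1 hr.ne'] with x hxr
    rcases lt_or_gt_of_ne hxr with hx | hx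
    · -- inside
      have hx2 : ‖x‖ < r2 := hx.trans hr2
      have hcont : ContinuousAt ψ x := (dψ x hx2).continuousAt
      rcases lt_trichotomy (ψ x) 0 with hp | hp | hp
      · have e1 : v x = 0 := by rw [hv]; exact cut_out (Or.inr hp.le)
        have e2 : U0 x = 0 := by rw [hU0]; exact cut_out (Or.inr hp.le)
        have e3 : U1 x = 0 := by rw [hU1]; exact cut_out (Or.inr hp.le)
        have e4 : q x = 0 := by rw [hq]; exact cut_out (Or.inr hp.le)
        have e5 : ∀ i, pd i v x = 0 := fun i => cut_pd_neg hp hcont i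
        have e6 : pd 0 U0 x = 0 := cut_pd_neg hp hcont 0
        have e7 : pd 1 U1 x = 0 := cut_pd_neg hp hcont 1
        rw [e1, e2, e3, e4, e5, e5, e6, e7]
        refine ⟨by norm_num, ?_⟩
        have := hout x hx hp.le
        linarith
      · have hd : DifferentiableAt ℝ ψ x := (dψ x hx2).differentiableAt
        have e1 : v x = 0 := by rw [hv]; exact cut_out (Or.inr hp.le)
        have e2 : U0 x = 0 := by rw [hU0]; exact cut_out (Or.inr hp.le)
        have e3 : U1 x = 0 := by rw [hU1]; exact cut_out (Or.inr hp.le)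
        have e4 : q x = 0 := by rw [hq]; exact cut_out (Or.inr hp.le)
        have e5 : ∀ i, pd i v x = 0 := fun i =>
          cut_pd_zero hx hp hd (dwv x hx2).continuousAt i
        have e6 : pd 0 U0 x = 0 := cut_pd_zero hx hp hd (dw0 x hx2).continuousAt 0
        have e7 : pd 1 U1 x = 0 := cut_pd_zero hx hp hd (dw1 x hx2).continuousAt 1
        rw [e1, e2, e3, e4, e5, e5, e6, e7]
        refine ⟨by norm_num, ?_⟩
        have := hout x hx hp.le
        linarith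
      · have e1 : v x = ψ x * (4 * (ψ x * h x)) := by rw [hv]; exact cut_in hx.le hp
        have e2 : U0 x = ψ x * (8 * (h x * ψ0 x) + 2 * (ψ x * h0 x)) := by
          rw [hU0]; exact cut_in hx.le hp
        have e3 : U1 x = ψ x * (8 * (h x * ψ1 x) + 2 * (ψ x * h1 x)) := by
          rw [hU1]; exact cut_in hx.le hp
        have e4 : q x = 4 * h x * (ψ0 x ^ 2 + ψ1 x ^ 2) := by rw [hq]; exact cut_in hx.le hp
        have e50 : pd 0 v x = ψ0 x * (4 * (ψ x * h x)) +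
            ψ x * (4 * (ψ0 x * h x + ψ x * h0 x)) :=
          (cut_pd_in hx hp hcont 0).trans (pd0_lf (dfv x hx2))
        have e51 : pd 1 v x = ψ1 x * (4 * (ψ x * h x)) +
            ψ x * (4 * (ψ1 x * h x + ψ x * h1 x)) :=
          (cut_pd_in hx hp hcont 1).trans (pd1_lf (dfv x hx2))
        have e6 : pd 0 U0 x = ψ0 x * (8 * (h x * ψ0 x) + 2 * (ψ x * h0 x)) +
            ψ x * (8 * (h0 x * ψ0 x + h x * ψ00 x) + 2 * (ψ0 x * h0 x + ψ x * h00 x)) :=
          (cut_pd_in hx hp hcont 0).trans (pd0_lf (df0 x hx2))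
        have e7 : pd 1 U1 x = ψ1 x * (8 * (h x * ψ1 x) + 2 * (ψ x * h1 x)) +
            ψ x * (8 * (h1 x * ψ1 x + h x * ψ11 x) + 2 * (ψ1 x * h1 x + ψ x * h11 x)) :=
          (cut_pd_in hx hp hcont 1).trans (pd1_lf (df1 x hx2))
        rw [e1, e2, e3, e4, e50, e51, e6, e7]
        constructor
        · apply le_of_eq
          ring
        · have e8 := hin x hx hp
          have e9 := hel x hx.le
          refine le_trans (le_of_eq ?_) e8
          have e10 : ψ11 x = - ψ x - ψ00 x := by linarith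
          rw [e10]
          ring
    · -- outside
      have e1 : v x = 0 := by rw [hv]; exact cut_out (Or.inl hx)
      have e2 : U0 x = 0 := by rw [hU0]; exact cut_out (Or.inl hx)
      have e3 : U1 x = 0 := by rw [hU1]; exact cut_out (Or.inl hx)
      have e4 : q x = 0 := by rw [hq]; exact cut_out (Or.inl hx)
      have e5 : ∀ i, pd i v x = 0 := fun i => cut_pd_far hx i
      have e6 : pd 0 U0 x = 0 := cut_pd_far hx 0
      have e7 : pd 1 U1 x = 0 := cut_pd_far hx 1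
      rw [e1, e2, e3, e4, e5, e5, e6, e7]
      refine ⟨by norm_num, ?_⟩
      have := hfar x hx
      linarith
  have hcert := cert_of_data hF hvlip hv0 hvB (LocLip.of_lip hU0lip) (LocLip.of_lip hU1lip) hqw
    hq0 (hcase.mono fun x hx => hx.1) (hcase.mono fun x hx => hx.2)
  refine hcert.mono_const ?_
  rw [Real.coe_toNNReal _ (by positivity)]
  nlinarith

theorem cl_eq_ret {r : ℝ} (hr : 0 < r) (x : E2) : cl r x = Pool.Agent.Lib.MP_eb7570_an.Node.ret (r ^ 2) (r ^ 2) x := by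
  unfold cl Pool.Agent.Lib.MP_eb7570_an.Node.ret
  have h1 : Pool.Agent.Lib.MP_eb7570_an.Node.rr (r ^ 2) (r ^ 2) x = (‖x‖ / r) ^ 2 := by
    unfold Pool.Agent.Lib.MP_eb7570_an.Node.rr Pool.Agent.Lib.MP_eb7570_an.Node.cu
      Pool.Agent.Lib.MP_eb7570_an.Node.cv
    rw [div_pow, EuclideanSpace.norm_sq_eq, Fin.sum_univ_two, Real.norm_eq_abs,
      Real.norm_eq_abs, sq_abs, sq_abs, add_div]
  rw [h1, Real.sqrt_sq (div_nonneg (norm_nonneg x) hr.le)]

/-- composition with the clamp: Lipschitz, with a uniform constant -/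
theorem lip_cl {r r2 : ℝ} (hr : 0 < r) (hr2 : r < r2) (M : ℝ) : ∃ C : NNReal,
    ∀ u u0 u1 : E2 → ℝ, (∀ x, ‖x‖ < r2 → HasFDerivAt u (lf (u0 x) (u1 x)) x) →
      (∀ x, ‖x‖ ≤ r → |u0 x| ≤ M ∧ |u1 x| ≤ M) → LipschitzWith C (fun z => u (cl r z)) := by
  refine ⟨Real.toNNReal (2 * |M|) * 2, fun u u0 u1 hu hb => ?_⟩
  apply lip_comp_cl hr
  refine lipOn_lf (abs_nonneg M) (fun x hx => hu x (lt_of_le_of_lt hx hr2)) fun x hx => ?_
  exact ⟨(hb x hx).1.trans (le_abs_self M), (hb x hx).2.trans (le_abs_self M)⟩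

theorem gsq_cl_in {r : ℝ} (hr : 0 < r) {u : E2 → ℝ} {a b : ℝ} {x : E2} (hx : ‖x‖ < r)
    (hu : HasFDerivAt u (lf a b) x) : gsq (fun z => u (cl r z)) x = a ^ 2 + b ^ 2 := by
  unfold gsq
  rw [pd_cl_in hr hx, pd_cl_in hr hx, pd0_lf hu, pd1_lf hu]

theorem gsq_cl_out {r : ℝ} (hr : 0 < r) {u : E2 → ℝ} {a b : ℝ} {x : E2} (hx : r < ‖x‖)
    (hu : HasFDerivAt u (lf a b) (cl r x)) :
    gsq (fun z => u (cl r z)) x = (cl r x 0 * b - cl r x 1 * a) ^ 2 / ‖x‖ ^ 2 := by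
  rw [gsq_cl_out_aux hr hx hu.differentiableAt, pd0_lf hu, pd1_lf hu, cl_of_ge hr hx.le]
  have hx0 : 0 < ‖x‖ := hr.trans hx
  show (r / ‖x‖) ^ 2 * (x 0 / ‖x‖ * b - x 1 / ‖x‖ * a) ^ 2 =
    ((r / ‖x‖) * x 0 * b - (r / ‖x‖) * x 1 * a) ^ 2 / ‖x‖ ^ 2
  field_simp

private theorem hasFDerivAt_co (i : Fin 2) (x : E2) :
    HasFDerivAt (fun y : E2 => y i) (EuclideanSpace.proj (𝕜 := ℝ) i : E2 →L[ℝ] ℝ) x :=
  (EuclideanSpace.proj (𝕜 := ℝ) i : E2 →L[ℝ] ℝ).hasFDerivAt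

private theorem lf_co0 (x : E2) : HasFDerivAt (fun y : E2 => y 0) (lf 1 0) x := by
  refine (hasFDerivAt_co 0 x).congr_fderiv ?_
  ext v
  rw [lf_apply]
  show v 0 = 1 * v 0 + 0 * v 1
  ring

private theorem lf_co1 (x : E2) : HasFDerivAt (fun y : E2 => y 1) (lf 0 1) x := by
  refine (hasFDerivAt_co 1 x).congr_fderiv ?_
  ext v
  rw [lf_apply]
  show v 1 = 0 * v 0 + 1 * v 1
  ring

theorem fd_sx (x : E2) : HasFDerivAt sx (lf (x 0 / 2) (x 1 / 2)) x := by
  have h := lf_const_mul (1 / 4) (lf_add (lf_mul (lf_co0 x) (lf_co0 x))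
    (lf_mul (lf_co1 x) (lf_co1 x)))
  have e : sx = fun y : E2 => 1 / 4 * (y 0 * y 0 + y 1 * y 1) := by
    funext y
    unfold sx
    ring
  rw [e]
  exact lf_congr h (by ring) (by ring)

theorem fd_cx (x : E2) : HasFDerivAt cx (lf (x 0 / 2) (-(x 1 / 2))) x := by
  have h := lf_const_mul (1 / 4) (lf_add (lf_mul (lf_co0 x) (lf_co0 x))
    (lf_const_mul (-1) (lf_mul (lf_co1 x) (lf_co1 x))))
  have e : cx = fun y : E2 => 1 / 4 * (y 0 * y 0 + -1 * (y 1 * y 1)) := by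
    funext y
    unfold cx
    ring
  rw [e]
  exact lf_congr h (by ring) (by ring)

/-- chain rule in the variables `c`, `s` -/
theorem fd_pull {f : ℝ → ℝ → ℝ} {fc fs : ℝ} {x : E2}
    (h : HasFDerivAt (fun p : ℝ × ℝ => f p.1 p.2)
      (fc • ContinuousLinearMap.fst ℝ ℝ ℝ + fs • ContinuousLinearMap.snd ℝ ℝ ℝ) (cx x, sx x)) :
    HasFDerivAt (fun y => f (cx y) (sx y)) (lf (x 0 / 2 * (fs + fc)) (x 1 / 2 * (fs - fc))) x := by
  have h1 : HasFDerivAt (fun y => (cx y, sx y))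
      ((lf (x 0 / 2) (-(x 1 / 2))).prod (lf (x 0 / 2) (x 1 / 2))) x :=
    (fd_cx x).prodMk (fd_sx x)
  refine (HasFDerivAt.comp x h h1).congr_fderiv ?_
  ext v
  show fc * (lf (x 0 / 2) (-(x 1 / 2)) v) + fs * (lf (x 0 / 2) (x 1 / 2) v) =
    lf (x 0 / 2 * (fs + fc)) (x 1 / 2 * (fs - fc)) v
  rw [lf_apply, lf_apply, lf_apply]
  ring

end Pool.Agent.PPW
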