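import Pool.Agent.Lib.MP_eb7570_an.ND.Fun
import Pool.Agent.Lib.MP_eb7570_an.Bes.Rel

set_option autoImplicit false

/-!
MP_eb7570_an, near disk part: derivatives in the variables `c`, `s` of `ψ`, `h`, `A`, `B`
(owner: helper42), for `|s| < 2`. `F n' = - F (n+1)` (`Bes.hasDerivAt_F`), `hasDerivAt_fb` etc. in
Bes/Rel (the functions there have the same definitions as in ND/Fun).
-/

namespace Pool.Agent.PPW.ND

open Pool.Agent.Lib.MPeb.ND
open Pool.Agent.PPW.Bes (F s0 s1 kap2)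

/-- `f` has partial derivatives `fc`, `fs` at `(c, s)` (Fréchet) -/
def PD (f : ℝ → ℝ → ℝ) (fc fs c s : ℝ) : Prop :=
  HasFDerivAt (fun p : ℝ × ℝ => f p.1 p.2)
    (fc • ContinuousLinearMap.fst ℝ ℝ ℝ + fs • ContinuousLinearMap.snd ℝ ℝ ℝ) (c, s)

noncomputable section

/-- second derivatives of `ψ` -/
def vpsiss (e c s : ℝ) : ℝ :=
  F 2 s + e * c * F 4 s + e ^ 2 * (2 * F 4 s - 4 * s * F 5 s - (2 * c ^ 2 - s ^ 2) * F 6 s)
def vpsisc (e c s : ℝ) : ℝ := -(e * F 3 s) + 4 * e ^ 2 * c * F 5 s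
def vpsicc (e s : ℝ) : ℝ := -(4 * e ^ 2 * F 4 s)

/-- derivatives of `A`, `B` -/
def vAs (e c s : ℝ) : ℝ := fb1 s + e * (fA1 s + c * fC1 s)
def vAc (e s : ℝ) : ℝ := e * fC s
def vBs (e c s : ℝ) : ℝ := fb1 s + e * (c * fC1 s - fA1 s)
def vBc (e s : ℝ) : ℝ := e * fC s

end


private theorem hasDerivAt_fg {s : ℝ} (hs : |s| < 2) : HasDerivAt fg (fg1 s) s :=
  TM.hasDerivAt_fg hs.le

private theorem hasDerivAt_fg1 {s : ℝ} (hs : |s| < 2) : HasDerivAt fg1 (fg2 s) s :=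
  TM.hasDerivAt_fg1 hs.le

private theorem hasDerivAt_fk {s : ℝ} (hs : |s| < 2) : HasDerivAt fk (fk1 s) s :=
  TM.hasDerivAt_fk hs.le

private theorem hasDerivAt_fk1 {s : ℝ} (hs : |s| < 2) : HasDerivAt fk1 (fk2 s) s :=
  TM.hasDerivAt_fk1 hs.le

private theorem hasDerivAt_fb {s : ℝ} (hs : |s| < 2) : HasDerivAt fb (fb1 s) s :=
  TM.hasDerivAt_fb hs.le

private theorem hasDerivAt_fb1 {s : ℝ} (hs : |s| < 2) : HasDerivAt fb1 (TM.fb2 s) s :=
  TM.hasDerivAt_fb1 hs.le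

private theorem hasDerivAt_fA {s : ℝ} (hs : |s| < 2) : HasDerivAt fA (fA1 s) s :=
  TM.hasDerivAt_fA hs.le

private theorem hasDerivAt_fA1 {s : ℝ} (hs : |s| < 2) : HasDerivAt fA1 (TM.fA2 s) s :=
  TM.hasDerivAt_fA1 hs.le

private theorem hasDerivAt_fC {s : ℝ} (hs : |s| < 2) : HasDerivAt fC (fC1 s) s :=
  TM.hasDerivAt_fC hs.le

private theorem hasDerivAt_fC1 {s : ℝ} (hs : |s| < 2) : HasDerivAt fC1 (TM.fC2 s) s :=
  TM.hasDerivAt_fC1 hs.le

private theorem der_fg2 {s : ℝ} (hs : |s| < 2) : ContinuousAt fg2 s :=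
  (TM.e2_hasDerivAt hs.le (TM.der (TM.der TM.sh0))).continuousAt

private theorem der_fk2 {s : ℝ} (hs : |s| < 2) : ContinuousAt fk2 s :=
  (TM.e2_hasDerivAt hs.le (TM.der (TM.der TM.sh1))).continuousAt


/-! ### calculus of `PD` -/

private theorem PD.of {f g : ℝ → ℝ → ℝ} {a b a' b' c s : ℝ} (h : PD f a b c s)
    (hf : ∀ c s, g c s = f c s) (ha : a' = a) (hb : b' = b) : PD g a' b' c s := by
  subst ha hb
  have e : (fun p : ℝ × ℝ => g p.1 p.2) = fun p : ℝ × ℝ => f p.1 p.2 := by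
    funext p
    exact hf _ _
  unfold PD
  rw [e]
  exact h

private theorem PD.add {f g : ℝ → ℝ → ℝ} {a b a' b' c s : ℝ} (h : PD f a b c s)
    (h' : PD g a' b' c s) : PD (fun c s => f c s + g c s) (a + a') (b + b') c s := by
  unfold PD at *
  refine (HasFDerivAt.add h h').congr_fderiv ?_
  apply ContinuousLinearMap.ext
  intro v
  simp
  ring

private theorem PD.sub {f g : ℝ → ℝ → ℝ} {a b a' b' c s : ℝ} (h : PD f a b c s)
    (h' : PD g a' b' c s) : PD (fun c s => f c s - g c s) (a - a') (b - b') c s := by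
  unfold PD at *
  refine (HasFDerivAt.sub h h').congr_fderiv ?_
  apply ContinuousLinearMap.ext
  intro v
  simp
  ring

private theorem PD.neg {f : ℝ → ℝ → ℝ} {a b c s : ℝ} (h : PD f a b c s) :
    PD (fun c s => - f c s) (- a) (- b) c s := by
  unfold PD at *
  refine (HasFDerivAt.neg h).congr_fderiv ?_
  apply ContinuousLinearMap.ext
  intro v
  simp
  ring

private theorem PD.mul {f g : ℝ → ℝ → ℝ} {a b a' b' c s : ℝ} (h : PD f a b c s)
    (h' : PD g a' b' c s) : PD (fun c s => f c s * g c s) (f c s * a' + g c s * a)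
      (f c s * b' + g c s * b) c s := by
  unfold PD at *
  refine (HasFDerivAt.mul h h').congr_fderiv ?_
  apply ContinuousLinearMap.ext
  intro v
  simp
  ring

private theorem PD.cmul {f : ℝ → ℝ → ℝ} {a b c s : ℝ} (k : ℝ) (h : PD f a b c s) :
    PD (fun c s => k * f c s) (k * a) (k * b) c s := by
  unfold PD at *
  refine (HasFDerivAt.const_mul h k).congr_fderiv ?_
  apply ContinuousLinearMap.ext
  intro v
  simp
  ring

private theorem PD.rad {f : ℝ → ℝ} {b c s : ℝ} (h : HasDerivAt f b s) :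
    PD (fun _ s => f s) 0 b c s := by
  unfold PD
  have h1 : HasFDerivAt (fun p : ℝ × ℝ => p.2) (ContinuousLinearMap.snd ℝ ℝ ℝ) (c, s) :=
    hasFDerivAt_snd
  have h2 := HasDerivAt.comp_hasFDerivAt (c, s) (f := fun p : ℝ × ℝ => p.2) h h1
  refine h2.congr_fderiv ?_
  apply ContinuousLinearMap.ext
  intro v
  simp

private theorem PD.fc {f : ℝ → ℝ} {a c s : ℝ} (h : HasDerivAt f a c) :
    PD (fun c _ => f c) a 0 c s := by
  unfold PD
  have h1 : HasFDerivAt (fun p : ℝ × ℝ => p.1) (ContinuousLinearMap.fst ℝ ℝ ℝ) (c, s) :=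
    hasFDerivAt_fst
  have h2 := HasDerivAt.comp_hasFDerivAt (c, s) (f := fun p : ℝ × ℝ => p.1) h h1
  refine h2.congr_fderiv ?_
  apply ContinuousLinearMap.ext
  intro v
  simp

private theorem PD.cst (k c s : ℝ) : PD (fun _ _ => k) 0 0 c s := by
  have h := PD.rad (c := c) (hasDerivAt_const s k)
  exact h

private theorem PD.mon (k : ℝ) (i j : ℕ) (c s : ℝ) :
    PD (fun c s => k * (c ^ i * s ^ j)) (k * (s ^ j * (i * c ^ (i - 1))))
      (k * (c ^ i * (j * s ^ (j - 1)))) c s := by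
  have h1 : PD (fun c _ => c ^ i) (i * c ^ (i - 1)) 0 c s := PD.fc (hasDerivAt_pow i c)
  have h2 : PD (fun _ s => s ^ j) 0 (j * s ^ (j - 1)) c s := PD.rad (hasDerivAt_pow j s)
  refine ((h1.mul h2).cmul k).of (fun _ _ => rfl) ?_ ?_ <;> ring

private theorem hF (n : ℕ) (s : ℝ) : HasDerivAt (F n) (-F (n + 1) s) s := Bes.hasDerivAt_F n s

theorem pd_psi (e c s : ℝ) : PD (vpsi e) (vpsic e c s) (vpsis e c s) c s := by
  have h := ((PD.rad (c := c) (hF 0 s)).add ((PD.mon e 1 0 c s).mul (PD.rad (hF 2 s)))).sub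
    (((PD.mon (2 * e ^ 2) 2 0 c s).sub (PD.mon (e ^ 2) 0 2 c s)).mul (PD.rad (hF 4 s)))
  refine h.of (fun c s => ?_) ?_ ?_
  · unfold vpsi psiv; ring
  · unfold vpsic psic; norm_num; ring
  · unfold vpsis psis; norm_num; ring

theorem pd_psis (e c s : ℝ) : PD (vpsis e) (vpsisc e c s) (vpsiss e c s) c s := by
  have h := (((PD.rad (c := c) (hF 1 s)).neg.sub
    ((PD.mon e 1 0 c s).mul (PD.rad (hF 3 s)))).add
    (((PD.mon (2 * e ^ 2) 2 0 c s).sub (PD.mon (e ^ 2) 0 2 c s)).mul (PD.rad (hF 5 s)))).add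
    ((PD.mon (2 * e ^ 2) 0 1 c s).mul (PD.rad (hF 4 s)))
  refine h.of (fun c s => ?_) ?_ ?_
  · unfold vpsis psis; ring
  · unfold vpsisc; norm_num; ring
  · unfold vpsiss; norm_num; ring

theorem pd_psic (e c s : ℝ) : PD (vpsic e) (vpsicc e s) (vpsisc e c s) c s := by
  have h := ((PD.rad (c := c) (hF 2 s)).cmul e).sub
    ((PD.mon (4 * e ^ 2) 1 0 c s).mul (PD.rad (hF 4 s)))
  refine h.of (fun c s => ?_) ?_ ?_
  · unfold vpsic psic; ring
  · unfold vpsicc; norm_num; ring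
  · unfold vpsisc; norm_num

/-- Helmholtz equation -/
theorem helm (e c s : ℝ) : vpsis e c s + s * (vpsiss e c s + vpsicc e s)
    + 2 * c * vpsisc e c s = - vpsi e c s := by
  have r0 := Bes.F_rec 0 s
  have r2 := Bes.F_rec 2 s
  have r4 := Bes.F_rec 4 s
  norm_num at r0 r2 r4
  unfold vpsis psis vpsiss vpsicc vpsisc vpsi psiv
  rw [r0, r2, r4]
  ring

theorem pd_h {e c s : ℝ} (hs : |s| < 2) : PD (vh e) (vhc e c s) (vhs e c s) c s := by
  have h := (((PD.rad (c := c) (hasDerivAt_fg hs)).add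
    ((PD.mon e 1 0 c s).mul (PD.rad (hasDerivAt_fk hs)))).add
    (((((((PD.mon (-(8 / 125) * e ^ 2) 2 2 c s).add (PD.mon (-(7 / 1000) * e ^ 2) 2 1 c s)).add
      (PD.mon (-(19 / 500) * e ^ 2) 2 0 c s)).add (PD.mon (-(1 / 500) * e ^ 2) 0 3 c s)).add
      (PD.mon (-(3 / 250) * e ^ 2) 0 2 c s)).add (PD.mon (-(51 / 1000) * e ^ 2) 0 1 c s)).add
      (PD.mon (43 / 1000 * e ^ 2) 0 0 c s))).add
    (((((PD.mon (153 / 1000 * e ^ 3) 3 1 c s).add (PD.mon (51 / 1000 * e ^ 3) 3 0 c s)).add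
      (PD.mon (-(7 / 125) * e ^ 3) 1 2 c s)).add (PD.mon (7 / 1000 * e ^ 3) 1 1 c s)).add
      (PD.mon (-(41 / 1000) * e ^ 3) 1 0 c s))
  refine h.of (fun c s => ?_) ?_ ?_
  · unfold vh hv; ring
  · unfold vhc hc; norm_num; ring
  · unfold vhs Pool.Agent.Lib.MPeb.ND.hs; norm_num; ring

theorem pd_hs {e c s : ℝ} (hs : |s| < 2) : PD (vhs e) (vhsc e c s) (vhss e c s) c s := by
  have h := (((PD.rad (c := c) (hasDerivAt_fg1 hs)).add
    ((PD.mon e 1 0 c s).mul (PD.rad (hasDerivAt_fk1 hs)))).add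
    (((((PD.mon (-(16 / 125) * e ^ 2) 2 1 c s).add (PD.mon (-(7 / 1000) * e ^ 2) 2 0 c s)).add
      (PD.mon (-(3 / 500) * e ^ 2) 0 2 c s)).add
      (PD.mon (-(3 / 125) * e ^ 2) 0 1 c s)).add (PD.mon (-(51 / 1000) * e ^ 2) 0 0 c s))).add
    (((PD.mon (153 / 1000 * e ^ 3) 3 0 c s).add
      (PD.mon (-(14 / 125) * e ^ 3) 1 1 c s)).add (PD.mon (7 / 1000 * e ^ 3) 1 0 c s))
  refine h.of (fun c s => ?_) ?_ ?_
  · unfold vhs Pool.Agent.Lib.MPeb.ND.hs; ring
  · unfold vhsc hsc; norm_num; ring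
  · unfold vhss hss; norm_num; ring

theorem pd_hc {e c s : ℝ} (hs : |s| < 2) : PD (vhc e) (vhcc e c s) (vhsc e c s) c s := by
  have h := (((PD.rad (c := c) (hasDerivAt_fk hs)).cmul e).add
    (((PD.mon (-(16 / 125) * e ^ 2) 1 2 c s).add (PD.mon (-(7 / 500) * e ^ 2) 1 1 c s)).add
      (PD.mon (-(19 / 250) * e ^ 2) 1 0 c s))).add
    ((((PD.mon (459 / 1000 * e ^ 3) 2 1 c s).add (PD.mon (153 / 1000 * e ^ 3) 2 0 c s)).add
      (PD.mon (-(7 / 125) * e ^ 3) 0 2 c s)).add ((PD.mon (7 / 1000 * e ^ 3) 0 1 c s).add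
      (PD.mon (-(41 / 1000) * e ^ 3) 0 0 c s)))
  refine h.of (fun c s => ?_) ?_ ?_
  · unfold vhc hc; ring
  · unfold vhcc hcc; norm_num; ring
  · unfold vhsc hsc; norm_num; ring

theorem pd_A {e c s : ℝ} (hs : |s| < 2) : PD (vA e) (vAc e s) (vAs e c s) c s := by
  have h := (PD.rad (c := c) (hasDerivAt_fb hs)).add
    (((PD.rad (c := c) (hasDerivAt_fA hs)).add
      ((PD.mon 1 1 0 c s).mul (PD.rad (hasDerivAt_fC hs)))).cmul e)
  refine h.of (fun c s => ?_) ?_ ?_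
  · unfold vA; ring
  · unfold vAc; norm_num
  · unfold vAs; norm_num

theorem pd_B {e c s : ℝ} (hs : |s| < 2) : PD (vB e) (vBc e s) (vBs e c s) c s := by
  have h := (PD.rad (c := c) (hasDerivAt_fb hs)).add
    ((((PD.mon 1 1 0 c s).mul (PD.rad (hasDerivAt_fC hs))).sub
      (PD.rad (c := c) (hasDerivAt_fA hs))).cmul e)
  refine h.of (fun c s => ?_) ?_ ?_
  · unfold vB; ring
  · unfold vBc; norm_num
  · unfold vBs; norm_num


/-- continuity in `(e, c, s)` of all the functions -/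
theorem cont_rad : ContinuousOn fb {s | |s| < 2} ∧ ContinuousOn fb1 {s | |s| < 2} ∧
    ContinuousOn fA {s | |s| < 2} ∧ ContinuousOn fA1 {s | |s| < 2} ∧
    ContinuousOn fC {s | |s| < 2} ∧ ContinuousOn fC1 {s | |s| < 2} ∧
    ContinuousOn fg {s | |s| < 2} ∧ ContinuousOn fg1 {s | |s| < 2} ∧
    ContinuousOn fg2 {s | |s| < 2} ∧ ContinuousOn fk {s | |s| < 2} ∧
    ContinuousOn fk1 {s | |s| < 2} ∧ ContinuousOn fk2 {s | |s| < 2} := by
  refine ⟨fun s hs => ?_, fun s hs => ?_, fun s hs => ?_, fun s hs => ?_, fun s hs => ?_,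
    fun s hs => ?_, fun s hs => ?_, fun s hs => ?_, fun s hs => ?_, fun s hs => ?_,
    fun s hs => ?_, fun s hs => ?_⟩
  · exact (hasDerivAt_fb hs).continuousAt.continuousWithinAt
  · exact (hasDerivAt_fb1 hs).continuousAt.continuousWithinAt
  · exact (hasDerivAt_fA hs).continuousAt.continuousWithinAt
  · exact (hasDerivAt_fA1 hs).continuousAt.continuousWithinAt
  · exact (hasDerivAt_fC hs).continuousAt.continuousWithinAt
  · exact (hasDerivAt_fC1 hs).continuousAt.continuousWithinAt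
  · exact (hasDerivAt_fg hs).continuousAt.continuousWithinAt
  · exact (hasDerivAt_fg1 hs).continuousAt.continuousWithinAt
  · exact (der_fg2 hs).continuousWithinAt
  · exact (hasDerivAt_fk hs).continuousAt.continuousWithinAt
  · exact (hasDerivAt_fk1 hs).continuousAt.continuousWithinAt
  · exact (der_fk2 hs).continuousWithinAt

/-- domain of the parameters `(e, c, s)` -/
def T3 : Set (ℝ × ℝ × ℝ) := {p | |p.2.2| < 2}

private theorem cF (n : ℕ) : Continuous (F n) :=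
  continuous_iff_continuousAt.2 fun s => (hF n s).continuousAt

private theorem c3 {f : ℝ → ℝ} (hf : ContinuousOn f {s | |s| < 2}) :
    ContinuousOn (fun p : ℝ × ℝ × ℝ => f p.2.2) T3 :=
  hf.comp (continuous_snd.comp continuous_snd).continuousOn fun _ hp => hp

private theorem ce : Continuous (fun p : ℝ × ℝ × ℝ => p.1) := continuous_fst
private theorem cc : Continuous (fun p : ℝ × ℝ × ℝ => p.2.1) := continuous_fst.comp continuous_snd
private theorem cs : Continuous (fun p : ℝ × ℝ × ℝ => p.2.2) := continuous_snd.comp continuous_snd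

theorem cont_psi : Continuous (fun p : ℝ × ℝ × ℝ => vpsi p.1 p.2.1 p.2.2) := by
  have h0 := (cF 0).comp cs
  have h2 := (cF 2).comp cs
  have h4 := (cF 4).comp cs
  simp only [Function.comp_def] at h0 h2 h4
  unfold vpsi psiv
  fun_prop
theorem cont_psis : Continuous (fun p : ℝ × ℝ × ℝ => vpsis p.1 p.2.1 p.2.2) := by
  have h1 := (cF 1).comp cs
  have h3 := (cF 3).comp cs
  have h4 := (cF 4).comp cs
  have h5 := (cF 5).comp cs
  simp only [Function.comp_def] at h1 h3 h4 h5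
  unfold vpsis psis
  fun_prop
theorem cont_psic : Continuous (fun p : ℝ × ℝ × ℝ => vpsic p.1 p.2.1 p.2.2) := by
  have h2 := (cF 2).comp cs
  have h4 := (cF 4).comp cs
  simp only [Function.comp_def] at h2 h4
  unfold vpsic psic
  fun_prop
theorem cont_psiss : Continuous (fun p : ℝ × ℝ × ℝ => vpsiss p.1 p.2.1 p.2.2) := by
  have h2 := (cF 2).comp cs
  have h4 := (cF 4).comp cs
  have h5 := (cF 5).comp cs
  have h6 := (cF 6).comp cs
  simp only [Function.comp_def] at h2 h4 h5 h6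
  unfold vpsiss
  fun_prop
theorem cont_psisc : Continuous (fun p : ℝ × ℝ × ℝ => vpsisc p.1 p.2.1 p.2.2) := by
  have h3 := (cF 3).comp cs
  have h5 := (cF 5).comp cs
  simp only [Function.comp_def] at h3 h5
  unfold vpsisc
  fun_prop
theorem cont_psicc : Continuous (fun p : ℝ × ℝ × ℝ => vpsicc p.1 p.2.2) := by
  have h4 := (cF 4).comp cs
  simp only [Function.comp_def] at h4
  unfold vpsicc
  fun_prop
theorem cont_h : ContinuousOn (fun p : ℝ × ℝ × ℝ => vh p.1 p.2.1 p.2.2) T3 := by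
  have h1 := c3 cont_rad.2.2.2.2.2.2.1
  have h2 := c3 cont_rad.2.2.2.2.2.2.2.2.2.1
  unfold vh hv
  fun_prop
theorem cont_hs : ContinuousOn (fun p : ℝ × ℝ × ℝ => vhs p.1 p.2.1 p.2.2) T3 := by
  have h1 := c3 cont_rad.2.2.2.2.2.2.2.1
  have h2 := c3 cont_rad.2.2.2.2.2.2.2.2.2.2.1
  unfold vhs hs
  fun_prop
theorem cont_hc : ContinuousOn (fun p : ℝ × ℝ × ℝ => vhc p.1 p.2.1 p.2.2) T3 := by
  have h2 := c3 cont_rad.2.2.2.2.2.2.2.2.2.1
  unfold vhc hc
  fun_prop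
theorem cont_hss : ContinuousOn (fun p : ℝ × ℝ × ℝ => vhss p.1 p.2.1 p.2.2) T3 := by
  have h1 := c3 cont_rad.2.2.2.2.2.2.2.2.1
  have h2 := c3 cont_rad.2.2.2.2.2.2.2.2.2.2.2
  unfold vhss hss
  fun_prop
theorem cont_hsc : ContinuousOn (fun p : ℝ × ℝ × ℝ => vhsc p.1 p.2.1 p.2.2) T3 := by
  have h2 := c3 cont_rad.2.2.2.2.2.2.2.2.2.2.1
  unfold vhsc hsc
  fun_prop
theorem cont_hcc : ContinuousOn (fun p : ℝ × ℝ × ℝ => vhcc p.1 p.2.1 p.2.2) T3 := by
  unfold vhcc hcc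
  fun_prop
theorem cont_A : ContinuousOn (fun p : ℝ × ℝ × ℝ => vA p.1 p.2.1 p.2.2) T3 := by
  have h1 := c3 cont_rad.1
  have h2 := c3 cont_rad.2.2.1
  have h3 := c3 cont_rad.2.2.2.2.1
  unfold vA
  fun_prop
theorem cont_B : ContinuousOn (fun p : ℝ × ℝ × ℝ => vB p.1 p.2.1 p.2.2) T3 := by
  have h1 := c3 cont_rad.1
  have h2 := c3 cont_rad.2.2.1
  have h3 := c3 cont_rad.2.2.2.2.1
  unfold vB
  fun_prop
theorem cont_As : ContinuousOn (fun p : ℝ × ℝ × ℝ => vAs p.1 p.2.1 p.2.2) T3 := by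
  have h1 := c3 cont_rad.2.1
  have h2 := c3 cont_rad.2.2.2.1
  have h3 := c3 cont_rad.2.2.2.2.2.1
  unfold vAs
  fun_prop
theorem cont_Bs : ContinuousOn (fun p : ℝ × ℝ × ℝ => vBs p.1 p.2.1 p.2.2) T3 := by
  have h1 := c3 cont_rad.2.1
  have h2 := c3 cont_rad.2.2.2.1
  have h3 := c3 cont_rad.2.2.2.2.2.1
  unfold vBs
  fun_prop
theorem cont_Ac : ContinuousOn (fun p : ℝ × ℝ × ℝ => vAc p.1 p.2.2) T3 := by
  have h3 := c3 cont_rad.2.2.2.2.1
  unfold vAc
  fun_prop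
theorem cont_Bc : ContinuousOn (fun p : ℝ × ℝ × ℝ => vBc p.1 p.2.2) T3 := by
  have h3 := c3 cont_rad.2.2.2.2.1
  unfold vBc
  fun_prop

end Pool.Agent.PPW.ND
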