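import Pool.Agent.Lib.MP_eb7570_an.ND.Geo
import Pool.Agent.Lib.MP_eb7570_an.ND.Jet

set_option autoImplicit false

/-!
MP_eb7570_an, near disk part: the pair, `0 ≤ e ≤ 3/10`, clamped at `‖x‖ = 27/10` (`sx x = S1`).
-/

namespace Pool.Agent.PPW.ND

noncomputable section

def r1 : ℝ := 27 / 10

/-- the pair before the clamp -/
def q1 (e : ℝ) (x : E2) : ℝ := x 0 * vA e (cx x) (sx x)
def q2 (e : ℝ) (x : E2) : ℝ := x 1 * vB e (cx x) (sx x)

/-- the family of pairs -/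
def Q1 (e : ℝ) (x : E2) : ℝ := q1 e (cl r1 x)
def Q2 (e : ℝ) (x : E2) : ℝ := q2 e (cl r1 x)

/-- their partial derivatives -/
def q10 (e : ℝ) (x : E2) : ℝ :=
  vA e (cx x) (sx x) + x 0 ^ 2 / 2 * (vAs e (cx x) (sx x) + vAc e (sx x))
def q11 (e : ℝ) (x : E2) : ℝ := x 0 * x 1 / 2 * (vAs e (cx x) (sx x) - vAc e (sx x))
def q20 (e : ℝ) (x : E2) : ℝ := x 0 * x 1 / 2 * (vBs e (cx x) (sx x) + vBc e (sx x))
def q21 (e : ℝ) (x : E2) : ℝ :=
  vB e (cx x) (sx x) + x 1 ^ 2 / 2 * (vBs e (cx x) (sx x) - vBc e (sx x))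

/-- the numbers `α(e)`, `β(e)`, with sum `2 μ = 2 (κ² - 1)` -/
def alE (e : ℝ) : ℝ := (4 * mu + e * al) / 4
def beE (e : ℝ) : ℝ := (4 * mu - e * al) / 4

end

theorem sx_eq (x : E2) : sx x = ‖x‖ ^ 2 / 4 := by
  unfold sx
  rw [EuclideanSpace.norm_sq_eq]
  simp [Fin.sum_univ_two]

theorem sx_nonneg (x : E2) : 0 ≤ sx x := by rw [sx_eq]; positivity

theorem abs_cx_le (x : E2) : |cx x| ≤ sx x := by
  unfold cx sx
  rw [abs_le]
  constructor <;> nlinarith [sq_nonneg (x 0), sq_nonneg (x 1)]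

theorem sx_le_S1 {x : E2} (h : ‖x‖ ≤ r1) : sx x ≤ S1 := by
  rw [sx_eq]
  unfold r1 at h
  unfold S1
  nlinarith [norm_nonneg x]

theorem sx_of_r1 {x : E2} (h : ‖x‖ = r1) : sx x = S1 := by
  rw [sx_eq, h]
  unfold r1 S1
  norm_num

/-- `|s| < 2` in the open ball of radius `14/5` -/
theorem abs_sx_lt {x : E2} (h : ‖x‖ < 14 / 5) : |sx x| < 2 := by
  rw [abs_of_nonneg (sx_nonneg x), sx_eq]
  nlinarith [norm_nonneg x]

private theorem lf_apply (a b : ℝ) (y : E2) : lf a b y = a * y 0 + b * y 1 := by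
  simp [lf]

private theorem proj_app (i : Fin 2) (y : E2) :
    (EuclideanSpace.proj (𝕜 := ℝ) i : E2 →L[ℝ] ℝ) y = y i := rfl

private theorem fd_coord (i : Fin 2) (x : E2) :
    HasFDerivAt (fun y : E2 => y i) (EuclideanSpace.proj (𝕜 := ℝ) i : E2 →L[ℝ] ℝ) x :=
  (EuclideanSpace.proj (𝕜 := ℝ) i : E2 →L[ℝ] ℝ).hasFDerivAt

theorem fd_q1 {e : ℝ} {x : E2} (hx : ‖x‖ < 14 / 5) :
    HasFDerivAt (q1 e) (lf (q10 e x) (q11 e x)) x := by
  have h1 := fd_pull (x := x) (pd_A (e := e) (c := cx x) (abs_sx_lt hx))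
  have h2 := (fd_coord 0 x).mul h1
  refine h2.congr_fderiv ?_
  ext y
  simp only [q10, q11, lf_apply, add_apply, smul_apply,
    smul_eq_mul, proj_app]
  ring

theorem fd_q2 {e : ℝ} {x : E2} (hx : ‖x‖ < 14 / 5) :
    HasFDerivAt (q2 e) (lf (q20 e x) (q21 e x)) x := by
  have h1 := fd_pull (x := x) (pd_B (e := e) (c := cx x) (abs_sx_lt hx))
  have h2 := (fd_coord 1 x).mul h1
  refine h2.congr_fderiv ?_
  ext y
  simp only [q20, q21, lf_apply, add_apply, smul_apply,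
    smul_eq_mul, proj_app]
  ring

theorem continuous_sx : Continuous sx := by
  unfold sx
  fun_prop

theorem continuous_cx : Continuous cx := by
  unfold cx
  fun_prop

/-- the parameter domain `e ∈ [0, 3/10]`, `‖x‖ < 14/5` -/
def Dm : Set (ℝ × E2) := {p | ‖p.2‖ < 14 / 5}

/-- pullback of continuity -/
theorem cont_pull {f : ℝ × ℝ × ℝ → ℝ} (hf : ContinuousOn f T3) :
    ContinuousOn (fun p : ℝ × E2 => f (p.1, cx p.2, sx p.2)) Dm := by
  have h1 : Continuous (fun p : ℝ × E2 => ((p.1, cx p.2, sx p.2) : ℝ × ℝ × ℝ)) :=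
    continuous_fst.prodMk ((continuous_cx.comp continuous_snd).prodMk
      (continuous_sx.comp continuous_snd))
  exact hf.comp h1.continuousOn (fun p hp => abs_sx_lt hp)

/-- compactness: uniform bound on `[0, 3/10] × closedBall 0 r1` -/
theorem bound_of_cont {f : ℝ × E2 → ℝ} (hf : ContinuousOn f Dm) :
    ∃ M : ℝ, 0 ≤ M ∧ ∀ e ∈ Set.Icc (0 : ℝ) (3 / 10), ∀ x : E2, ‖x‖ ≤ r1 → |f (e, x)| ≤ M := by
  have hK : IsCompact (Set.Icc (0 : ℝ) (3 / 10) ×ˢ Metric.closedBall (0 : E2) r1) :=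
    isCompact_Icc.prod (isCompact_closedBall _ _)
  have hsub : (Set.Icc (0 : ℝ) (3 / 10) ×ˢ Metric.closedBall (0 : E2) r1) ⊆ Dm := by
    rintro ⟨e, x⟩ ⟨_, hx⟩
    have : ‖x‖ ≤ r1 := by simpa using hx
    show ‖x‖ < 14 / 5
    unfold r1 at this
    linarith
  obtain ⟨C, hC⟩ := hK.exists_bound_of_continuousOn (hf.mono hsub)
  refine ⟨max C 0, le_max_right _ _, fun e he x hx => ?_⟩
  have := hC (e, x) ⟨he, by simpa using hx⟩
  rw [Real.norm_eq_abs] at this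
  exact this.trans (le_max_left _ _)

private theorem c0 : Continuous (fun p : ℝ × E2 => p.2 0) := by fun_prop
private theorem c1 : Continuous (fun p : ℝ × E2 => p.2 1) := by fun_prop

theorem cont_q10 : ContinuousOn (fun p : ℝ × E2 => q10 p.1 p.2) Dm := by
  unfold q10
  have a := cont_pull cont_A
  have b := cont_pull cont_As
  have c := cont_pull cont_Ac
  exact a.add ((((c0.pow 2).div_const 2).continuousOn).mul (b.add c))

theorem cont_q11 : ContinuousOn (fun p : ℝ × E2 => q11 p.1 p.2) Dm := by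
  unfold q11
  have b := cont_pull cont_As
  have c := cont_pull cont_Ac
  exact (((c0.mul c1).div_const 2).continuousOn).mul (b.sub c)

theorem cont_q20 : ContinuousOn (fun p : ℝ × E2 => q20 p.1 p.2) Dm := by
  unfold q20
  have b := cont_pull cont_Bs
  have c := cont_pull cont_Bc
  exact (((c0.mul c1).div_const 2).continuousOn).mul (b.add c)

theorem cont_q21 : ContinuousOn (fun p : ℝ × E2 => q21 p.1 p.2) Dm := by
  unfold q21
  have a := cont_pull cont_B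
  have b := cont_pull cont_Bs
  have c := cont_pull cont_Bc
  exact a.add ((((c1.pow 2).div_const 2).continuousOn).mul (b.sub c))

/-- uniform bound -/
theorem q_bound : ∃ M : ℝ, ∀ e ∈ Set.Icc (0 : ℝ) (3 / 10), ∀ x : E2, ‖x‖ ≤ r1 →
    |q10 e x| ≤ M ∧ |q11 e x| ≤ M ∧ |q20 e x| ≤ M ∧ |q21 e x| ≤ M := by
  obtain ⟨M1, p1, h1⟩ := bound_of_cont cont_q10
  obtain ⟨M2, p2, h2⟩ := bound_of_cont cont_q11
  obtain ⟨M3, p3, h3⟩ := bound_of_cont cont_q20
  obtain ⟨M4, p4, h4⟩ := bound_of_cont cont_q21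
  refine ⟨M1 + M2 + M3 + M4, fun e he x hx => ⟨?_, ?_, ?_, ?_⟩⟩
  · linarith [h1 e he x hx]
  · linarith [h2 e he x hx]
  · linarith [h3 e he x hx]
  · linarith [h4 e he x hx]

end Pool.Agent.PPW.ND
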