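import Pool.Agent.Lib.MP_eb7570_an.ND.EquiND
import Pool.Agent.Lib.MP_eb7570_an.ND.Facts

set_option autoImplicit false

/-!
MP_eb7570_an, near disk part: the family is admissible. `e = 0` : `vA 0 = vB 0 =
fb`, radial, so the pair is equivariant (`cl` commutes with rotations). `sgn`, `low` from `A_ge`,
`B_ge` (`vA, vB ≥ 1/2`) : `|Q1 e x| = |(cl x)₀| vA ≥ |x₀| min 1 (r1/‖x‖) / 2`, and
`min 1 (r1/‖x‖) (1 + ‖x‖) ≥ 1`. Lipschitz: `lip_cl` with `fd_q1`, `fd_q2`, `q_bound`. Joint
continuity: `cont_A`, `cont_B` and continuity of `cl`.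
-/

open Set

namespace Pool.Agent.PPW.ND

private theorem r1p : 0 < r1 := by unfold r1; norm_num

/-- the scaling factor of the clamp -/
private noncomputable def mm (x : E2) : ℝ := (max 1 (‖x‖ / r1))⁻¹

private theorem cl_mm (x : E2) : cl r1 x = mm x • x := rfl

private theorem mm_pos (x : E2) : 0 < mm x := by unfold mm; positivity

private theorem mm_low (x : E2) : 1 ≤ (1 + ‖x‖) * mm x := by
  unfold mm
  have h0 : 0 < max 1 (‖x‖ / r1) := by positivity
  rw [← div_eq_mul_inv, one_le_div h0]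
  apply max_le
  · linarith [norm_nonneg x]
  · rw [div_le_iff₀ r1p]
    unfold r1
    nlinarith [norm_nonneg x]

private theorem norm_cl_le (x : E2) : ‖cl r1 x‖ ≤ r1 := by
  rw [cl_mm, norm_smul, Real.norm_eq_abs, abs_of_pos (mm_pos x)]
  unfold mm
  have h0 : 0 < max 1 (‖x‖ / r1) := by positivity
  rw [inv_mul_le_iff₀ h0]
  have h1 : ‖x‖ / r1 ≤ max 1 (‖x‖ / r1) := le_max_right _ _
  rw [div_le_iff₀ r1p] at h1
  exact h1

private theorem cont_cl : Continuous (cl r1) := by
  unfold cl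
  have h : Continuous (fun x : E2 => max 1 (‖x‖ / r1)) :=
    continuous_const.max (continuous_norm.div_const _)
  exact (h.inv₀ (fun x => by positivity)).smul continuous_id

private theorem S1_lt : S1 < 2 := by unfold S1; norm_num

private theorem cont_pair {f : ℝ × ℝ × ℝ → ℝ} (hf : ContinuousOn f T3) :
    Continuous (fun p : ℝ × E2 => f (p.1, cx (cl r1 p.2), sx (cl r1 p.2))) := by
  rw [← continuousOn_univ]
  have h1 : Continuous (fun p : ℝ × E2 =>
      ((p.1, cx (cl r1 p.2), sx (cl r1 p.2)) : ℝ × ℝ × ℝ)) :=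
    continuous_fst.prodMk ((continuous_cx.comp (cont_cl.comp continuous_snd)).prodMk
      (continuous_sx.comp (cont_cl.comp continuous_snd)))
  refine hf.comp h1.continuousOn (fun p _ => ?_)
  show |sx (cl r1 p.2)| < 2
  rw [abs_of_nonneg (sx_nonneg _)]
  exact lt_of_le_of_lt (sx_le_S1 (norm_cl_le _)) S1_lt

private theorem c0 : Continuous (fun p : ℝ × E2 => cl r1 p.2 0) := by
  have h := cont_cl.comp (continuous_snd (X := ℝ) (Y := E2))
  have h2 : Continuous (fun y : E2 => y 0) := by fun_prop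
  exact h2.comp h

private theorem c1 : Continuous (fun p : ℝ × E2 => cl r1 p.2 1) := by
  have h := cont_cl.comp (continuous_snd (X := ℝ) (Y := E2))
  have h2 : Continuous (fun y : E2 => y 1) := by fun_prop
  exact h2.comp h

private theorem cl_neg' (x : E2) : cl r1 (-x) = - cl r1 x := by
  rw [cl_mm, cl_mm]
  unfold mm
  rw [norm_neg, smul_neg]

private theorem sx_neg (x : E2) : sx (-x) = sx x := by simp [sx]
private theorem cx_neg (x : E2) : cx (-x) = cx x := by simp [cx]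

private theorem A_low {e : ℝ} (he : e ∈ Icc (0 : ℝ) (3 / 10)) (x : E2) :
    1 / 2 ≤ vA e (cx (cl r1 x)) (sx (cl r1 x)) :=
  A_ge he.1 he.2 (sx_nonneg _) (sx_le_S1 (norm_cl_le _)) (abs_cx_le _)

private theorem B_low {e : ℝ} (he : e ∈ Icc (0 : ℝ) (3 / 10)) (x : E2) :
    1 / 2 ≤ vB e (cx (cl r1 x)) (sx (cl r1 x)) :=
  B_ge he.1 he.2 (sx_nonneg _) (sx_le_S1 (norm_cl_le _)) (abs_cx_le _)

private theorem Q1_eq (e : ℝ) (x : E2) :
    Q1 e x = mm x * x 0 * vA e (cx (cl r1 x)) (sx (cl r1 x)) := by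
  unfold Q1 q1
  rw [show cl r1 x 0 = mm x * x 0 from rfl]

private theorem Q2_eq (e : ℝ) (x : E2) :
    Q2 e x = mm x * x 1 * vB e (cx (cl r1 x)) (sx (cl r1 x)) := by
  unfold Q2 q2
  rw [show cl r1 x 1 = mm x * x 1 from rfl]

private theorem low_aux {m n t v : ℝ} (hm : 0 < m) (hn : 1 ≤ n * m) (hv : 1 / 2 ≤ v)
    (hn0 : 0 ≤ n) : 1 / 2 * |t| ≤ n * |m * t * v| := by
  rw [abs_mul, abs_mul, abs_of_pos hm, abs_of_pos (lt_of_lt_of_le (by norm_num) hv)]
  have h1 : n * (m * |t| * v) = (n * m) * (|t| * v) := by ring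
  rw [h1]
  have h2 : 1 / 2 * |t| ≤ |t| * v := by nlinarith [abs_nonneg t]
  have h3 : 0 ≤ |t| * v := by
    have := abs_nonneg t
    positivity
  nlinarith

theorem path_ND : Path (Icc 0 (3 / 10)) Q1 Q2 where
  cont1 := by
    have h := c0.mul (cont_pair cont_A)
    exact h.continuousOn
  cont2 := by
    have h := c1.mul (cont_pair cont_B)
    exact h.continuousOn
  odd1 := by
    intro e _ x
    unfold Q1 q1
    rw [cl_neg', sx_neg, cx_neg]
    show -(cl r1 x 0) * _ = _
    ring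
  odd2 := by
    intro e _ x
    unfold Q2 q2
    rw [cl_neg', sx_neg, cx_neg]
    show -(cl r1 x 1) * _ = _
    ring
  sgn1 := by
    intro e he x
    rw [Q1_eq]
    have h1 := A_low he x
    have h2 := mm_pos x
    have h3 : 0 ≤ mm x * (x 0 ^ 2 * vA e (cx (cl r1 x)) (sx (cl r1 x))) := by positivity
    linarith
  sgn2 := by
    intro e he x
    rw [Q2_eq]
    have h1 := B_low he x
    have h2 := mm_pos x
    have h3 : 0 ≤ mm x * (x 1 ^ 2 * vB e (cx (cl r1 x)) (sx (cl r1 x))) := by positivity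
    linarith
  lip := by
    obtain ⟨M, hM⟩ := q_bound
    obtain ⟨C, hC⟩ := lip_cl (r := r1) (r2 := 14 / 5) r1p (by unfold r1; norm_num) M
    refine ⟨C, fun e he => ⟨?_, ?_⟩⟩
    · exact hC (q1 e) (q10 e) (q11 e) (fun x hx => fd_q1 hx)
        (fun x hx => ⟨(hM e he x hx).1, (hM e he x hx).2.1⟩)
    · exact hC (q2 e) (q20 e) (q21 e) (fun x hx => fd_q2 hx)
        (fun x hx => ⟨(hM e he x hx).2.2.1, (hM e he x hx).2.2.2⟩)
  low := by
    refine ⟨1 / 2, by norm_num, fun e he x => ⟨?_, ?_⟩⟩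
    · rw [Q1_eq]
      exact low_aux (mm_pos x) (mm_low x) (A_low he x) (by positivity)
    · rw [Q2_eq]
      exact low_aux (mm_pos x) (mm_low x) (B_low he x) (by positivity)

theorem equi_ND : Equi (Q1 0) (Q2 0) := equi_ND'

end Pool.Agent.PPW.ND
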